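import Pool.Agent.H33.CD.Op

/-!
# Compactness
-/

set_option autoImplicit false
set_option linter.unusedSectionVars false

open Set Filter Topology MeasureTheory Function
open scoped Manifold ContDiff RealInnerProductSpace Convolution

noncomputable section

namespace Pool.Agent.H33.CD

open Pool.Agent.Y501.SY Pool.Agent.Y455.SY

instance (m : ℕ) : FiniteDimensional ℝ (Al m 2) := by
  have h0 : FiniteDimensional ℝ (MultilinearMap ℝ (fun _ : Fin 2 => E m) ℝ) := inferInstance
  refine FiniteDimensional.of_injective (V₂ := MultilinearMap ℝ (fun _ : Fin 2 => E m) ℝ)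
    { toFun := fun a => a.toMultilinearMap
      map_add' := fun a b => rfl
      map_smul' := fun a b => rfl } ?_
  intro a b h
  ext v
  exact congrArg (fun c : MultilinearMap ℝ (fun _ : Fin 2 => E m) ℝ => c v) h

instance (m : ℕ) : FiniteDimensional ℝ (Aw m) := inferInstanceAs (FiniteDimensional ℝ (Al m 2))

instance (m : ℕ) : ProperSpace (Aw m) := FiniteDimensional.proper_real (Aw m)

theorem exists_subseq {X W : Type} [TopologicalSpace X] [CompactSpace X] [NormedAddCommGroup W]
    [ProperSpace W] (g : ℕ → C(X, W)) (R : ℝ) (hR : ∀ n x, ‖g n x‖ ≤ R)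
    (heq : ∀ (x : X) (ε : ℝ), 0 < ε → ∀ᶠ y in 𝓝 x, ∀ n, ‖g n y - g n x‖ < ε) :
    ∃ (f : C(X, W)) (φ : ℕ → ℕ), StrictMono φ ∧ Tendsto (g ∘ φ) atTop (𝓝 f) := by
  obtain ⟨e, he⟩ : ∃ e, e = ContinuousMap.isometryEquivBoundedOfCompact X W := ⟨_, rfl⟩
  have hval : ∀ (a : C(X, W)) (x : X), e a x = a x := fun a x => by rw [he]; rfl
  have hcomp : IsCompact (closure (range fun n => e (g n))) := by
    refine BoundedContinuousFunction.arzela_ascoli (Metric.closedBall 0 R)
      (isCompact_closedBall _ _) _ ?_ ?_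
    · rintro _ x ⟨n, rfl⟩
      rw [mem_closedBall_zero_iff, hval]
      exact hR n x
    · intro x
      rw [Metric.equicontinuousAt_iff_right]
      intro ε hε
      filter_upwards [heq x ε hε] with y hy
      rintro ⟨_, n, rfl⟩
      rw [dist_comm, dist_eq_norm]
      change ‖e (g n) y - e (g n) x‖ < ε
      rw [hval, hval]
      exact hy n
  obtain ⟨a, -, φ, hφ, ha⟩ := hcomp.tendsto_subseq (x := fun n => e (g n))
    fun n => subset_closure ⟨n, rfl⟩
  refine ⟨e.symm a, φ, hφ, ?_⟩
  have h1 := (e.symm.continuous.tendsto a).comp ha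
  refine h1.congr fun n => ?_
  simp

end Pool.Agent.H33.CD
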