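import Mathlib

/-!
# Cartan's formula for constant vector fields
-/

set_option autoImplicit false

open Set Filter Topology MeasureTheory
open scoped Manifold ContDiff

noncomputable section

namespace Pool.Agent.H33.CD

variable {V : Type} [NormedAddCommGroup V] [NormedSpace ℝ V]

/-- contraction with a fixed vector -/
def ctr (n : ℕ) (ξ : V) : (V [⋀^Fin (n + 1)]→L[ℝ] ℝ) →L[ℝ] (V [⋀^Fin n]→L[ℝ] ℝ) :=
  (ContinuousLinearMap.apply ℝ (V [⋀^Fin n]→L[ℝ] ℝ) ξ).comp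
    (ContinuousAlternatingMap.curryLeftLI
      (𝕜 := ℝ) (E := V) (F := ℝ) (n := n)).toContinuousLinearMap

theorem ctr_apply {n : ℕ} (ξ : V) (f : V [⋀^Fin (n + 1)]→L[ℝ] ℝ) (v : Fin n → V) :
    ctr n ξ f v = f (Matrix.vecCons ξ v) := rfl

theorem ctr_norm {n : ℕ} (ξ : V) (f : V [⋀^Fin (n + 1)]→L[ℝ] ℝ) : ‖ctr n ξ f‖ ≤ ‖f‖ * ‖ξ‖ := by
  have h : ctr n ξ f = f.curryLeft ξ := rfl
  rw [h]
  refine (ContinuousLinearMap.le_opNorm _ _).trans ?_
  rw [ContinuousAlternatingMap.norm_curryLeft]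

theorem cartan {Θ : V → V [⋀^Fin 2]→L[ℝ] ℝ} {w : V} (h : DifferentiableAt ℝ Θ w) (ξ : V) :
    fderiv ℝ Θ w ξ = extDeriv (fun w => ctr 1 ξ (Θ w)) w + ctr 2 ξ (extDeriv Θ w) := by
  have h1 : HasFDerivAt (fun w => ctr 1 ξ (Θ w)) ((ctr 1 ξ).comp (fderiv ℝ Θ w)) w :=
    (ctr 1 ξ).hasFDerivAt.comp w h.hasFDerivAt
  ext v
  rw [ContinuousAlternatingMap.add_apply, ctr_apply]
  unfold extDeriv
  rw [h1.fderiv, ContinuousAlternatingMap.alternatizeUncurryFin_apply,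
    ContinuousAlternatingMap.alternatizeUncurryFin_apply, Fin.sum_univ_two, Fin.sum_univ_three]
  simp only [ContinuousLinearMap.comp_apply, ctr_apply]
  have e1 : Matrix.vecCons ξ ((0 : Fin 2).removeNth v) = ![ξ, v 1] := by
    funext i; fin_cases i <;> rfl
  have e2 : Matrix.vecCons ξ ((1 : Fin 2).removeNth v) = ![ξ, v 0] := by
    funext i; fin_cases i <;> rfl
  have e3 : (0 : Fin 3).removeNth (Matrix.vecCons ξ v) = v := by
    funext i; fin_cases i <;> rfl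
  have e4 : (1 : Fin 3).removeNth (Matrix.vecCons ξ v) = ![ξ, v 1] := by
    funext i; fin_cases i <;> rfl
  have e5 : (2 : Fin 3).removeNth (Matrix.vecCons ξ v) = ![ξ, v 0] := by
    funext i; fin_cases i <;> rfl
  have f1 : (Matrix.vecCons ξ v : Fin 3 → V) 0 = ξ := rfl
  have f2 : (Matrix.vecCons ξ v : Fin 3 → V) 1 = v 0 := rfl
  have f3 : (Matrix.vecCons ξ v : Fin 3 → V) 2 = v 1 := rfl
  rw [e1, e2, e3, e4, e5, f1, f2, f3]
  simp
  ring

end Pool.Agent.H33.CD
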