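import Pool.Agent.H33.CD.MainD
import Pool.Agent.H33.TM.BriM

/-!
Taming forms with a small exterior derivative: the public definitions and the comparison.
-/

set_option autoImplicit false

open Set Filter Topology MeasureTheory
open scoped Manifold ContDiff

noncomputable section

namespace Pool.Agent.H33.CDP

open Pool.Agent.Y501.SYP Pool.Agent.Q235.SQP Pool.Agent.H33.TMP

section

variable {V W : Type} [NormedAddCommGroup V] [NormedSpace ℝ V] [NormedAddCommGroup W]
  [NormedSpace ℝ W] {X : Type} [TopologicalSpace X] [ChartedSpace V X]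

/-- The exterior derivative of the smooth two-form `σ` is at most `g`, in the metric induced by
`F`: `|dσ (u, v, w)| ≤ g |u| |v| |w|`. -/
structure DefectLe (F : X → W) (σ : Form V X 2) (g : X → ℝ) : Prop where
  smooth : IsSmooth σ
  bound : ∃ ρ : Form V X 3, IsD σ ρ ∧ ∀ (x : X) (u v w : TangentSpace 𝓘(ℝ, V) x),
    |ρ x ![u, v, w]| ≤ g x * len F x u * len F x v * len F x w

/-- `σ (v, J v) ≥ |v|²` outside the balls with centres `c i` and radii `r i`, and
`σ (v, J v) ≥ - B i |v|²` in the ball with centre `c i`. -/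
def TamesOffBalls (F : X → W) (J : End V X) (σ : Form V X 2) {ι : Type} (c : ι → X)
    (r B : ι → ℝ) : Prop :=
  ∀ y, (∀ v : TangentSpace 𝓘(ℝ, V) y, len F y v ^ 2 ≤ qd σ J y v) ∨
    ∃ i, ‖F y - F (c i)‖ < r i ∧
      ∀ v : TangentSpace 𝓘(ℝ, V) y, -B i * len F y v ^ 2 ≤ qd σ J y v

end

attribute [local instance] cs mf

section

variable {d m : ℕ} {X : Type} [TopologicalSpace X] [ChartedSpace (ES d) X]
  [IsManifold 𝓘(ℝ, ES d) ∞ X]

theorem defect (hd : 4 ≤ d) [CompactSpace X] [T2Space X] [MeasurableSpace X] [BorelSpace X]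
    (F : X → ES m) (hF : IsEmb (V := ES d) F) (J : End (ES d) X) (hJ : IsAlmostComplex J)
    (hol : LocHolder J) (p : ℝ) (hp : (d : ℝ) - 2 < p) :
    ∃ ε : ℝ, 0 < ε ∧ ∀ (σ : Form (ES d) X 2) (g : X → ℝ), Measurable g → DefectLe F σ g →
      ∫⁻ x, ENNReal.ofReal (g x) ^ p ∂(areaMeasure d F) ≤ ENNReal.ofReal ε →
      ∀ (ι : Type) (c : ι → X) (r B : ι → ℝ), SmallBalls ε r B → TamesOffBalls F J σ c r B →
      ∃ w : Form (ES d) X 2, IsTamingSymplectic w J := by
  obtain ⟨ε, hε, h⟩ := Pool.Agent.H33.CD.main_defect (d := d) (m := m) (X := X) hd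
    (F := F) hF.smooth hF.inj hF.immersion (ac_of J hJ) hol hp
  refine ⟨ε, hε, fun σ g hg hσ hint ι c r B hb ht => ?_⟩
  obtain ⟨ρ, h1, h2⟩ := hσ.bound
  obtain ⟨τ, t1, t2, t3⟩ := h σ ρ g ((smooth_iff _).1 hσ.smooth) ((isD_iff _ _).1 h1) hg h2 hint
    ι c r B hb.pos hb.nonneg hb.sum ht
  exact ⟨τ, symp_of ((smooth_iff τ).2 t1) ((closed_iff τ).2 t2) t3⟩

end

end Pool.Agent.H33.CDP
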