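import Pool.Agent.H33.CD.Pot

/-!
# Potentials of functions in the critical Lorentz space
-/

set_option autoImplicit false
set_option linter.unusedSectionVars false
set_option linter.unusedVariables false

open Set Filter Topology MeasureTheory Function
open scoped Manifold ContDiff RealInnerProductSpace Convolution ENNReal NNReal

noncomputable section

namespace Pool.Agent.H33.CD

open Pool.Agent.Y501.SY Pool.Agent.Y455.SY Pool.Agent.H33.TM

/-- the tail of the potential -/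
theorem tail_int {a c : ℝ} (ha : a < -1) (hc : 0 < c) :
    ∫⁻ s in Ioi c, ENNReal.ofReal (s ^ a) = ENNReal.ofReal (-c ^ (a + 1) / (a + 1)) := by
  rw [← integral_Ioi_rpow_of_lt ha hc, ← ofReal_integral_eq_lintegral_ofReal]
  · exact integrableOn_Ioi_rpow_of_lt ha hc
  · refine (ae_restrict_iff' measurableSet_Ioi).2 (Eventually.of_forall fun s hs => ?_)
    exact Real.rpow_nonneg (hc.trans hs).le a

/-- splitting at the critical radius -/
theorem split_int {k : ℝ} (hk : 1 < k) {K₁ K₂ : ℝ} (hK₁ : 0 ≤ K₁) (hK₂ : 0 ≤ K₂) {M : ℝ≥0∞}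
    (hM : M ≠ ⊤) {a : ℝ → ℝ≥0∞} (h1 : ∀ s ∈ Ioc (0 : ℝ) 1, a s ≤ ENNReal.ofReal K₁)
    (h2 : ∀ s ∈ Ioc (0 : ℝ) 1, a s ≤ ENNReal.ofReal (K₂ * s ^ (-k)) * M) :
    ∫⁻ s in Ioc (0 : ℝ) 1, a s ≤ ENNReal.ofReal (K₁ + K₂ / (k - 1)) * M ^ (1 / k) := by
  have hk0 : 0 < k := by linarith
  rcases eq_or_ne M 0 with hM0 | hM0
  · have h3 : ∫⁻ s in Ioc (0 : ℝ) 1, a s ≤ ∫⁻ s in Ioc (0 : ℝ) 1, 0 := by
      refine setLIntegral_mono' measurableSet_Ioc fun s hs => (h2 s hs).trans ?_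
      rw [hM0, mul_zero]
    refine h3.trans ?_
    simp
  · obtain ⟨N, hN⟩ : ∃ N, N = M.toReal := ⟨_, rfl⟩
    have hN0 : 0 < N := by
      rw [hN]
      exact ENNReal.toReal_pos hM0 hM
    have hMN : M = ENNReal.ofReal N := by rw [hN, ENNReal.ofReal_toReal hM]
    obtain ⟨c, hc⟩ : ∃ c, c = N ^ (1 / k) := ⟨_, rfl⟩
    have hc0 : 0 < c := by rw [hc]; positivity
    have hbnd : ∫⁻ s in Ioc (0 : ℝ) 1, a s ≤ ∫⁻ s in Ioc (0 : ℝ) 1,
        min (ENNReal.ofReal K₁) (ENNReal.ofReal (K₂ * s ^ (-k)) * M) :=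
      setLIntegral_mono' measurableSet_Ioc fun s hs => le_min (h1 s hs) (h2 s hs)
    have hsub : Ioc (0 : ℝ) 1 ⊆ Ioc 0 c ∪ Ioi c := by
      intro s hs
      rcases le_or_gt s c with h | h
      · exact Or.inl ⟨hs.1, h⟩
      · exact Or.inr h
    have hfst : ∫⁻ s in Ioc (0 : ℝ) c, min (ENNReal.ofReal K₁) (ENNReal.ofReal (K₂ * s ^ (-k)) * M)
        ≤ ENNReal.ofReal K₁ * ENNReal.ofReal c := by
      calc _ ≤ ∫⁻ s in Ioc (0 : ℝ) c, ENNReal.ofReal K₁ := lintegral_mono fun s => min_le_left _ _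
        _ = _ := by rw [setLIntegral_const, Real.volume_Ioc, sub_zero]
    have hsnd : ∫⁻ s in Ioi c, min (ENNReal.ofReal K₁) (ENNReal.ofReal (K₂ * s ^ (-k)) * M)
        ≤ ENNReal.ofReal (K₂ / (k - 1)) * ENNReal.ofReal c := by
      calc _ ≤ ∫⁻ s in Ioi c, (ENNReal.ofReal K₂ * M) * ENNReal.ofReal (s ^ (-k)) := by
            refine lintegral_mono fun s => (min_le_right _ _).trans (le_of_eq ?_)
            rw [ENNReal.ofReal_mul hK₂]
            ring
        _ = (ENNReal.ofReal K₂ * M) * ∫⁻ s in Ioi c, ENNReal.ofReal (s ^ (-k)) :=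
            lintegral_const_mul' _ _ (ENNReal.mul_ne_top ENNReal.ofReal_ne_top hM)
        _ = _ := by
            rw [tail_int (by linarith) hc0, hMN, ← ENNReal.ofReal_mul hK₂,
              ← ENNReal.ofReal_mul (by positivity),
              ← ENNReal.ofReal_mul (div_nonneg hK₂ (by linarith))]
            congr 1
            have e1 : c ^ (-k + 1) * N = c := by
              have e2 : N = c ^ k := by
                rw [hc, ← Real.rpow_mul hN0.le, one_div_mul_cancel hk0.ne', Real.rpow_one]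
              conv_lhs => rw [e2]
              rw [← Real.rpow_add hc0, neg_add_cancel_comm, Real.rpow_one]
            have e3 : -k + 1 = -(k - 1) := by ring
            rw [mul_div_assoc', show K₂ * N * -c ^ (-k + 1) = -(K₂ * (c ^ (-k + 1) * N)) by ring,
              e1, e3, neg_div_neg_eq]
            ring
    calc ∫⁻ s in Ioc (0 : ℝ) 1, a s ≤ _ := hbnd
      _ ≤ ∫⁻ s in Ioc 0 c ∪ Ioi c,
          min (ENNReal.ofReal K₁) (ENNReal.ofReal (K₂ * s ^ (-k)) * M) := lintegral_mono_set hsub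
      _ ≤ _ := lintegral_union_le _ _ _
      _ ≤ ENNReal.ofReal K₁ * ENNReal.ofReal c +
          ENNReal.ofReal (K₂ / (k - 1)) * ENNReal.ofReal c := add_le_add hfst hsnd
      _ = _ := by
          rw [← add_mul, ← ENNReal.ofReal_add hK₁ (div_nonneg hK₂ (by linarith)), hc, hMN,
            ENNReal.ofReal_rpow_of_pos hN0]

section

variable {d m : ℕ} {X : Type} [TopologicalSpace X] [ChartedSpace (E d) X]
  [IsManifold (𝓡 d) ∞ X] [CompactSpace X] [MeasurableSpace X] [BorelSpace X]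
  {F : X → E m} {P : E m → X} {r : ℝ} {χ : E m → ℝ} {B : ℝ}

/-- the critical Lorentz norm -/
def Lor (d : ℕ) (μ : Measure X) (g : X → ℝ) : ℝ≥0∞ :=
  ∫⁻ t in Ioi (0 : ℝ), μ {x | t < g x} ^ (1 / ((d : ℝ) - 2))

theorem layer (κ : Measure X) {g : X → ℝ} (hg : Measurable g) :
    ∫⁻ x, ENNReal.ofReal (g x) ∂κ = ∫⁻ t in Ioi (0 : ℝ), κ {x | t < g x} := by
  have h1 := lintegral_eq_lintegral_meas_lt κ (f := fun x => max (g x) 0)
    (Eventually.of_forall fun x => le_max_right _ _) (hg.max measurable_const).aemeasurable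
  have h2 : ∀ x, ENNReal.ofReal (max (g x) 0) = ENNReal.ofReal (g x) := fun x => by
    rw [ENNReal.ofReal_max, ENNReal.ofReal_zero, max_eq_left zero_le]
  simp only [h2] at h1
  rw [h1]
  refine setLIntegral_congr_fun measurableSet_Ioi fun t ht => ?_
  have h3 : {x | t < max (g x) 0} = {x | t < g x} := by
    ext x
    rw [mem_ofPred_eq, mem_ofPred_eq, lt_max_iff]
    exact ⟨fun h => h.elim id fun h => absurd h (not_lt.2 (le_of_lt ht)), Or.inl⟩
  rw [h3]

theorem layer_le (κ : Measure X) {g : X → ℝ} (hg : Measurable g) {μ : Measure X} {K : ℝ≥0∞}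
    (hK : K ≠ ⊤)
    (h : ∀ E : Set X, MeasurableSet E → κ E ≤ K * μ E ^ (1 / ((d : ℝ) - 2))) :
    ∫⁻ x, ENNReal.ofReal (g x) ∂κ ≤ K * Lor d μ g := by
  rw [layer κ hg, Lor, ← lintegral_const_mul' _ _ hK]
  exact lintegral_mono fun t => h _ (measurableSet_lt measurable_const hg)

/-- the potentials of sets, at the scale `s` -/
theorem lor_scale [SecondCountableTopology X] (hF : Continuous F) (hPm : Measurable P)
    (ν μ : Measure X) [IsFiniteMeasure ν] [IsFiniteMeasure μ] {A ρ C s₀ D δ s : ℝ}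
    (hC : 0 < C) (hA : 0 ≤ A) (hD : 0 ≤ D)
    (hpush : ∀ (x : X) (s : ℝ), 0 < s → s ≤ s₀ → ∀ g : X → ℝ≥0∞, Measurable g →
      ENNReal.ofReal (s ^ d) * ∫⁻ ξ in Metric.closedBall (0 : E m) s, g (P (F x - ξ)) ≤
        ENNReal.ofReal (C * s ^ m) * ∫⁻ y in FB F x (C * s), g y ∂μ)
    (hμ : ∀ t : ℝ, 0 ≤ t → t < ρ → ∀ x, μ (FB F x t) ≤ ENNReal.ofReal (A * t ^ d))
    (hν : Dens F ν D) (hs : 0 < s) (hδ : 0 < δ) (hsδ : s * δ ≤ s₀) (hsρ : C * (s * δ) < ρ)
    {S : Set X} (hS : MeasurableSet S) :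
    (∫⁻ ξ in Metric.closedBall (0 : E m) δ,
      ∫⁻ x, S.indicator (fun _ => (1 : ℝ≥0∞)) (P (F x - s • ξ)) ∂ν ≤
        ENNReal.ofReal (C * δ ^ m * (A * C ^ d)) * ν univ) ∧
    (∫⁻ ξ in Metric.closedBall (0 : E m) δ,
      ∫⁻ x, S.indicator (fun _ => (1 : ℝ≥0∞)) (P (F x - s • ξ)) ∂ν ≤
        ENNReal.ofReal (C * δ ^ m * ((δ ^ d)⁻¹ * (D * (C * δ) ^ 2)) * s ^ (-((d : ℝ) - 2))) *
          (ν univ * μ S)) := by
  obtain ⟨g, hgdef⟩ : ∃ g : X → ℝ≥0∞, g = S.indicator fun _ => (1 : ℝ≥0∞) := ⟨_, rfl⟩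
  have hg : Measurable g := by
    rw [hgdef]
    exact measurable_const.indicator hS
  have hg1 : ∀ y, g y ≤ 1 := fun y => by
    rw [hgdef]
    exact indicator_le_self' (fun _ _ => zero_le) y
  have hgS : ∫⁻ y, g y ∂μ = μ S := by
    rw [hgdef, lintegral_indicator hS, setLIntegral_one]
  rw [← hgdef]
  have hsw : ∫⁻ ξ in Metric.closedBall (0 : E m) δ, ∫⁻ x, g (P (F x - s • ξ)) ∂ν =
      ∫⁻ x, (∫⁻ ξ in Metric.closedBall (0 : E m) δ, g (P (F x - s • ξ))) ∂ν := by
    refine lintegral_lintegral_swap ?_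
    refine Measurable.aemeasurable ?_
    refine hg.comp (hPm.comp ?_)
    have hc : Continuous fun q : E m × X => F q.2 - s • q.1 :=
      (hF.comp continuous_snd).sub (continuous_fst.const_smul s)
    exact hc.measurable
  have hsc : ∀ x, ∫⁻ ξ in Metric.closedBall (0 : E m) δ, g (P (F x - s • ξ)) =
      ENNReal.ofReal ((s ^ m)⁻¹) *
        ∫⁻ η in Metric.closedBall (0 : E m) (s * δ), g (P (F x - η)) := fun x =>
    scale_ball (g := fun η => g (P (F x - η)))
      (hg.comp (hPm.comp (continuous_const.sub continuous_id).measurable)) hs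
  obtain ⟨t, ht⟩ : ∃ t, t = s * δ := ⟨_, rfl⟩
  have ht0 : 0 < t := by rw [ht]; positivity
  rw [← ht] at hsδ hsρ
  simp only [← ht] at hsc
  have hin : ∀ x, ∫⁻ η in Metric.closedBall (0 : E m) t, g (P (F x - η)) ≤
      ENNReal.ofReal ((t ^ d)⁻¹ * (C * t ^ m)) * ∫⁻ y in FB F x (C * t), g y ∂μ := by
    intro x
    have h3 : ENNReal.ofReal ((t ^ d)⁻¹) * ENNReal.ofReal (t ^ d) = 1 := by
      rw [← ENNReal.ofReal_mul (by positivity), inv_mul_cancel₀ (by positivity),
        ENNReal.ofReal_one]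
    calc ∫⁻ η in Metric.closedBall (0 : E m) t, g (P (F x - η))
        = ENNReal.ofReal ((t ^ d)⁻¹) * (ENNReal.ofReal (t ^ d) *
          ∫⁻ η in Metric.closedBall (0 : E m) t, g (P (F x - η))) := by
          rw [← mul_assoc, h3, one_mul]
      _ ≤ ENNReal.ofReal ((t ^ d)⁻¹) * (ENNReal.ofReal (C * t ^ m) *
          ∫⁻ y in FB F x (C * t), g y ∂μ) := mul_le_mul_right (hpush x t ht0 hsδ g hg) _
      _ = _ := by
          rw [ENNReal.ofReal_mul (p := (t ^ d)⁻¹) (by positivity), mul_assoc]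
  obtain ⟨Z, hZ⟩ : ∃ Z, Z = ∫⁻ x, ∫⁻ y in FB F x (C * t), g y ∂μ ∂ν := ⟨_, rfl⟩
  have hall : ∫⁻ ξ in Metric.closedBall (0 : E m) δ, ∫⁻ x, g (P (F x - s • ξ)) ∂ν ≤
      ENNReal.ofReal ((s ^ m)⁻¹ * ((t ^ d)⁻¹ * (C * t ^ m))) * Z := by
    rw [hsw]
    simp only [hsc]
    rw [lintegral_const_mul' _ _ ENNReal.ofReal_ne_top]
    calc _ ≤ ENNReal.ofReal ((s ^ m)⁻¹) *
          ∫⁻ x, ENNReal.ofReal ((t ^ d)⁻¹ * (C * t ^ m)) *
            ∫⁻ y in FB F x (C * t), g y ∂μ ∂ν :=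
          mul_le_mul_right (lintegral_mono hin) _
      _ = _ := by
          rw [lintegral_const_mul' _ _ ENNReal.ofReal_ne_top, ← mul_assoc, hZ,
            ← ENNReal.ofReal_mul (by positivity)]
  have hZ1 : Z ≤ ENNReal.ofReal (A * (C * t) ^ d) * ν univ := by
    rw [hZ]
    calc _ ≤ ∫⁻ x, ENNReal.ofReal (A * (C * t) ^ d) ∂ν := by
          refine lintegral_mono fun x => ?_
          calc ∫⁻ y in FB F x (C * t), g y ∂μ ≤ ∫⁻ y in FB F x (C * t), 1 ∂μ :=
                lintegral_mono fun y => hg1 y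
            _ = μ (FB F x (C * t)) := by rw [setLIntegral_one]
            _ ≤ _ := hμ _ (by positivity) hsρ x
      _ = _ := by rw [lintegral_const]
  have hZ2 : Z ≤ ENNReal.ofReal (D * (C * t) ^ 2) * (ν univ * μ S) := by
    rw [hZ, tonelli_FB hF ν μ _ hg]
    calc _ ≤ ∫⁻ y, g y * (ENNReal.ofReal (D * (C * t) ^ 2) * ν univ) ∂μ :=
          lintegral_mono fun y => mul_le_mul_right (hν y _ (by positivity)) _
      _ = (∫⁻ y, g y ∂μ) * (ENNReal.ofReal (D * (C * t) ^ 2) * ν univ) :=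
          lintegral_mul_const _ hg
      _ = _ := by
          rw [hgS]
          ring
  have hsm : (s ^ m)⁻¹ * s ^ m = 1 := inv_mul_cancel₀ (by positivity)
  have htd : (t ^ d)⁻¹ * t ^ d = 1 := inv_mul_cancel₀ (by positivity)
  constructor
  · refine hall.trans ((mul_le_mul_right hZ1 _).trans (le_of_eq ?_))
    rw [← mul_assoc, ← ENNReal.ofReal_mul (by positivity)]
    congr 2
    rw [mul_pow C t d]
    calc (s ^ m)⁻¹ * ((t ^ d)⁻¹ * (C * t ^ m)) * (A * (C ^ d * t ^ d)) =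
          ((t ^ d)⁻¹ * t ^ d) * ((s ^ m)⁻¹ * t ^ m) * (C * (A * C ^ d)) := by ring
      _ = _ := by
          rw [htd, ht, mul_pow, ← mul_assoc ((s ^ m)⁻¹), hsm]
          ring
  · refine hall.trans ((mul_le_mul_right hZ2 _).trans (le_of_eq ?_))
    rw [← mul_assoc, ← ENNReal.ofReal_mul (by positivity)]
    congr 2
    have e1 : s ^ (-((d : ℝ) - 2)) = (s ^ d)⁻¹ * s ^ 2 := by
      rw [← Real.rpow_natCast s d, ← Real.rpow_natCast s 2, ← Real.rpow_neg hs.le,
        ← Real.rpow_add hs]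
      congr 1
      push_cast
      ring
    rw [e1, ht, mul_pow s δ d, mul_pow s δ m, mul_inv]
    calc (s ^ m)⁻¹ * ((s ^ d)⁻¹ * (δ ^ d)⁻¹ * (C * (s ^ m * δ ^ m))) *
          (D * (C * (s * δ)) ^ 2) =
          ((s ^ m)⁻¹ * s ^ m) * ((s ^ d)⁻¹ * (δ ^ d)⁻¹ * (C * δ ^ m) *
          (D * (C * (s * δ)) ^ 2)) := by ring
      _ = _ := by
          rw [hsm]
          ring

/-- the distribution of the translates -/
theorem iter_map [SecondCountableTopology X] (hF : Continuous F) (hPm : Measurable P)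
    (ν : Measure X) [IsFiniteMeasure ν] (δ : ℝ) :
    ∃ κ : Measure X, ∀ g : X → ℝ≥0∞, Measurable g → ∫⁻ x, g x ∂κ =
      ∫⁻ ξ in Metric.closedBall (0 : E m) δ, ∫⁻ s in Ioc (0 : ℝ) 1,
        ∫⁻ x, g (P (F x - s • ξ)) ∂ν := by
  have hΦ : Measurable fun q : E m × ℝ × X => P (F q.2.2 - q.2.1 • q.1) := by
    refine hPm.comp ?_
    have hc : Continuous fun q : E m × ℝ × X => F q.2.2 - q.2.1 • q.1 :=
      (hF.comp (continuous_snd.comp continuous_snd)).sub
        ((continuous_fst.comp continuous_snd).smul continuous_fst)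
    exact hc.measurable
  refine ⟨Measure.map (fun q : E m × ℝ × X => P (F q.2.2 - q.2.1 • q.1))
    ((volume.restrict (Metric.closedBall (0 : E m) δ)).prod
      ((volume.restrict (Ioc (0 : ℝ) 1)).prod ν)), fun g hg => ?_⟩
  have hG : Measurable fun q : E m × ℝ × X => g (P (F q.2.2 - q.2.1 • q.1)) := hg.comp hΦ
  rw [lintegral_map hg hΦ, lintegral_prod _ hG.aemeasurable]
  refine lintegral_congr fun ξ => ?_
  have hG' : Measurable fun q : ℝ × X => g (P (F q.2 - q.1 • ξ)) :=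
    hG.comp (measurable_prodMk_left (x := ξ))
  rw [lintegral_prod _ hG'.aemeasurable]

theorem lor_pot [SecondCountableTopology X] (hd : 4 ≤ d) (h : Ret (d := d) F P r)
    (hF : ContMDiff (𝓡 d) (𝓡 m) ∞ F) (hFi : Function.Injective F)
    (hFd : ∀ x, Function.Injective (mfderiv (𝓡 d) (𝓡 m) F x)) (hPm : Measurable P)
    [IsFiniteMeasure (area d F)] {A ρ : ℝ} (hρ : 0 < ρ) (hA : 0 ≤ A)
    (hμ : ∀ t : ℝ, 0 ≤ t → t < ρ → ∀ x, area d F (FB F x t) ≤ ENNReal.ofReal (A * t ^ d))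
    {D : ℝ} (hD : 0 ≤ D) :
    ∃ s₁ : ℝ, 0 < s₁ ∧ ∀ δ : ℝ, 0 < δ → δ ≤ s₁ →
      (∃ C' : ℝ, 0 ≤ C' ∧ ∀ (ν : Measure X) [IsFiniteMeasure ν],
        Dens F ν D → ∀ g : X → ℝ, Measurable g →
        ∫⁻ ξ in Metric.closedBall (0 : E m) δ, ∫⁻ s in Ioc (0 : ℝ) 1,
          ∫⁻ x, ENNReal.ofReal (g (P (F x - s • ξ))) ∂ν ≤
          ENNReal.ofReal C' * (Lor d (area d F) g * ν univ)) ∧
      ∃ C' : ℝ, 0 ≤ C' ∧ ∀ g : X → ℝ, Measurable g → ∀ x,
        ∫⁻ ξ in Metric.closedBall (0 : E m) δ, ENNReal.ofReal (g (P (F x - ξ))) ≤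
          ENNReal.ofReal C' * Lor d (area d F) g := by
  have hd' : (4 : ℝ) ≤ d := by exact_mod_cast hd
  obtain ⟨k, hk⟩ : ∃ k, k = (d : ℝ) - 2 := ⟨_, rfl⟩
  have hk1 : 1 < k := by rw [hk]; linarith
  obtain ⟨C, s₀, hC, hs₀, hpush⟩ := push_est h hF hFi hFd hPm
  refine ⟨min s₀ (ρ / (2 * C)), lt_min hs₀ (by positivity), fun δ hδ hδs => ⟨?_, ?_⟩⟩
  · obtain ⟨K₁, hK₁⟩ : ∃ K₁, K₁ = C * δ ^ m * (A * C ^ d) := ⟨_, rfl⟩
    obtain ⟨K₂, hK₂⟩ : ∃ K₂, K₂ = C * δ ^ m * ((δ ^ d)⁻¹ * (D * (C * δ) ^ 2)) := ⟨_, rfl⟩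
    have hK₁0 : 0 ≤ K₁ := by rw [hK₁]; positivity
    have hK₂0 : 0 ≤ K₂ := by rw [hK₂]; positivity
    refine ⟨K₁ + K₂ / (k - 1), add_nonneg hK₁0 (div_nonneg hK₂0 (by linarith)), ?_⟩
    intro ν _ hν g hg
    obtain ⟨N, hN⟩ : ∃ N, N = (ν univ).toReal := ⟨_, rfl⟩
    have hN0 : 0 ≤ N := by rw [hN]; exact ENNReal.toReal_nonneg
    have hNe : ν univ = ENNReal.ofReal N := by
      rw [hN, ENNReal.ofReal_toReal (measure_ne_top ν univ)]
    obtain ⟨κ, hκ⟩ := iter_map (m := m) hF.continuous hPm ν δ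
    have hset : ∀ S : Set X, MeasurableSet S → κ S ≤
        (ENNReal.ofReal (K₁ + K₂ / (k - 1)) * ν univ) *
          area d F S ^ (1 / ((d : ℝ) - 2)) := by
      intro S hS
      have h1 := hκ (S.indicator fun _ => (1 : ℝ≥0∞)) (measurable_const.indicator hS)
      rw [lintegral_indicator hS, setLIntegral_one] at h1
      rw [h1, lintegral_lintegral_swap]
      · refine (split_int hk1 (K₁ := K₁ * N) (K₂ := K₂ * N) (mul_nonneg hK₁0 hN0)
          (mul_nonneg hK₂0 hN0) (measure_ne_top (area d F) S) ?_ ?_).trans (le_of_eq ?_)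
        · intro s hs
          have hsδ : s * δ ≤ δ := mul_le_of_le_one_left hδ.le hs.2
          have hsρ : C * (s * δ) < ρ := by
            have h1 := (hsδ.trans hδs).trans (min_le_right _ _)
            rw [le_div_iff₀ (by positivity)] at h1
            nlinarith [mul_pos hs.1 hδ]
          have h2 := (lor_scale (m := m) (P := P) hF.continuous hPm ν (area d F) hC hA hD hpush hμ
            hν hs.1 hδ ((hsδ.trans hδs).trans (min_le_left _ _)) hsρ hS).1
          rw [← hK₁, hNe, ← ENNReal.ofReal_mul hK₁0] at h2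
          exact h2
        · intro s hs
          have hsδ : s * δ ≤ δ := mul_le_of_le_one_left hδ.le hs.2
          have hsρ : C * (s * δ) < ρ := by
            have h1 := (hsδ.trans hδs).trans (min_le_right _ _)
            rw [le_div_iff₀ (by positivity)] at h1
            nlinarith [mul_pos hs.1 hδ]
          have h2 := (lor_scale (m := m) (P := P) hF.continuous hPm ν (area d F) hC hA hD hpush hμ
            hν hs.1 hδ ((hsδ.trans hδs).trans (min_le_left _ _)) hsρ hS).2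
          refine h2.trans (le_of_eq ?_)
          rw [← hK₂, ← hk, hNe, ← mul_assoc,
            ← ENNReal.ofReal_mul (mul_nonneg hK₂0 (Real.rpow_nonneg hs.1.le _))]
          congr 2
          ring
        · rw [← hk, hNe, ← ENNReal.ofReal_mul (add_nonneg hK₁0 (div_nonneg hK₂0 (by linarith)))]
          congr 2
          ring
      · have hmeas : Measurable fun q : (E m × ℝ) × X =>
            S.indicator (fun _ => (1 : ℝ≥0∞)) (P (F q.2 - q.1.2 • q.1.1)) := by
          refine (measurable_const.indicator hS).comp (hPm.comp ?_)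
          exact ((hF.continuous.comp continuous_snd).sub
            ((continuous_snd.comp continuous_fst).smul
              (continuous_fst.comp continuous_fst))).measurable
        exact hmeas.lintegral_prod_right'.aemeasurable
    have h3 := layer_le (d := d) κ hg
      (ENNReal.mul_ne_top ENNReal.ofReal_ne_top (measure_ne_top ν univ)) hset
    rw [hκ _ hg.ennreal_ofReal] at h3
    refine h3.trans (le_of_eq ?_)
    ring
  · obtain ⟨a, ha⟩ : ∃ a : ℝ≥0∞, a = (area d F univ) ^ (1 - 1 / k) := ⟨_, rfl⟩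
    have h1k : 0 ≤ 1 - 1 / k := by
      rw [sub_nonneg, div_le_one (by linarith)]
      exact hk1.le
    have hatop : a ≠ ⊤ := by
      rw [ha]
      exact ENNReal.rpow_ne_top_of_nonneg h1k (measure_ne_top _ _)
    have hset : ∀ S : Set X, MeasurableSet S → area d F S ≤
        a * area d F S ^ (1 / ((d : ℝ) - 2)) := by
      intro S _
      rw [← hk]
      calc area d F S = area d F S ^ (1 - 1 / k) * area d F S ^ (1 / k) := by
            rw [← ENNReal.rpow_add_of_nonneg _ _ h1k (by positivity), sub_add_cancel,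
              ENNReal.rpow_one]
        _ ≤ _ := by
            refine mul_le_mul_left ?_ _
            rw [ha]
            exact ENNReal.rpow_le_rpow (measure_mono (subset_univ _)) h1k
    refine ⟨(δ ^ d)⁻¹ * (C * δ ^ m) * a.toReal, by positivity, fun g hg x => ?_⟩
    have h2 := layer_le (d := d) (area d F) hg hatop hset
    have h3 : ENNReal.ofReal ((δ ^ d)⁻¹) * ENNReal.ofReal (δ ^ d) = 1 := by
      rw [← ENNReal.ofReal_mul (by positivity), inv_mul_cancel₀ (by positivity),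
        ENNReal.ofReal_one]
    calc ∫⁻ ξ in Metric.closedBall (0 : E m) δ, ENNReal.ofReal (g (P (F x - ξ)))
        = ENNReal.ofReal ((δ ^ d)⁻¹) * (ENNReal.ofReal (δ ^ d) *
          ∫⁻ ξ in Metric.closedBall (0 : E m) δ, ENNReal.ofReal (g (P (F x - ξ)))) := by
          rw [← mul_assoc, h3, one_mul]
      _ ≤ ENNReal.ofReal ((δ ^ d)⁻¹) * (ENNReal.ofReal (C * δ ^ m) *
          (a * Lor d (area d F) g)) := by
          refine mul_le_mul_right ((hpush x δ hδ (hδs.trans (min_le_left _ _))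
            (fun y => ENNReal.ofReal (g y)) hg.ennreal_ofReal).trans
            (mul_le_mul_right ((setLIntegral_le_lintegral _ _).trans h2) _)) _
      _ = (ENNReal.ofReal ((δ ^ d)⁻¹) * (ENNReal.ofReal (C * δ ^ m) * a)) *
          Lor d (area d F) g := by ring
      _ = _ := by
          rw [ENNReal.ofReal_mul (q := a.toReal) (by positivity), ENNReal.ofReal_toReal hatop,
            ENNReal.ofReal_mul (q := C * δ ^ m) (by positivity)]
          ring

end

end Pool.Agent.H33.CD
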