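import Pool.Agent.H33.CD.MainD
import Pool.Agent.H33.CD.Lor

/-!
# Taming forms whose exterior derivative is small in the critical Lorentz space
-/

set_option autoImplicit false
set_option linter.unusedSectionVars false
set_option linter.unusedVariables false

open Set Filter Topology MeasureTheory Function
open scoped Manifold ContDiff RealInnerProductSpace Convolution ENNReal NNReal

noncomputable section

namespace Pool.Agent.H33.CD

open Pool.Agent.Y501.SY Pool.Agent.Y455.SY Pool.Agent.H33.TM Pool.Agent.Q235.SZ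

section

variable {d m : ℕ} {X : Type} [TopologicalSpace X] [ChartedSpace (E d) X]
  [IsManifold (𝓡 d) ∞ X] [CompactSpace X]
  {F : X → E m} {P : E m → X} {r : ℝ} {χ : E m → ℝ} {B : ℝ} {φ : E m → ℝ} {δ L : ℝ}

theorem main_lor (hd : 4 ≤ d) [T2Space X] [MeasurableSpace X] [BorelSpace X]
    (hF : ContMDiff (𝓡 d) (𝓡 m) ∞ F) (hFi : Function.Injective F)
    (hFd : ∀ x, Function.Injective (mfderiv (𝓡 d) (𝓡 m) F x)) {J : End d X}
    (hJ : IsAlmostComplex J) (hol : LocHol J) :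
    ∃ ε : ℝ, 0 < ε ∧ ∀ (σ : Form d X 2) (ρ : Form d X 3) (g : X → ℝ), IsSmooth σ → IsD σ ρ →
      Measurable g → Bd3 F ρ g →
      Lor d (area d F) g ≤ ENNReal.ofReal ε →
      ∀ (ι : Type) (x : ι → X) (r B : ι → ℝ), (∀ i, 0 < r i) → (∀ i, 0 ≤ B i) →
      (∀ s : Finset ι, ∑ i ∈ s, (1 + B i) * r i ^ 2 ≤ ε) →
      (∀ y, (∀ v : TangentSpace (𝓡 d) y, nm F y v ^ 2 ≤ σ y ![v, J y v]) ∨
        ∃ i, ‖F y - F (x i)‖ < r i ∧
          ∀ v : TangentSpace (𝓡 d) y, -B i * nm F y v ^ 2 ≤ σ y ![v, J y v]) →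
      ∃ τ : Form d X 2, IsSmooth τ ∧ IsClosedForm τ ∧ ∀ y, TamesAt τ J y := by
  by_cases hun : ∃ σ : Form d X 2, IsSmooth σ ∧ IsClosedForm σ ∧ ∀ y, TamesAt σ J y
  · exact ⟨1, one_pos, fun _ _ _ _ _ _ _ _ _ _ _ _ _ _ _ _ => hun⟩
  rcases isEmpty_or_nonempty X with hX | hX
  · exact absurd ⟨0, IsSmooth.zero, IsD.zero, fun y => hX.elim y⟩ hun
  have hsc := sec_count hF.continuous hFi
  obtain ⟨P, R, hret, hPm⟩ := exists_ret_meas hF hFi hFd
  obtain ⟨χ, B, h⟩ := exists_dat hret hF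
  obtain ⟨ν, T, b, hS⟩ := exists_SM h hFi hFd hJ hun
  obtain ⟨D, hD, hdens⟩ := SM_dens h hFi hFd hJ hol hS
  obtain ⟨Ccr, hCcr, hcr⟩ := closed_range h
  have hfin := hS.fin
  obtain ⟨t, rr, hat⟩ := exists_atl hF hFi hFd
  have hareafin : IsFiniteMeasure (area d F) := ⟨area_finite hF.continuous hFi hat⟩
  obtain ⟨ρ₀, A, hρ₀, hA, harea⟩ := area_unif hF.continuous hFi hat
  obtain ⟨s₀, hs₀, hpot⟩ := lor_pot hd hret hF hFi hFd hPm hρ₀ hA.le harea hD
  obtain ⟨δ, hδ⟩ : ∃ δ, δ = min s₀ (R / 4) := ⟨_, rfl⟩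
  have hRpos := hret.pos
  have hδ0 : 0 < δ := by rw [hδ]; exact lt_min hs₀ (by linarith)
  have hδs : δ ≤ s₀ := by rw [hδ]; exact min_le_left _ _
  have hδR : δ < R / 2 := by
    have : δ ≤ R / 4 := by rw [hδ]; exact min_le_right _ _
    linarith
  obtain ⟨φ, L, K⟩ := exists_kern m hδ0
  obtain ⟨⟨C₂, hC₂, hpot2⟩, C₁, hC₁, hpot3⟩ := hpot δ hδ0 hδs
  have hL := kern_L K
  have hB := h.B1
  have hb := hS.b0
  obtain ⟨N, hN⟩ : ∃ N, N = (ν univ).toReal := ⟨_, rfl⟩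
  have hN0 : 0 < N := by
    rw [hN]
    exact ENNReal.toReal_pos hS.ne (measure_ne_top _ _)
  have hNe : ν univ = ENNReal.ofReal N := by
    rw [hN, ENNReal.ofReal_toReal (measure_ne_top ν univ)]
  obtain ⟨Q, hQ⟩ : ∃ Q, Q = ‖T‖ * (Ccr * (B ^ 3 * (L * B ^ 3 * C₁))) +
    L * (b * (B ^ 2 * (B ^ 3 * δ))) * (C₂ * N) := ⟨_, rfl⟩
  have hQ0 : 0 ≤ Q := by rw [hQ]; positivity
  obtain ⟨η, hη⟩ : ∃ η, η = N / (8 * (Q + 1)) := ⟨_, rfl⟩
  have hη0 : 0 < η := by rw [hη]; positivity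
  refine ⟨min η (1 / (4 * (D + 1))), lt_min hη0 (by positivity), ?_⟩
  intro σ ρ g hσ hρ hgm hg hgint ι x r' B' hr hB' hsum hpos
  exfalso
  obtain ⟨f, hf⟩ : ∃ f, f = mk hret hF hσ := ⟨_, rfl⟩
  have hrep : Rep F P f σ := by
    rw [hf]
    exact mk_rep hret hF hσ
  obtain ⟨G, hG⟩ : ∃ G, G = Lor d (area d F) g := ⟨_, rfl⟩
  have hGη : G ≤ ENNReal.ofReal η := by
    rw [hG]
    exact hgint.trans (ENNReal.ofReal_le_ofReal (min_le_left _ _))
  have hgm' : Measurable fun y => ENNReal.ofReal (g y) := hgm.ennreal_ofReal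
  -- first estimate
  have h1 := est1 h K hδR hCcr hcr T hS.kill hrep hσ hρ hg (M := C₁ * η) (by positivity) fun x => by
    refine (hpot3 _ hgm x).trans ?_
    rw [ENNReal.ofReal_mul hC₁, ← hG]
    exact mul_le_mul_right hGη _
  -- second estimate
  have h2 := est3 h K hδR hS hrep hσ hρ hg
  have h3 := h2.trans (mul_le_mul_right (hpot2 ν hdens _ hgm) _)
  rw [← hG, hNe] at h3
  have h4 : ENNReal.ofReal |T (Sm h K f) - T f| ≤
      ENNReal.ofReal (L * (b * (B ^ 2 * (B ^ 3 * δ))) * (C₂ * (η * N))) := by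
    refine h3.trans ?_
    rw [ENNReal.ofReal_mul (q := C₂ * (η * N)) (by positivity),
      ENNReal.ofReal_mul (q := η * N) hC₂, ENNReal.ofReal_mul (q := N) hη0.le]
    exact mul_le_mul_right (mul_le_mul_right (mul_le_mul_left hGη _) _) _
  have h5 : |T (Sm h K f) - T f| ≤ L * (b * (B ^ 2 * (B ^ 3 * δ))) * (C₂ * (η * N)) :=
    (ENNReal.ofReal_le_ofReal_iff (by positivity)).1 h4
  have h6 : |T f| ≤ Q * η := by
    have h7 : |T f| ≤ |T (Sm h K f)| + |T (Sm h K f) - T f| := by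
      have := abs_sub (T (Sm h K f)) (T (Sm h K f) - T f)
      rwa [sub_sub_cancel] at this
    refine (h7.trans (add_le_add h1 h5)).trans (le_of_eq ?_)
    rw [hQ]
    ring
  have h8 : Q * η < N / 4 := by
    rw [hη, mul_div_assoc', div_lt_div_iff₀ (by positivity) (by norm_num)]
    nlinarith
  have h9 := low_est h hFd hJ hS hD hdens hσ hrep hr hB' hsum hpos
  rw [← hN] at h9
  have h10 : D * min η (1 / (4 * (D + 1))) ≤ 1 / 4 := by
    refine (mul_le_mul_of_nonneg_left (min_le_right _ _) hD).trans ?_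
    rw [mul_one_div, div_le_div_iff₀ (by positivity) (by norm_num)]
    linarith
  have h11 := le_abs_self (T f)
  nlinarith

end

end Pool.Agent.H33.CD
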