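import Pool.Agent.H33.CD.BriD
import Pool.Agent.H33.CD.MainL

/-!
Taming forms whose exterior derivative is small in the critical Lorentz space: the public
definition and the comparison.
-/

set_option autoImplicit false

open Set Filter Topology MeasureTheory
open scoped Manifold ContDiff ENNReal

noncomputable section

namespace Pool.Agent.H33.CDP

open Pool.Agent.Y501.SYP Pool.Agent.Q235.SQP Pool.Agent.H33.TMP

/-- The Lorentz norm of the function `g` with the exponents `d - 2` and `1`: the integral over all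
`t > 0` of the power `1 / (d - 2)` of the measure of the set on which `g > t`. -/
def lorentz {X : Type} [MeasurableSpace X] (d : ℕ) (μ : Measure X) (g : X → ℝ) : ℝ≥0∞ :=
  ∫⁻ t in Ioi (0 : ℝ), μ {x | t < g x} ^ (1 / ((d : ℝ) - 2))

attribute [local instance] cs mf

section

variable {d m : ℕ} {X : Type} [TopologicalSpace X] [ChartedSpace (ES d) X]
  [IsManifold 𝓘(ℝ, ES d) ∞ X]

theorem defect_lorentz (hd : 4 ≤ d) [CompactSpace X] [T2Space X] [MeasurableSpace X] [BorelSpace X]
    (F : X → ES m) (hF : IsEmb (V := ES d) F) (J : End (ES d) X) (hJ : IsAlmostComplex J)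
    (hol : LocHolder J) :
    ∃ ε : ℝ, 0 < ε ∧ ∀ (σ : Form (ES d) X 2) (g : X → ℝ), Measurable g → DefectLe F σ g →
      lorentz d (areaMeasure d F) g ≤ ENNReal.ofReal ε →
      ∀ (ι : Type) (c : ι → X) (r B : ι → ℝ), SmallBalls ε r B → TamesOffBalls F J σ c r B →
      ∃ w : Form (ES d) X 2, IsTamingSymplectic w J := by
  obtain ⟨ε, hε, h⟩ := Pool.Agent.H33.CD.main_lor (d := d) (m := m) (X := X) hd
    (F := F) hF.smooth hF.inj hF.immersion (ac_of J hJ) hol
  refine ⟨ε, hε, fun σ g hg hσ hint ι c r B hb ht => ?_⟩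
  obtain ⟨ρ, h1, h2⟩ := hσ.bound
  obtain ⟨τ, t1, t2, t3⟩ := h σ ρ g ((smooth_iff _).1 hσ.smooth) ((isD_iff _ _).1 h1) hg h2 hint
    ι c r B hb.pos hb.nonneg hb.sum ht
  exact ⟨τ, symp_of ((smooth_iff τ).2 t1) ((closed_iff τ).2 t2) t3⟩

end

end Pool.Agent.H33.CDP
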