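import Pool.Agent.H33.CD.AA

/-!
# The smoothing operator
-/

set_option autoImplicit false
set_option linter.unusedSectionVars false
set_option linter.unusedVariables false

open Set Filter Topology MeasureTheory Function
open scoped Manifold ContDiff RealInnerProductSpace Convolution

noncomputable section

namespace Pool.Agent.H33.CD

open Pool.Agent.Y501.SY Pool.Agent.Y455.SY

section

variable {d m : ℕ} {X : Type} [TopologicalSpace X] [ChartedSpace (E d) X]
  [IsManifold (𝓡 d) ∞ X] [CompactSpace X]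
  {F : X → E m} {P : E m → X} {r : ℝ} {χ : E m → ℝ} {B : ℝ} {φ : E m → ℝ} {δ L : ℝ}

/-- the smoothing operator -/
def Sm (h : Dat (d := d) F P r χ B) (K : Kern φ δ L) (f : C(X, Aw m)) : C(X, Aw m) :=
  rs h (conv φ (ext F P χ f)) (conv_smooth K (ext_cont h f)).continuous

theorem Sm_rep (h : Dat (d := d) F P r χ B) (K : Kern φ δ L) (f : C(X, Aw m)) :
    Rep F P (Sm h K f) (FS (d := d) F (conv φ (ext F P χ f))) := rs_rep _ _

theorem Sm_smooth (h : Dat (d := d) F P r χ B) (K : Kern φ δ L) (f : C(X, Aw m)) :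
    IsSmooth (FS (d := d) F (conv φ (ext F P χ f))) :=
  FS_smooth h.sm (conv_smooth K (ext_cont h f))

theorem Sm_D (h : Dat (d := d) F P r χ B) (K : Kern φ δ L) (f : C(X, Aw m)) :
    IsD (FS (d := d) F (conv φ (ext F P χ f)))
      (FS F (extDeriv (conv φ (ext F P χ f)))) :=
  FS_D h.sm (conv_smooth K (ext_cont h f))

theorem tube_sub (h : Dat (d := d) F P r χ B) (K : Kern φ δ L) (hδ : δ < r / 2) (x : X)
    {ξ : E m} (hξ : ‖ξ‖ ≤ δ) : F x - ξ ∈ tube F (r / 2) :=
  ⟨x, by rw [sub_sub_cancel_left, norm_neg]; linarith⟩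

/-- the exterior derivative of the smoothed form -/
theorem Sm_extDeriv (h : Dat (d := d) F P r χ B) (K : Kern φ δ L) (hδ : δ < r / 2)
    {f : C(X, Aw m)} {σ : Form d X 2} {ρ : Form d X 3} (hf : Rep F P f σ) (hσ : IsSmooth σ)
    (hρ : IsD σ ρ) (x : X) :
    extDeriv (conv φ (ext F P χ f)) (F x) = conv φ (PB P ρ) (F x) := by
  rw [conv_extDeriv K (ext_smooth h hf hσ) (ext_supp h f)]
  unfold conv
  refine integral_congr_ae (Eventually.of_forall fun ξ => ?_)
  by_cases hξ : φ ξ = 0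
  · simp only [hξ, zero_smul]
  · simp only
    rw [ext_D h hf hσ hρ (tube_sub h K hδ x (K.supp ξ hξ))]

theorem tube_bound (h : Dat (d := d) F P r χ B) {ρ : Form d X 3} {M : ℝ} (hM0 : 0 ≤ M)
    (hM : ∀ x, ‖PB P ρ (F x)‖ ≤ M) {w : E m} (hw : w ∈ tube F (r / 2)) :
    ‖PB P ρ w‖ ≤ B ^ 3 * M := by
  have hr := h.ret.pos
  have hw' : w ∈ tube F r := by
    obtain ⟨x, hx⟩ := hw
    exact ⟨x, by linarith⟩
  have hws : w ∈ tsupport χ := by
    refine subset_tsupport _ ?_
    rw [mem_support, h.one w hw]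
    exact one_ne_zero
  rw [PB_eq h.ret h.sm ρ hw']
  refine (comp_norm _ _).trans ?_
  rw [mul_comm]
  exact mul_le_mul (pow_le_pow_left₀ (norm_nonneg _) (h.bd w hws) 3) (hM _) (norm_nonneg _)
    (pow_nonneg (zero_le_one.trans h.B1) _)

theorem Sm_bound (h : Dat (d := d) F P r χ B) (K : Kern φ δ L) (hδ : δ < r / 2)
    {f : C(X, Aw m)} {σ : Form d X 2} {ρ : Form d X 3} (hf : Rep F P f σ) (hσ : IsSmooth σ)
    (hρ : IsD σ ρ) {M : ℝ} (hM : ∀ w ∈ tube F (r / 2), ‖PB P ρ w‖ ≤ M) (x : X) :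
    ‖PB P (FS (d := d) F (extDeriv (conv φ (ext F P χ f)))) (F x)‖ ≤ B ^ 3 * M := by
  have h1 : ‖extDeriv (conv φ (ext F P χ f)) (F x)‖ ≤ M := by
    rw [Sm_extDeriv h K hδ hf hσ hρ]
    exact conv_norm K fun ξ hξ => hM _ (tube_sub h K hδ x hξ)
  rw [PB_FS h.ret h.sm]
  refine (comp_norm _ _).trans ?_
  rw [mul_comm]
  exact mul_le_mul (pow_le_pow_left₀ (norm_nonneg _) (h.DQ_le x) 3) h1 (norm_nonneg _)
    (pow_nonneg (zero_le_one.trans h.B1) _)

theorem transl_cont (h : Dat (d := d) F P r χ B) (f : C(X, Aw m)) :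
    Continuous fun q : E m × E m => ext F P χ f (q.2 - q.1) :=
  (ext_cont h f).comp (continuous_snd.sub continuous_fst)

/-- the translates of the extension -/
def trf (h : Dat (d := d) F P r χ B) (f : C(X, Aw m)) : C(E m, C(X, Aw m)) :=
  fam h (fun (ξ : E m) w => ext F P χ f (w - ξ)) (transl_cont h f)

/-- the identity, as a continuous linear map -/
def wrL (m : ℕ) : Al m 2 →L[ℝ] Aw m :=
  LinearMap.mkContinuous { toFun := wr, map_add' := fun _ _ => rfl, map_smul' := fun _ _ => rfl } 1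
    fun a => by rw [one_mul]; rfl

theorem Sm_avg (h : Dat (d := d) F P r χ B) (K : Kern φ δ L) (f : C(X, Aw m)) (x : X) :
    Sm h K f x = ∫ ξ, φ ξ • trf h f ξ x := by
  have h1 : Sm h K f x = wrL m ((ContinuousAlternatingMap.compContinuousLinearMapCLM
      (fderiv ℝ (F ∘ P) (F x)) : Al m 2 →L[ℝ] Al m 2) (conv φ (ext F P χ f) (F x))) := rfl
  rw [h1]
  unfold conv
  have hi : Integrable (fun ξ => φ ξ • ext F P χ f (F x - ξ)) := conv_int K (ext_cont h f) (F x)
  rw [← ContinuousLinearMap.integral_comp_comm _ hi]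
  have hi2 := (ContinuousAlternatingMap.compContinuousLinearMapCLM
      (fderiv ℝ (F ∘ P) (F x)) : Al m 2 →L[ℝ] Al m 2).integrable_comp hi
  rw [← ContinuousLinearMap.integral_comp_comm _ hi2]
  refine integral_congr_ae (Eventually.of_forall fun ξ => ?_)
  simp only [map_smul]
  rfl

theorem trf_hu (h : Dat (d := d) F P r χ B) (f : C(X, Aw m)) (ξ : E m) (x : X) :
    trf h f ξ x = crv F P (ext F P χ f) ξ 1 x := by
  unfold crv
  rw [one_smul]
  rfl

theorem trf_hv (h : Dat (d := d) F P r χ B) {f : C(X, Aw m)} {σ : Form d X 2}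
    (hf : Rep F P f σ) (ξ : E m) (x : X) :
    f x = crv F P (ext F P χ f) ξ 0 x := by
  unfold crv
  rw [zero_smul, sub_zero]
  conv_lhs => rw [← rs_ext h hf]
  rfl

theorem ctr_cont {G : E m → Al m 2} (hG : ContDiff ℝ ∞ G) (ξ η : E m) :
    Continuous fun w => ctr 2 ξ (extDeriv G (w - η)) :=
  (ctr 2 ξ).continuous.comp (shift_cont (extDeriv_smooth hG).continuous η)

/-- the distance of a translate -/
theorem trf_qn (h : Dat (d := d) F P r χ B) (K : Kern φ δ L) (hδ : δ < r / 2)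
    {f : C(X, Aw m)} {σ : Form d X 2} {ρ : Form d X 3} (hf : Rep F P f σ) (hσ : IsSmooth σ)
    (hρ : IsD σ ρ) {M : ℝ} (hM0 : 0 ≤ M) (hM : ∀ w ∈ tube F (r / 2), ‖PB P ρ w‖ ≤ M)
    {ξ : E m} (hξ : ‖ξ‖ ≤ δ) : qn (Zs h) (trf h f ξ - f) ≤ B ^ 2 * (M * δ) := by
  have hG := ext_smooth h hf hσ
  refine curve_qn _ _ _ _ (fun x s => crv_der h hG ξ x s) (trf_hu h f ξ) (trf_hv h hf ξ) _ ?_
  intro s hs
  rw [qn_congr _ (curve_split h hG ξ s (ctr_cont hG ξ (s • ξ)))]
  refine (qn_norm _ _).trans (rs_norm h _ (mul_nonneg hM0 K.pos.le) fun x => ?_)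
  refine (ctr_norm _ _).trans ?_
  have h1 : F x - s • ξ ∈ tube F (r / 2) := tube_sub h K hδ x (by
    rw [norm_smul, Real.norm_eq_abs, abs_of_nonneg hs.1.le]
    exact (mul_le_of_le_one_left (norm_nonneg _) hs.2).trans hξ)
  rw [ext_D h hf hσ hρ h1]
  exact mul_le_mul (hM _ h1) hξ (norm_nonneg _) hM0

theorem Sm_close (h : Dat (d := d) F P r χ B) (K : Kern φ δ L) (hδ : δ < r / 2)
    {f : C(X, Aw m)} {σ : Form d X 2} {ρ : Form d X 3} (hf : Rep F P f σ) (hσ : IsSmooth σ)
    (hρ : IsD σ ρ) {M : ℝ} (hM0 : 0 ≤ M) (hM : ∀ w ∈ tube F (r / 2), ‖PB P ρ w‖ ≤ M) :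
    qn (Zs h) (Sm h K f - f) ≤ B ^ 2 * (M * δ) :=
  avg_qn (μ := volume) K.sm.continuous K.cpt K.nn K.int (trf h f) _ (Sm_avg h K f) _ _
    fun ξ hξ => trf_qn h K hδ hf hσ hρ hM0 hM (K.supp ξ hξ)

/-- continuity of the smoothing operator -/
theorem Sm_cont (h : Dat (d := d) F P r χ B) (K : Kern φ δ L) (f g : C(X, Aw m)) :
    ‖Sm h K f - Sm h K g‖ ≤ B ^ 2 * (B ^ 2 * ‖f - g‖) := by
  refine (ContinuousMap.norm_le _ (by positivity)).2 fun x => ?_
  have e : (Sm h K f - Sm h K g) x = wr (((conv φ (ext F P χ f) (F x)) -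
      conv φ (ext F P χ g) (F x)).compContinuousLinearMap (fderiv ℝ (F ∘ P) (F x))) := rfl
  rw [e, wr_norm]
  refine (comp_le h _ x).trans (mul_le_mul_of_nonneg_left ?_ (by positivity))
  rw [← conv_sub K (ext_cont h f) (ext_cont h g)]
  refine conv_norm K fun ξ _ => ?_
  rw [← ext_sub]
  exact ext_norm h _ _

theorem Sm_norm (h : Dat (d := d) F P r χ B) (K : Kern φ δ L) (f : C(X, Aw m)) :
    ‖Sm h K f‖ ≤ B ^ 2 * (B ^ 2 * ‖f‖) :=
  rs_norm h _ (by positivity) fun x => conv_norm K fun ξ _ => ext_norm h _ _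

/-- composition as a continuous linear map -/
def cmp (g : E m →L[ℝ] E m) : Aw m →L[ℝ] Aw m :=
  LinearMap.mkContinuous
    { toFun := fun a => wr ((un a).compContinuousLinearMap g)
      map_add' := fun _ _ => rfl
      map_smul' := fun _ _ => rfl } (‖g‖ ^ 2) fun a => by
    have h := comp_norm (un a) g
    rw [mul_comm] at h
    exact h

theorem cmp_cont : Continuous (cmp (m := m)) := by
  have h0 : Continuous
      (ContinuousAlternatingMap.compContinuousLinearMapCLM :
        (E m →L[ℝ] E m) → (Al m 2) →L[ℝ] (Al m 2)) :=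
    ContinuousAlternatingMap.continuous_compContinuousLinearMapCLM
  exact h0

/-- equicontinuity -/
theorem Sm_equi (h : Dat (d := d) F P r χ B) (K : Kern φ δ L) (R : ℝ) (x : X) {ε : ℝ}
    (hε : 0 < ε) : ∀ᶠ y in 𝓝 x, ∀ f : C(X, Aw m), ‖f‖ ≤ R →
      ‖Sm h K f y - Sm h K f x‖ < ε := by
  have hB := h.B1
  have hB0 : 0 < B := one_pos.trans_le hB
  obtain ⟨R', hR', hR0⟩ : ∃ R', R ≤ R' ∧ 0 ≤ R' := ⟨max R 0, le_max_left _ _, le_max_right _ _⟩
  obtain ⟨D, hD⟩ : ∃ D : X → Aw m →L[ℝ] Aw m, D = fun y => cmp (fderiv ℝ (F ∘ P) (F y)) :=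
    ⟨_, rfl⟩
  have hcomp : ∀ y, ∀ f : C(X, Aw m), ‖f‖ ≤ R → ‖Sm h K f y - Sm h K f x‖ ≤
      B ^ 2 * (|L| * (B ^ 2 * R') * ‖F y - F x‖) +
        ‖D y - D x‖ * (B ^ 2 * R') := by
    intro y f hf
    obtain ⟨c, hc⟩ : ∃ c, c = conv φ (ext F P χ f) := ⟨_, rfl⟩
    have hcs : ContDiff ℝ ∞ c := by rw [hc]; exact conv_smooth K (ext_cont h f)
    have hfR : ‖f‖ ≤ R' := hf.trans hR'
    have hext : ∀ w, ‖ext F P χ f w‖ ≤ B ^ 2 * R' := fun w => (ext_norm h f w).trans
      (mul_le_mul_of_nonneg_left hfR (by positivity))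
    have hlip : ‖c (F y) - c (F x)‖ ≤ |L| * (B ^ 2 * R') * ‖F y - F x‖ := by
      refine (convex_univ).norm_image_sub_le_of_norm_fderiv_le (𝕜 := ℝ) (fun w _ => ?_)
        (fun w _ => ?_) (mem_univ _) (mem_univ _)
      · exact (hcs.differentiable (by simp)).differentiableAt
      · rw [hc]
        refine (conv_fderiv_norm K (ext_cont h f) hext w).trans ?_
        exact mul_le_mul_of_nonneg_right (le_abs_self L) (by positivity)
    have e : Sm h K f y - Sm h K f x = wr ((c (F y) - c (F x)).compContinuousLinearMap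
        (fderiv ℝ (F ∘ P) (F y))) + (D y - D x) (wr (c (F x))) := by
      refine un_inj ?_
      have e1 : un (Sm h K f y - Sm h K f x) = (c (F y)).compContinuousLinearMap
        (fderiv ℝ (F ∘ P) (F y)) - (c (F x)).compContinuousLinearMap
        (fderiv ℝ (F ∘ P) (F x)) := by rw [hc]; rfl
      have e2 : un (wr ((c (F y) - c (F x)).compContinuousLinearMap
        (fderiv ℝ (F ∘ P) (F y))) + (D y - D x) (wr (c (F x)))) =
        (c (F y) - c (F x)).compContinuousLinearMap (fderiv ℝ (F ∘ P) (F y)) +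
        ((c (F x)).compContinuousLinearMap (fderiv ℝ (F ∘ P) (F y)) -
        (c (F x)).compContinuousLinearMap (fderiv ℝ (F ∘ P) (F x))) := by rw [hD]; rfl
      rw [e1, e2]
      ext v
      simp only [ContinuousAlternatingMap.sub_apply, ContinuousAlternatingMap.add_apply,
        ContinuousAlternatingMap.compContinuousLinearMap_apply]
      ring
    rw [e]
    refine (norm_add_le _ _).trans (add_le_add ?_ ?_)
    · rw [wr_norm]
      exact (comp_le h _ y).trans (mul_le_mul_of_nonneg_left hlip (by positivity))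
    · refine (ContinuousLinearMap.le_opNorm _ _).trans
        (mul_le_mul_of_nonneg_left ?_ (norm_nonneg _))
      rw [wr_norm, hc]
      exact conv_norm K fun ξ _ => hext _
  have hDc : Continuous D := by
    rw [hD]
    exact cmp_cont.comp h.DQF
  have hlim : Tendsto (fun y => B ^ 2 * (|L| * (B ^ 2 * R') * ‖F y - F x‖) +
      ‖D y - D x‖ * (B ^ 2 * R')) (𝓝 x) (𝓝 0) := by
    have h1 : Continuous fun y => B ^ 2 * (|L| * (B ^ 2 * R') * ‖F y - F x‖) +
        ‖D y - D x‖ * (B ^ 2 * R') :=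
      (continuous_const.mul (continuous_const.mul (h.sm.continuous.sub continuous_const).norm)).add
        ((hDc.sub continuous_const).norm.mul continuous_const)
    have h2 := h1.tendsto x
    simpa using h2
  filter_upwards [hlim.eventually (gt_mem_nhds hε)] with y hy f hf
  exact (hcomp y f hf).trans_lt hy

/-- limits of asymptotically closed forms are smoothed to closed forms -/
theorem Sm_lim (h : Dat (d := d) F P r χ B) (K : Kern φ δ L) (hδ : δ < r / 2)
    {f : C(X, Aw m)} {g : ℕ → C(X, Aw m)} (hg : Tendsto g atTop (𝓝 f))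
    {σ : ℕ → Form d X 2} {ρ : ℕ → Form d X 3} (hf : ∀ n, Rep F P (g n) (σ n))
    (hσ : ∀ n, IsSmooth (σ n)) (hρ : ∀ n, IsD (σ n) (ρ n)) {M : ℕ → ℝ}
    (hM : ∀ n, ∀ w ∈ tube F (r / 2), ‖PB P (ρ n) w‖ ≤ M n) (hM0 : Tendsto M atTop (𝓝 0)) :
    Sm h K f ∈ Zs h := by
  have hzero : ∀ x, extDeriv (conv φ (ext F P χ f)) (F x) = 0 := by
    intro x
    have h1 : ∀ n, ‖extDeriv (conv φ (ext F P χ f)) (F x)‖ ≤
        3 * (L * (B ^ 2 * ‖f - g n‖)) + M n := by
      intro n
      obtain ⟨a, ha⟩ : ∃ a, a = conv φ (ext F P χ f) := ⟨_, rfl⟩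
      obtain ⟨b, hb⟩ : ∃ b, b = conv φ (ext F P χ (g n)) := ⟨_, rfl⟩
      have has : ContDiff ℝ ∞ a := by rw [ha]; exact conv_smooth K (ext_cont h f)
      have hbs : ContDiff ℝ ∞ b := by rw [hb]; exact conv_smooth K (ext_cont h (g n))
      have hab : (fun w => a w - b w) = conv φ (ext F P χ (f - g n)) := by
        funext w
        rw [ha, hb, ← conv_sub K (ext_cont h f) (ext_cont h (g n))]
        unfold conv
        refine integral_congr_ae (Eventually.of_forall fun ξ => ?_)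
        simp only [ext_sub]
      have e1 : fderiv ℝ a (F x) = fderiv ℝ b (F x) +
          fderiv ℝ (conv φ (ext F P χ (f - g n))) (F x) := by
        rw [← hab, fderiv_fun_sub (has.differentiable (by simp)).differentiableAt
          (hbs.differentiable (by simp)).differentiableAt]
        refine ContinuousLinearMap.ext fun v => ?_
        exact (add_sub_cancel (fderiv ℝ b (F x) v) (fderiv ℝ a (F x) v)).symm
      have e2 : extDeriv a (F x) = extDeriv b (F x) +
          ContinuousAlternatingMap.alternatizeUncurryFin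
            (fderiv ℝ (conv φ (ext F P χ (f - g n))) (F x)) := by
        unfold extDeriv
        rw [e1, ContinuousAlternatingMap.alternatizeUncurryFin_add]
      have e3 : ‖extDeriv b (F x)‖ ≤ M n := by
        rw [hb, Sm_extDeriv h K hδ (hf n) (hσ n) (hρ n)]
        exact conv_norm K fun ξ hξ => hM n _ (tube_sub h K hδ x hξ)
      have e4 := ContinuousAlternatingMap.norm_alternatizeUncurryFin_le
        (fderiv ℝ (conv φ (ext F P χ (f - g n))) (F x))
      have e5 := conv_fderiv_norm K (ext_cont h (f - g n)) (ext_norm h (f - g n)) (F x)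
      rw [← ha, e2]
      refine (norm_add_le _ _).trans ?_
      have e6 : ‖ContinuousAlternatingMap.alternatizeUncurryFin
            (fderiv ℝ (conv φ (ext F P χ (f - g n))) (F x))‖ ≤
            3 * (L * (B ^ 2 * ‖f - g n‖)) := by
        refine e4.trans ?_
        refine (mul_le_mul_of_nonneg_left e5 (by positivity)).trans (le_of_eq ?_)
        norm_num
      linarith
    have h2 : Tendsto (fun n => 3 * (L * (B ^ 2 * ‖f - g n‖)) + M n) atTop (𝓝 0) := by
      have e1 : Tendsto (fun n => ‖f - g n‖) atTop (𝓝 0) := by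
        have := (tendsto_const_nhds (x := f)).sub hg
        rw [sub_self] at this
        simpa using this.norm
      have e2 := ((e1.const_mul (B ^ 2)).const_mul L).const_mul 3
      have e3 := e2.add hM0
      simpa using e3
    have h3 := ge_of_tendsto' h2 h1
    exact norm_le_zero_iff.1 h3
  refine ⟨_, Sm_smooth h K f, ?_, Sm_rep h K f⟩
  have h1 := Sm_D h K f
  have h2 : FS (d := d) F (extDeriv (conv φ (ext F P χ f))) = 0 := by
    funext x
    unfold FS
    rw [hzero x]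
    rfl
  rwa [h2] at h1

end

end Pool.Agent.H33.CD
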