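import Pool.Agent.H33.CD.CR

/-!
# The exterior derivative has closed range in the uniform norm
-/

set_option autoImplicit false
set_option linter.unusedSectionVars false
set_option linter.unusedVariables false

open Set Filter Topology MeasureTheory Function
open scoped Manifold ContDiff RealInnerProductSpace Convolution

noncomputable section

namespace Pool.Agent.H33.CD

open Pool.Agent.Y501.SY Pool.Agent.Y455.SY

section

variable {d m : ℕ} {X : Type} [TopologicalSpace X] [ChartedSpace (E d) X]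
  [IsManifold (𝓡 d) ∞ X] [CompactSpace X]
  {F : X → E m} {P : E m → X} {r : ℝ} {χ : E m → ℝ} {B : ℝ}

theorem Rep.smul {f : C(X, Aw m)} {σ : Form d X 2} (h : Rep F P f σ) (c : ℝ) :
    Rep F P (c • f) (c • σ) := fun x => by
  have e : un ((c • f) x) = c • un (f x) := rfl
  rw [e, h x]
  rfl

theorem Rep.add {f g : C(X, Aw m)} {σ τ : Form d X 2} (h : Rep F P f σ) (h' : Rep F P g τ) :
    Rep F P (f + g) (σ + τ) := fun x => by
  have e : un ((f + g) x) = un (f x) + un (g x) := rfl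
  rw [e, h x, h' x]
  rfl

theorem closed_range (h : Dat (d := d) F P r χ B) :
    ∃ C : ℝ, 0 ≤ C ∧ ∀ (f : C(X, Aw m)) (σ : Form d X 2) (ρ : Form d X 3) (M : ℝ),
      Rep F P f σ → IsSmooth σ → IsD σ ρ → 0 ≤ M → (∀ x, ‖PB P ρ (F x)‖ ≤ M) →
      qn (Zs h) f ≤ C * M := by
  have hr := h.ret.pos
  have hB0 : 0 < B := one_pos.trans_le h.B1
  obtain ⟨φ, L, K⟩ := exists_kern m (δ := r / 4) (by linarith)
  have hδ : r / 4 < r / 2 := by linarith
  by_contra hcon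
  push Not at hcon
  -- normalization
  have hex : ∀ n : ℕ, ∃ (g : C(X, Aw m)) (σ : Form d X 2) (ρ : Form d X 3) (M : ℝ),
      Rep F P g σ ∧ IsSmooth σ ∧ IsD σ ρ ∧ 0 ≤ M ∧ (∀ x, ‖PB P ρ (F x)‖ ≤ M) ∧
      M ≤ 1 / ((n : ℝ) + 1) ∧ qn (Zs h) g = 1 ∧ ‖g‖ ≤ 2 := by
    intro n
    obtain ⟨f, σ, ρ, M, h1, h2, h3, h4, h5, h6⟩ := hcon ((n : ℝ) + 1) (by positivity)
    obtain ⟨q, hq⟩ : ∃ q, q = qn (Zs h) f := ⟨_, rfl⟩
    rw [← hq] at h6
    have hn : (0 : ℝ) < (n : ℝ) + 1 := by positivity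
    have hq0 : 0 < q := lt_of_le_of_lt (mul_nonneg hn.le h4) h6
    obtain ⟨z, ⟨τ, t1, t2, t3⟩, hz⟩ := qn_lt (Zs h) (q⁻¹ • f) one_pos
    have hzZ : z ∈ Zs h := ⟨τ, t1, t2, t3⟩
    have hq1 : qn (Zs h) (q⁻¹ • f) = 1 := by
      rw [qn_smul, ← hq, abs_of_pos (inv_pos.2 hq0), inv_mul_cancel₀ hq0.ne']
    have e0 : q⁻¹ • f + (-1 : ℝ) • z = q⁻¹ • f - z := by rw [neg_one_smul, sub_eq_add_neg]
    refine ⟨q⁻¹ • f + (-1 : ℝ) • z, q⁻¹ • σ + (-1 : ℝ) • τ, q⁻¹ • ρ, q⁻¹ * M,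
      (h1.smul _).add (t3.smul _), (h2.smul _).add (t1.smul _), ?_,
      mul_nonneg (inv_nonneg.2 hq0.le) h4, fun x => ?_, ?_, ?_, ?_⟩
    · have h7 : IsD (q⁻¹ • σ + (-1 : ℝ) • τ) (q⁻¹ • ρ + (-1 : ℝ) • (0 : Form d X 3)) :=
        (h3.smul _).add (IsD.smul t2 (-1)) (h2.smul _) (t1.smul _)
      rwa [smul_zero, add_zero] at h7
    · have e1 : PB P (q⁻¹ • ρ) (F x) = q⁻¹ • PB P ρ (F x) := rfl
      rw [e1, norm_smul, Real.norm_eq_abs, abs_of_pos (inv_pos.2 hq0)]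
      exact mul_le_mul_of_nonneg_left (h5 x) (inv_nonneg.2 hq0.le)
    · rw [inv_mul_eq_div, div_le_div_iff₀ hq0 hn]
      linarith
    · refine (qn_congr _ ?_).trans hq1
      rw [e0, sub_sub_cancel_left]
      exact (Zs h).neg_mem hzZ
    · rw [e0]
      rw [hq1] at hz
      linarith
  choose g σ ρ M h1 h2 h3 h4 h5 h6 h7 h8 using hex
  have hMlim : Tendsto M atTop (𝓝 0) :=
    squeeze_zero h4 h6 tendsto_one_div_add_atTop_nhds_zero_nat
  -- the smoothed forms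
  obtain ⟨a, ψ, hψ, ha⟩ := exists_subseq (fun n => Sm h K (g n)) (B ^ 2 * (B ^ 2 * 2))
    (fun n x => ((Sm h K (g n)).norm_coe_le_norm x).trans ((Sm_norm h K (g n)).trans
      (mul_le_mul_of_nonneg_left (mul_le_mul_of_nonneg_left (h8 n) (by positivity))
        (by positivity)))) (fun x ε hε => by
      filter_upwards [Sm_equi h K 2 x hε] with y hy n
      exact hy (g n) (h8 n))
  have ht1 : ∀ n, ∀ w ∈ tube F (r / 2), ‖PB P (ρ n) w‖ ≤ B ^ 3 * M n := fun n w hw =>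
    tube_bound h (h4 n) (h5 n) hw
  have ht2 : ∀ n x, ‖PB P (FS (d := d) F (extDeriv (conv φ (ext F P χ (g n))))) (F x)‖ ≤
      B ^ 3 * (B ^ 3 * M n) := fun n x => Sm_bound h K hδ (h1 n) (h2 n) (h3 n) (ht1 n) x
  have ht3 : ∀ n, ∀ w ∈ tube F (r / 2),
      ‖PB P (FS (d := d) F (extDeriv (conv φ (ext F P χ (g n))))) w‖ ≤
      B ^ 3 * (B ^ 3 * (B ^ 3 * M n)) := fun n w hw =>
    tube_bound h (mul_nonneg (by positivity) (mul_nonneg (by positivity) (h4 n))) (ht2 n) hw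
  have hSa : Sm h K a ∈ Zs h := by
    refine Sm_lim h K hδ (g := fun n => Sm h K (g (ψ n))) ha
      (σ := fun n => FS (d := d) F (conv φ (ext F P χ (g (ψ n)))))
      (ρ := fun n => FS (d := d) F (extDeriv (conv φ (ext F P χ (g (ψ n))))))
      (fun n => Sm_rep h K _) (fun n => Sm_smooth h K _) (fun n => Sm_D h K _)
      (M := fun n => B ^ 3 * (B ^ 3 * (B ^ 3 * M (ψ n)))) (fun n => ht3 (ψ n)) ?_
    have := (((hMlim.comp hψ.tendsto_atTop).const_mul (B ^ 3)).const_mul (B ^ 3)).const_mul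
      (B ^ 3)
    simpa using this
  have hkey : ∀ n, 1 ≤ B ^ 2 * (B ^ 3 * M (ψ n) * (r / 4)) +
      (B ^ 2 * (B ^ 3 * (B ^ 3 * (B ^ 3 * M (ψ n))) * (r / 4)) +
        B ^ 2 * (B ^ 2 * ‖Sm h K (g (ψ n)) - a‖)) := by
    intro n
    have e1 := Sm_close h K hδ (h1 (ψ n)) (h2 (ψ n)) (h3 (ψ n))
      (mul_nonneg (by positivity) (h4 (ψ n))) (ht1 (ψ n))
    have e2 := Sm_close h K hδ (Sm_rep h K (g (ψ n))) (Sm_smooth h K (g (ψ n)))
      (Sm_D h K (g (ψ n))) (mul_nonneg (by positivity) (mul_nonneg (by positivity)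
        (mul_nonneg (by positivity) (h4 (ψ n))))) (ht3 (ψ n))
    have e3 := Sm_cont h K (Sm h K (g (ψ n))) a
    obtain ⟨u, hu⟩ : ∃ u, u = Sm h K (g (ψ n)) := ⟨_, rfl⟩
    rw [← hu] at e1 e2 e3 ⊢
    have f1 := qn_add (Zs h) (-(u - g (ψ n))) u
    rw [qn_neg] at f1
    have g1 : -(u - g (ψ n)) + u = g (ψ n) := by abel
    rw [g1, h7] at f1
    have f2 := qn_add (Zs h) (-(Sm h K u - u)) (Sm h K u)
    rw [qn_neg] at f2
    have g2 : -(Sm h K u - u) + Sm h K u = u := by abel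
    rw [g2] at f2
    have f3 := qn_add (Zs h) (Sm h K u - Sm h K a) (Sm h K a)
    rw [sub_add_cancel, qn_zero _ hSa] at f3
    have f4 := qn_norm (Zs h) (Sm h K u - Sm h K a)
    linarith
  have hlim : Tendsto (fun n => B ^ 2 * (B ^ 3 * M (ψ n) * (r / 4)) +
      (B ^ 2 * (B ^ 3 * (B ^ 3 * (B ^ 3 * M (ψ n))) * (r / 4)) +
        B ^ 2 * (B ^ 2 * ‖Sm h K (g (ψ n)) - a‖))) atTop (𝓝 0) := by
    have t1 := hMlim.comp hψ.tendsto_atTop
    have t2 : Tendsto (fun n => ‖Sm h K (g (ψ n)) - a‖) atTop (𝓝 0) := by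
      have : Tendsto (fun n => Sm h K (g (ψ n)) - a) atTop (𝓝 (a - a)) :=
        Tendsto.sub_const ha a
      rw [sub_self] at this
      simpa using this.norm
    have t3 := ((t1.const_mul (B ^ 3)).mul_const (r / 4)).const_mul (B ^ 2)
    have t4 := (((((t1.const_mul (B ^ 3)).const_mul (B ^ 3)).const_mul (B ^ 3)).mul_const
      (r / 4)).const_mul (B ^ 2))
    have t5 := (t2.const_mul (B ^ 2)).const_mul (B ^ 2)
    have t6 := t3.add (t4.add t5)
    simpa using t6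
  have := ge_of_tendsto' hlim hkey
  linarith

end

end Pool.Agent.H33.CD
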