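import Pool.Agent.H33.CD.Ext

/-!
# The Banach space of restricted forms and the extension operator
-/

set_option autoImplicit false
set_option linter.unusedSectionVars false

open Set Filter Topology MeasureTheory Function
open scoped Manifold ContDiff RealInnerProductSpace

noncomputable section

namespace Pool.Agent.H33.CD

open Pool.Agent.Y501.SY Pool.Agent.Y455.SY

/-- the values of the forms -/
abbrev Al (m k : ℕ) := (E m) [⋀^Fin k]→L[ℝ] ℝ

/-- the values of the two-forms, as a normed space -/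
def Aw (m : ℕ) : Type := Al m 2

instance (m : ℕ) : NormedAddCommGroup (Aw m) := inferInstanceAs (NormedAddCommGroup (Al m 2))

instance (m : ℕ) : NormedSpace ℝ (Aw m) := inferInstanceAs (NormedSpace ℝ (Al m 2))

instance (m : ℕ) : CompleteSpace (Aw m) := inferInstanceAs (CompleteSpace (Al m 2))

/-- the value as an alternating map -/
def un {m : ℕ} (a : Aw m) : Al m 2 := a

/-- an alternating map as a value -/
def wr {m : ℕ} (a : Al m 2) : Aw m := a

theorem un_wr {m : ℕ} (a : Al m 2) : un (wr a) = a := rfl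

theorem wr_un {m : ℕ} (a : Aw m) : wr (un a) = a := rfl

theorem un_norm {m : ℕ} (a : Aw m) : ‖un a‖ = ‖a‖ := rfl

theorem wr_norm {m : ℕ} (a : Al m 2) : ‖wr a‖ = ‖a‖ := rfl

theorem un_cont {m : ℕ} : Continuous (un (m := m)) := by
  have h : Continuous fun a : Al m 2 => a := continuous_id
  exact h

theorem wr_cont {m : ℕ} : Continuous (wr (m := m)) := by
  have h : Continuous fun a : Al m 2 => a := continuous_id
  exact h

section

variable {d m : ℕ} {X : Type} [TopologicalSpace X] [ChartedSpace (E d) X]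
  [IsManifold (𝓡 d) ∞ X]

omit [TopologicalSpace X] [ChartedSpace (E d) X] [IsManifold (𝓡 d) ∞ X] in
theorem tube_eq (F : X → E m) (r : ℝ) : tube F r = Metric.thickening r (range F) := by
  ext w
  rw [Metric.mem_thickening_iff]
  constructor
  · rintro ⟨x, hx⟩
    exact ⟨F x, mem_range_self x, by rw [dist_eq_norm]; exact hx⟩
  · rintro ⟨_, ⟨x, rfl⟩, hx⟩
    exact ⟨x, by rwa [dist_eq_norm] at hx⟩

theorem comp_norm {k : ℕ} {V V' : Type} [NormedAddCommGroup V] [NormedSpace ℝ V]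
    [NormedAddCommGroup V'] [NormedSpace ℝ V']
    (f : V [⋀^Fin k]→L[ℝ] ℝ) (g : V' →L[ℝ] V) :
    ‖f.compContinuousLinearMap g‖ ≤ ‖f‖ * ‖g‖ ^ k := by
  have h := ContinuousAlternatingMap.norm_compContinuousLinearMap_le f g
  rwa [Fintype.card_fin] at h

theorem comp_cont {k : ℕ} {V V' Z : Type} [NormedAddCommGroup V] [NormedSpace ℝ V]
    [NormedAddCommGroup V'] [NormedSpace ℝ V'] [TopologicalSpace Z]
    {f : Z → V [⋀^Fin k]→L[ℝ] ℝ} {g : Z → V' →L[ℝ] V} {s : Set Z} (hf : ContinuousOn f s)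
    (hg : ContinuousOn g s) :
    ContinuousOn (fun z => (f z).compContinuousLinearMap (g z)) s := by
  have h0 : Continuous
      (ContinuousAlternatingMap.compContinuousLinearMapCLM :
        (V' →L[ℝ] V) → (V [⋀^Fin k]→L[ℝ] ℝ) →L[ℝ] (V' [⋀^Fin k]→L[ℝ] ℝ)) :=
    ContinuousAlternatingMap.continuous_compContinuousLinearMapCLM
  exact (h0.comp_continuousOn hg).clm_apply hf

/-- a retraction together with a cut-off function and a bound -/
structure Dat (F : X → E m) (P : E m → X) (r : ℝ) (χ : E m → ℝ) (B : ℝ) : Prop where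
  ret : Ret (d := d) F P r
  sm : ContMDiff (𝓡 d) (𝓡 m) ∞ F
  cut : ContDiff ℝ ∞ χ
  cpt : HasCompactSupport χ
  sub : tsupport χ ⊆ tube F r
  one : ∀ w ∈ tube F (r / 2), χ w = 1
  nn : ∀ w, 0 ≤ χ w
  le : ∀ w, χ w ≤ 1
  B1 : 1 ≤ B
  bd : ∀ w ∈ tsupport χ, ‖fderiv ℝ (F ∘ P) w‖ ≤ B

theorem Q_smooth {F : X → E m} {P : E m → X} {r : ℝ} (h : Ret (d := d) F P r)
    (hF : ContMDiff (𝓡 d) (𝓡 m) ∞ F) : ContDiffOn ℝ ∞ (F ∘ P) (tube F r) := by
  have h1 : ContMDiffOn (𝓡 m) (𝓡 m) ∞ (F ∘ P) (tube F r) := hF.comp_contMDiffOn h.on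
  exact contMDiffOn_iff_contDiffOn.1 h1

theorem DQ_cont {F : X → E m} {P : E m → X} {r : ℝ} (h : Ret (d := d) F P r)
    (hF : ContMDiff (𝓡 d) (𝓡 m) ∞ F) : ContinuousOn (fderiv ℝ (F ∘ P)) (tube F r) :=
  ((Q_smooth h hF).fderiv_of_isOpen (tube_open F r) (m := ∞) (by simp)).continuousOn

theorem exists_dat [CompactSpace X] {F : X → E m} {P : E m → X} {r : ℝ}
    (h : Ret (d := d) F P r) (hF : ContMDiff (𝓡 d) (𝓡 m) ∞ F) :
    ∃ (χ : E m → ℝ) (B : ℝ), Dat (d := d) F P r χ B := by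
  have hr := h.pos
  have hcomp : ∀ s, IsCompact (Metric.cthickening s (range F)) := fun s =>
    (isCompact_range hF.continuous).cthickening
  have hsub : ∀ s t : ℝ, 0 < t → s < t → Metric.cthickening s (range F) ⊆ tube F t := by
    intro s t ht hst
    rw [tube_eq]
    exact Metric.cthickening_subset_thickening' ht hst _
  have hsub' : ∀ s : ℝ, tube F s ⊆ Metric.cthickening s (range F) := by
    intro s
    rw [tube_eq]
    exact Metric.thickening_subset_cthickening _ _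
  obtain ⟨f, hf1, hf2, hf3⟩ := exists_contMDiffMap_one_nhds_of_subset_interior (n := ⊤) (𝓡 m)
    (s := Metric.cthickening (r / 2) (range F)) (t := Metric.cthickening (3 * r / 4) (range F))
    (hcomp _).isClosed (by
      refine (hsub (r / 2) (3 * r / 4) (by linarith) (by linarith)).trans ?_
      exact interior_maximal (hsub' _) (tube_open _ _))
  have hsupp : tsupport f ⊆ Metric.cthickening (3 * r / 4) (range F) := by
    refine closure_minimal ?_ (hcomp _).isClosed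
    intro w hw
    by_contra hcon
    exact hw (hf2 w hcon)
  have hsupp2 : tsupport f ⊆ tube F r :=
    hsupp.trans (hsub _ _ hr (by linarith))
  have hc : IsCompact (tsupport f) := (hcomp _).of_isClosed_subset (isClosed_tsupport _) hsupp
  obtain ⟨B, hB⟩ := hc.exists_bound_of_continuousOn ((DQ_cont h hF).mono hsupp2)
  refine ⟨f, max B 1, h, hF, ?_, hc, hsupp2, ?_, fun w => (hf3 w).1, fun w => (hf3 w).2,
    le_max_right _ _, fun w hw => (hB w hw).trans (le_max_left _ _)⟩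
  · exact f.contMDiff.contDiff
  · intro w hw
    exact hf1.self_of_nhdsSet w (hsub' _ hw)

variable {F : X → E m} {P : E m → X} {r : ℝ} {χ : E m → ℝ} {B : ℝ}

/-- the extension of a section to the Euclidean space -/
def ext (F : X → E m) (P : E m → X) (χ : E m → ℝ) (f : C(X, Aw m)) (w : E m) : Al m 2 :=
  χ w • (un (f (P w))).compContinuousLinearMap (fderiv ℝ (F ∘ P) w)

/-- `f` represents the form `σ`. -/
def Rep (F : X → E m) (P : E m → X) (f : C(X, Aw m)) (σ : Form d X 2) : Prop :=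
  ∀ x, un (f x) = PB P σ (F x)

theorem ext_cont (h : Dat (d := d) F P r χ B) (f : C(X, Aw m)) :
    Continuous (ext F P χ f) := by
  have h1 : ContinuousOn (fun w => (un (f (P w))).compContinuousLinearMap
      (fderiv ℝ (F ∘ P) w)) (tube F r) :=
    comp_cont ((un_cont.comp f.continuous).comp_continuousOn h.ret.on.continuousOn)
      (DQ_cont h.ret h.sm)
  rw [continuous_iff_continuousAt]
  intro w
  by_cases hw : w ∈ tsupport χ
  · have h2 : ContinuousOn (ext F P χ f) (tube F r) := h.cut.continuous.continuousOn.smul h1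
    exact h2.continuousAt ((tube_open F r).mem_nhds (h.sub hw))
  · have h2 : ext F P χ f =ᶠ[𝓝 w] fun _ => 0 := by
      filter_upwards [(isClosed_tsupport χ).isOpen_compl.mem_nhds hw] with u hu
      unfold ext
      rw [image_eq_zero_of_notMem_tsupport hu, zero_smul]
    exact (continuousAt_const (y := (0 : Al m 2))).congr h2.symm

theorem ext_supp (h : Dat (d := d) F P r χ B) (f : C(X, Aw m)) :
    HasCompactSupport (ext F P χ f) := h.cpt.smul_right

theorem ext_norm [CompactSpace X] (h : Dat (d := d) F P r χ B) (f : C(X, Aw m)) (w : E m) :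
    ‖ext F P χ f w‖ ≤ B ^ 2 * ‖f‖ := by
  have hB := h.B1
  by_cases hw : w ∈ tsupport χ
  · unfold ext
    rw [norm_smul, Real.norm_eq_abs, abs_of_nonneg (h.nn w)]
    have h1 := comp_norm (un (f (P w))) (fderiv ℝ (F ∘ P) w)
    have h2 : ‖un (f (P w))‖ * ‖fderiv ℝ (F ∘ P) w‖ ^ 2 ≤ ‖f‖ * B ^ 2 := by
      refine mul_le_mul (f.norm_coe_le_norm _) ?_ (by positivity) (norm_nonneg f)
      exact pow_le_pow_left₀ (norm_nonneg _) (h.bd w hw) 2
    calc _ ≤ 1 * ‖(un (f (P w))).compContinuousLinearMap (fderiv ℝ (F ∘ P) w)‖ :=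
          mul_le_mul_of_nonneg_right (h.le w) (norm_nonneg _)
      _ ≤ _ := by rw [one_mul]; linarith
  · unfold ext
    rw [image_eq_zero_of_notMem_tsupport hw, zero_smul, norm_zero]
    positivity

theorem ext_sub (f g : C(X, Aw m)) (w : E m) :
    ext F P χ (f - g) w = ext F P χ f w - ext F P χ g w := by
  unfold ext
  have e : un ((f - g) (P w)) = un (f (P w)) - un (g (P w)) := rfl
  rw [e]
  ext v
  simp only [ContinuousAlternatingMap.smul_apply, ContinuousAlternatingMap.sub_apply,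
    ContinuousAlternatingMap.compContinuousLinearMap_apply, smul_eq_mul]
  ring

/-- derivatives of the retraction -/
theorem DQ_eq (h : Ret (d := d) F P r) (hF : ContMDiff (𝓡 d) (𝓡 m) ∞ F) {w : E m}
    (hw : w ∈ tube F r) (v : E m) :
    fderiv ℝ (F ∘ P) w v = mfderiv (𝓡 d) (𝓡 m) F (P w) (mfderiv (𝓡 m) (𝓡 d) P w v) := by
  have h1 : MDifferentiableAt (𝓡 d) (𝓡 m) F (P w) := hF.mdifferentiableAt (by simp)
  have h2 : MDifferentiableAt (𝓡 m) (𝓡 d) P w :=
    ((h.on w hw).contMDiffAt ((tube_open F r).mem_nhds hw)).mdifferentiableAt (by simp)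
  have h3 : (fderiv ℝ (F ∘ P) w : E m →L[ℝ] E m) =
      (mfderiv (𝓡 d) (𝓡 m) F (P w)).comp (mfderiv (𝓡 m) (𝓡 d) P w) := by
    rw [← mfderiv_comp w h1 h2, mfderiv_eq_fderiv]
  rw [h3]
  rfl

theorem mem_tube (hr : 0 < r) (x : X) : F x ∈ tube F r := ⟨x, by rw [sub_self, norm_zero]; exact hr⟩

theorem DP_DF (h : Ret (d := d) F P r) (hF : ContMDiff (𝓡 d) (𝓡 m) ∞ F) (x : X) (v : E d) :
    (mfderiv (𝓡 m) (𝓡 d) P (F x) : E m →L[ℝ] E d)
      ((mfderiv (𝓡 d) (𝓡 m) F x : E d →L[ℝ] E m) v) = v := by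
  have h1 : MDifferentiableAt (𝓡 d) (𝓡 m) F x := hF.mdifferentiableAt (by simp)
  have h2 : MDifferentiableAt (𝓡 m) (𝓡 d) P (F x) :=
    ((h.on _ (mem_tube h.pos x)).contMDiffAt ((tube_open F r).mem_nhds
      (mem_tube h.pos x))).mdifferentiableAt (by simp)
  have h3 : (P ∘ F) = id := funext h.inv
  have h4 : (mfderiv (𝓡 d) (𝓡 d) (P ∘ F) x : E d →L[ℝ] E d) =
      (mfderiv (𝓡 m) (𝓡 d) P (F x)).comp (mfderiv (𝓡 d) (𝓡 m) F x) := mfderiv_comp x h2 h1
  have h5 : (mfderiv (𝓡 d) (𝓡 d) (P ∘ F) x : E d →L[ℝ] E d) = ContinuousLinearMap.id ℝ (E d) := by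
    rw [h3]
    exact mfderiv_id
  rw [h5] at h4
  exact (DFunLike.congr_fun h4 v).symm

/-- the value of a form in terms of its pull-back -/
theorem form_eq (h : Ret (d := d) F P r) (hF : ContMDiff (𝓡 d) (𝓡 m) ∞ F) {k : ℕ}
    (σ : Form d X k) (x : X) (v : Fin k → E d) :
    (σ x : (E d) [⋀^Fin k]→L[ℝ] ℝ) v =
      PB P σ (F x) (fun i => (mfderiv (𝓡 d) (𝓡 m) F x : E d →L[ℝ] E m) (v i)) := by
  have e : PB P σ (F x) (fun i => (mfderiv (𝓡 d) (𝓡 m) F x : E d →L[ℝ] E m) (v i)) =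
      (σ (P (F x)) : (E d) [⋀^Fin k]→L[ℝ] ℝ) (fun i =>
        (mfderiv (𝓡 m) (𝓡 d) P (F x) : E m →L[ℝ] E d)
          ((mfderiv (𝓡 d) (𝓡 m) F x : E d →L[ℝ] E m) (v i))) := rfl
  rw [e]
  have h6 : (σ (P (F x)) : (E d) [⋀^Fin k]→L[ℝ] ℝ) = σ x := by rw [h.inv x]
  rw [h6]
  congr 1
  funext i
  exact (DP_DF h hF x (v i)).symm

theorem PB_eq (h : Ret (d := d) F P r) (hF : ContMDiff (𝓡 d) (𝓡 m) ∞ F) {k : ℕ}
    (σ : Form d X k) {w : E m} (hw : w ∈ tube F r) :
    PB P σ w = (PB P σ (F (P w))).compContinuousLinearMap (fderiv ℝ (F ∘ P) w) := by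
  ext v
  have e : PB P σ w v = (σ (P w) : (E d) [⋀^Fin k]→L[ℝ] ℝ)
      (fun i => (mfderiv (𝓡 m) (𝓡 d) P w : E m →L[ℝ] E d) (v i)) := rfl
  refine e.trans ((form_eq h hF σ (P w) _).trans ?_)
  have e2 : (fun i => (mfderiv (𝓡 d) (𝓡 m) F (P w) : E d →L[ℝ] E m)
      ((mfderiv (𝓡 m) (𝓡 d) P w : E m →L[ℝ] E d) (v i))) =
      fun i => fderiv ℝ (F ∘ P) w (v i) := by
    funext i
    exact (DQ_eq h hF hw (v i)).symm
  exact congrArg (PB P σ (F (P w))) e2

theorem PB_FS (h : Ret (d := d) F P r) (hF : ContMDiff (𝓡 d) (𝓡 m) ∞ F) {k : ℕ}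
    (Θ : E m → Al m k) (x : X) :
    PB P (FS (d := d) F Θ) (F x) =
      (Θ (F x)).compContinuousLinearMap (fderiv ℝ (F ∘ P) (F x)) := by
  ext v
  have e : PB P (FS (d := d) F Θ) (F x) v = Θ (F (P (F x)))
      (fun i => (mfderiv (𝓡 d) (𝓡 m) F (P (F x)) : E d →L[ℝ] E m)
        ((mfderiv (𝓡 m) (𝓡 d) P (F x) : E m →L[ℝ] E d) (v i))) := rfl
  have e2 : (fun i => (mfderiv (𝓡 d) (𝓡 m) F (P (F x)) : E d →L[ℝ] E m)
        ((mfderiv (𝓡 m) (𝓡 d) P (F x) : E m →L[ℝ] E d) (v i))) =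
        fun i => fderiv ℝ (F ∘ P) (F x) (v i) := by
    funext i
    exact (DQ_eq h hF (mem_tube h.pos x) (v i)).symm
  rw [e, e2, h.inv]
  rfl

theorem ext_rep (h : Dat (d := d) F P r χ B) {f : C(X, Aw m)} {σ : Form d X 2}
    (hf : Rep F P f σ) {w : E m} (hw : w ∈ tube F r) : ext F P χ f w = χ w • PB P σ w := by
  unfold ext
  rw [hf (P w), ← PB_eq h.ret h.sm σ hw]

theorem ext_smooth (h : Dat (d := d) F P r χ B) {f : C(X, Aw m)} {σ : Form d X 2}
    (hf : Rep F P f σ) (hσ : IsSmooth σ) : ContDiff ℝ ∞ (ext F P χ f) := by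
  rw [contDiff_iff_contDiffAt]
  intro w
  by_cases hw : w ∈ tsupport χ
  · have hwt := h.sub hw
    have h1 : ContDiffAt ℝ ∞ (fun w => χ w • PB P σ w) w :=
      h.cut.contDiffAt.smul ((PB_smooth h.ret hσ).contDiffAt ((tube_open F r).mem_nhds hwt))
    refine h1.congr_of_eventuallyEq ?_
    filter_upwards [(tube_open F r).mem_nhds hwt] with u hu
    exact ext_rep h hf hu
  · have h2 : ext F P χ f =ᶠ[𝓝 w] fun _ => 0 := by
      filter_upwards [(isClosed_tsupport χ).isOpen_compl.mem_nhds hw] with u hu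
      unfold ext
      rw [image_eq_zero_of_notMem_tsupport hu, zero_smul]
    exact contDiffAt_const.congr_of_eventuallyEq h2

theorem ext_inner (h : Dat (d := d) F P r χ B) {f : C(X, Aw m)} {σ : Form d X 2}
    (hf : Rep F P f σ) {w : E m} (hw : w ∈ tube F (r / 2)) : ext F P χ f w = PB P σ w := by
  have hr := h.ret.pos
  have hw' : w ∈ tube F r := by
    obtain ⟨x, hx⟩ := hw
    exact ⟨x, by linarith⟩
  rw [ext_rep h hf hw', h.one w hw, one_smul]

theorem ext_D (h : Dat (d := d) F P r χ B) {f : C(X, Aw m)} {σ : Form d X 2}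
    {ρ : Form d X 3} (hf : Rep F P f σ) (hσ : IsSmooth σ) (hρ : IsD σ ρ) {w : E m}
    (hw : w ∈ tube F (r / 2)) : extDeriv (ext F P χ f) w = PB P ρ w := by
  have hr := h.ret.pos
  have hw' : w ∈ tube F r := by
    obtain ⟨x, hx⟩ := hw
    exact ⟨x, by linarith⟩
  have h1 : ext F P χ f =ᶠ[𝓝 w] PB P σ := by
    filter_upwards [(tube_open F (r / 2)).mem_nhds hw] with u hu
    exact ext_inner h hf hu
  rw [h1.extDeriv_eq, PB_D h.ret hσ hρ hw']

end

end Pool.Agent.H33.CD
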