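import Pool.Agent.H33.CD.Str2

/-!
# The estimate of the structure measure on a form with a small exterior derivative
-/

set_option autoImplicit false
set_option linter.unusedSectionVars false
set_option linter.unusedVariables false

open Set Filter Topology MeasureTheory Function
open scoped Manifold ContDiff RealInnerProductSpace Convolution ENNReal NNReal

noncomputable section

namespace Pool.Agent.H33.CD

open Pool.Agent.Y501.SY Pool.Agent.Y455.SY Pool.Agent.H33.TM Pool.Agent.Q235.SZ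

section

variable {d m : ℕ} {X : Type} [TopologicalSpace X] [ChartedSpace (E d) X]
  [IsManifold (𝓡 d) ∞ X] [CompactSpace X]
  {F : X → E m} {P : E m → X} {r : ℝ} {χ : E m → ℝ} {B : ℝ} {φ : E m → ℝ} {δ L : ℝ}

/-- `g` bounds the three-form `ρ`. -/
def Bd3 (F : X → E m) (ρ : Form d X 3) (g : X → ℝ) : Prop :=
  ∀ (x : X) (u v w : TangentSpace (𝓡 d) x),
    |ρ x ![u, v, w]| ≤ g x * nm F x u * nm F x v * nm F x w

theorem PB_bd (h : Dat (d := d) F P r χ B) {ρ : Form d X 3} {g : X → ℝ} (hg : Bd3 F ρ g)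
    {w : E m} (hw : w ∈ tube F (r / 2)) : ‖PB P ρ w‖ ≤ B ^ 3 * max (g (P w)) 0 := by
  have hr := h.ret.pos
  have hB := h.B1
  have hw' : w ∈ tube F r := by
    obtain ⟨x, hx⟩ := hw
    exact ⟨x, by linarith⟩
  have hws : w ∈ tsupport χ := by
    refine subset_tsupport _ ?_
    rw [mem_support, h.one w hw]
    exact one_ne_zero
  have hbd := h.bd w hws
  have hn : ∀ a : E m, nm (d := d) F (P w) (dP (d := d) P w a) ≤ B * ‖a‖ := by
    intro a
    have h1 : nm (d := d) F (P w) (dP (d := d) P w a) = ‖fderiv ℝ (F ∘ P) w a‖ := by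
      rw [DQ_eq h.ret h.sm hw' a]
      rfl
    rw [h1]
    exact (ContinuousLinearMap.le_opNorm _ _).trans
      (mul_le_mul_of_nonneg_right hbd (norm_nonneg _))
  refine ContinuousAlternatingMap.opNorm_le_bound _ (by positivity) fun a => ?_
  have e1 : PB P ρ w a = ρ (P w) ![dP (d := d) P w (a 0), dP (d := d) P w (a 1),
      dP (d := d) P w (a 2)] := by
    have e2 : PB P ρ w a = (ρ (P w) : (E d) [⋀^Fin 3]→L[ℝ] ℝ) (fun i => dP (d := d) P w (a i)) :=
      rfl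
    rw [e2]
    have e3 : (fun i => dP (d := d) P w (a i)) = ![dP (d := d) P w (a 0), dP (d := d) P w (a 1),
      dP (d := d) P w (a 2)] := by
      funext i
      fin_cases i <;> rfl
    rw [e3]
    rfl
  rw [e1, Real.norm_eq_abs, Fin.prod_univ_three]
  refine (hg (P w) _ _ _).trans ?_
  obtain ⟨n0, hn0⟩ : ∃ n, n = nm (d := d) F (P w) (dP (d := d) P w (a 0)) := ⟨_, rfl⟩
  obtain ⟨n1, hn1⟩ : ∃ n, n = nm (d := d) F (P w) (dP (d := d) P w (a 1)) := ⟨_, rfl⟩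
  obtain ⟨n2, hn2⟩ : ∃ n, n = nm (d := d) F (P w) (dP (d := d) P w (a 2)) := ⟨_, rfl⟩
  have k0 := hn (a 0)
  have k1 := hn (a 1)
  have k2 := hn (a 2)
  have p0 : 0 ≤ n0 := by rw [hn0]; exact norm_nonneg _
  have p1 : 0 ≤ n1 := by rw [hn1]; exact norm_nonneg _
  have p2 : 0 ≤ n2 := by rw [hn2]; exact norm_nonneg _
  rw [← hn0] at k0 ⊢
  rw [← hn1] at k1 ⊢
  rw [← hn2] at k2 ⊢
  have hm : (0 : ℝ) ≤ max (g (P w)) 0 := le_max_right _ _
  have q1 : g (P w) * n0 * n1 * n2 ≤ max (g (P w)) 0 * n0 * n1 * n2 := by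
    refine mul_le_mul_of_nonneg_right (mul_le_mul_of_nonneg_right
      (mul_le_mul_of_nonneg_right (le_max_left _ _) p0) p1) p2
  have q2 : n0 * n1 * n2 ≤ (B * ‖a 0‖) * (B * ‖a 1‖) * (B * ‖a 2‖) :=
    mul_le_mul (mul_le_mul k0 k1 p1 (p0.trans k0)) k2 p2 (by positivity)
  calc g (P w) * n0 * n1 * n2 ≤ max (g (P w)) 0 * (n0 * n1 * n2) := q1.trans (le_of_eq (by ring))
    _ ≤ max (g (P w)) 0 * ((B * ‖a 0‖) * (B * ‖a 1‖) * (B * ‖a 2‖)) :=
        mul_le_mul_of_nonneg_left q2 hm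
    _ = _ := by ring

theorem ofReal_max (a : ℝ) : ENNReal.ofReal (max a 0) = ENNReal.ofReal a := by
  rcases le_total a 0 with h | h
  · rw [max_eq_right h, ENNReal.ofReal_zero, ENNReal.ofReal_of_nonpos h]
  · rw [max_eq_left h]

theorem kern_L (K : Kern φ δ L) : 0 ≤ L := (K.nn 0).trans (K.bd 0)

theorem conv_bd (h : Dat (d := d) F P r χ B) (K : Kern φ δ L) (hδ : δ < r / 2) {ρ : Form d X 3}
    {g : X → ℝ} (hg : Bd3 F ρ g) (x : X) :
    ENNReal.ofReal ‖conv φ (PB P ρ) (F x)‖ ≤ ENNReal.ofReal (L * B ^ 3) *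
      ∫⁻ ξ in Metric.closedBall (0 : E m) δ, ENNReal.ofReal (g (P (F x - ξ))) := by
  have hL := kern_L K
  have hB := h.B1
  rw [ofReal_norm]
  unfold conv
  refine (enorm_integral_le_lintegral_enorm _).trans ?_
  rw [← lintegral_const_mul' _ _ ENNReal.ofReal_ne_top,
    ← lintegral_indicator Metric.isClosed_closedBall.measurableSet]
  refine lintegral_mono fun ξ => ?_
  by_cases hξ : φ ξ = 0
  · dsimp only
    rw [hξ, zero_smul, ← ofReal_norm, norm_zero, ENNReal.ofReal_zero]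
    exact bot_le
  · have hξ' : ξ ∈ Metric.closedBall (0 : E m) δ := mem_closedBall_zero_iff.2 (K.supp ξ hξ)
    rw [indicator_of_mem hξ', ← ofReal_norm, norm_smul, Real.norm_eq_abs, abs_of_nonneg (K.nn ξ)]
    have h1 := PB_bd h hg (tube_sub h K hδ x (K.supp ξ hξ))
    rw [← ofReal_max (g (P (F x - ξ))), ← ENNReal.ofReal_mul (by positivity)]
    refine ENNReal.ofReal_le_ofReal ?_
    calc φ ξ * ‖PB P ρ (F x - ξ)‖ ≤ L * (B ^ 3 * max (g (P (F x - ξ))) 0) :=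
          mul_le_mul (K.bd ξ) h1 (norm_nonneg _) hL
      _ = _ := by ring

/-- the smoothed form -/
theorem est1 (h : Dat (d := d) F P r χ B) (K : Kern φ δ L) (hδ : δ < r / 2) {C : ℝ} (hC : 0 ≤ C)
    (hcr : ∀ (f : C(X, Aw m)) (σ : Form d X 2) (ρ : Form d X 3) (M : ℝ),
      Rep F P f σ → IsSmooth σ → IsD σ ρ → 0 ≤ M → (∀ x, ‖PB P ρ (F x)‖ ≤ M) →
      qn (Zs h) f ≤ C * M)
    (T : C(X, Aw m) →L[ℝ] ℝ) (hT : ∀ z ∈ Zs h, T z = 0)
    {f : C(X, Aw m)} {σ : Form d X 2} {ρ : Form d X 3} (hf : Rep F P f σ) (hσ : IsSmooth σ)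
    (hρ : IsD σ ρ) {g : X → ℝ} (hg : Bd3 F ρ g) {M : ℝ} (hM : 0 ≤ M)
    (hpot : ∀ x, ∫⁻ ξ in Metric.closedBall (0 : E m) δ, ENNReal.ofReal (g (P (F x - ξ))) ≤
      ENNReal.ofReal M) : |T (Sm h K f)| ≤ ‖T‖ * (C * (B ^ 3 * (L * B ^ 3 * M))) := by
  have hL := kern_L K
  have hB := h.B1
  refine (T_le_qn (Zs h) T hT _).trans (mul_le_mul_of_nonneg_left ?_ (norm_nonneg _))
  refine hcr _ _ _ _ (Sm_rep h K f) (Sm_smooth h K f) (Sm_D h K f) (by positivity) fun x => ?_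
  have h1 : ‖extDeriv (conv φ (ext F P χ f)) (F x)‖ ≤ L * B ^ 3 * M := by
    rw [Sm_extDeriv h K hδ hf hσ hρ]
    have h2 := (conv_bd h K hδ hg x).trans (mul_le_mul_right (hpot x) _)
    rw [← ENNReal.ofReal_mul (by positivity)] at h2
    exact (ENNReal.ofReal_le_ofReal_iff (by positivity)).1 h2
  rw [PB_FS h.ret h.sm]
  refine (comp_norm _ _).trans ?_
  rw [mul_comm]
  exact mul_le_mul (pow_le_pow_left₀ (norm_nonneg _) (h.DQ_le x) 3) h1 (norm_nonneg _)
    (pow_nonneg (zero_le_one.trans h.B1) _)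

/-- a translate -/
theorem est2 [MeasurableSpace X] [BorelSpace X] (h : Dat (d := d) F P r χ B) (K : Kern φ δ L)
    (hδ : δ < r / 2) {J : End d X} {ν : Measure X} {T : C(X, Aw m) →L[ℝ] ℝ} {b : ℝ}
    (hS : SMeas h J ν T b)
    {f : C(X, Aw m)} {σ : Form d X 2} {ρ : Form d X 3} (hf : Rep F P f σ) (hσ : IsSmooth σ)
    (hρ : IsD σ ρ) {g : X → ℝ} (hg : Bd3 F ρ g) {ξ : E m} (hξ : ‖ξ‖ ≤ δ) :
    ENNReal.ofReal |T (trf h f ξ) - T f| ≤ ENNReal.ofReal (b * (B ^ 2 * (B ^ 3 * δ))) *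
      ∫⁻ s in Ioc (0 : ℝ) 1, ∫⁻ x, ENNReal.ofReal (g (P (F x - s • ξ))) ∂ν := by
  have hB := h.B1
  have hδ0 := K.pos
  have hb := hS.b0
  have hG := ext_smooth h hf hσ
  rw [curve_T _ _ _ _ (fun x s => crv_der h hG ξ x s) (trf_hu h f ξ) (trf_hv h hf ξ) T, abs_neg,
    intervalIntegral.integral_of_le zero_le_one, ← Real.norm_eq_abs, ofReal_norm]
  refine (enorm_integral_le_lintegral_enorm _).trans ?_
  rw [← lintegral_const_mul' _ _ ENNReal.ofReal_ne_top]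
  refine setLIntegral_mono' measurableSet_Ioc fun s hs => ?_
  have h1 : T (fam h (fun (s : ℝ) w => fderiv ℝ (ext F P χ f) (w - s • ξ) ξ)
      (fderiv_cont hG ξ) s) =
      T (rs h (fun w => ctr 2 ξ (extDeriv (ext F P χ f) (w - s • ξ))) (ctr_cont hG ξ (s • ξ))) := by
    have h2 := hS.kill _ (curve_split h hG ξ s (ctr_cont hG ξ (s • ξ)))
    rw [map_sub] at h2
    exact sub_eq_zero.1 h2
  rw [h1, ← ofReal_norm, Real.norm_eq_abs]
  refine (hS.bd _).trans ?_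
  rw [ENNReal.ofReal_mul hb, mul_assoc]
  refine mul_le_mul_right ?_ _
  rw [← lintegral_const_mul' _ _ ENNReal.ofReal_ne_top]
  refine lintegral_mono fun x => ?_
  dsimp only
  rw [← ofReal_max (g (P (F x - s • ξ))), ← ENNReal.ofReal_mul (by positivity)]
  refine ENNReal.ofReal_le_ofReal ?_
  have h3 : F x - s • ξ ∈ tube F (r / 2) := tube_sub h K hδ x (by
    rw [norm_smul, Real.norm_eq_abs, abs_of_nonneg hs.1.le]
    exact (mul_le_of_le_one_left (norm_nonneg _) hs.2).trans hξ)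
  have h4 : ‖ctr 2 ξ (extDeriv (ext F P χ f) (F x - s • ξ))‖ ≤
      B ^ 3 * max (g (P (F x - s • ξ))) 0 * δ := by
    refine (ctr_norm _ _).trans ?_
    rw [ext_D h hf hσ hρ h3]
    exact mul_le_mul (PB_bd h hg h3) hξ (norm_nonneg _) (by positivity)
  refine (comp_le h _ x).trans ?_
  calc B ^ 2 * ‖ctr 2 ξ (extDeriv (ext F P χ f) (F x - s • ξ))‖
      ≤ B ^ 2 * (B ^ 3 * max (g (P (F x - s • ξ))) 0 * δ) :=
        mul_le_mul_of_nonneg_left h4 (by positivity)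
    _ = _ := by ring

theorem est3 [MeasurableSpace X] [BorelSpace X] (h : Dat (d := d) F P r χ B) (K : Kern φ δ L)
    (hδ : δ < r / 2) {J : End d X} {ν : Measure X} {T : C(X, Aw m) →L[ℝ] ℝ} {b : ℝ}
    (hS : SMeas h J ν T b)
    {f : C(X, Aw m)} {σ : Form d X 2} {ρ : Form d X 3} (hf : Rep F P f σ) (hσ : IsSmooth σ)
    (hρ : IsD σ ρ) {g : X → ℝ} (hg : Bd3 F ρ g) :
    ENNReal.ofReal |T (Sm h K f) - T f| ≤ ENNReal.ofReal (L * (b * (B ^ 2 * (B ^ 3 * δ)))) *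
      ∫⁻ ξ in Metric.closedBall (0 : E m) δ, ∫⁻ s in Ioc (0 : ℝ) 1,
        ∫⁻ x, ENNReal.ofReal (g (P (F x - s • ξ))) ∂ν := by
  have hL := kern_L K
  have hB := h.B1
  have hc : Continuous fun ξ => φ ξ * T (trf h f ξ) :=
    K.sm.continuous.mul (T.continuous.comp (trf h f).continuous)
  have hi1 : Integrable fun ξ => φ ξ * T (trf h f ξ) :=
    hc.integrable_of_hasCompactSupport K.cpt.mul_right
  have hi2 : Integrable fun ξ => φ ξ * T f :=
    (K.sm.continuous.integrable_of_hasCompactSupport K.cpt).mul_const _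
  have e1 : T (Sm h K f) - T f = ∫ ξ, φ ξ * (T (trf h f ξ) - T f) := by
    rw [avg_T (μ := volume) K.sm.continuous K.cpt (trf h f) _ (Sm_avg h K f) T]
    have e2 : T f = ∫ ξ, φ ξ * T f := by rw [integral_mul_const, K.int, one_mul]
    conv_lhs => rw [e2]
    rw [← integral_sub hi1 hi2]
    refine integral_congr_ae (Eventually.of_forall fun ξ => ?_)
    simp only [mul_sub]
  rw [e1, ← Real.norm_eq_abs, ofReal_norm]
  refine (enorm_integral_le_lintegral_enorm _).trans ?_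
  rw [← lintegral_const_mul' _ _ ENNReal.ofReal_ne_top,
    ← lintegral_indicator Metric.isClosed_closedBall.measurableSet]
  refine lintegral_mono fun ξ => ?_
  by_cases hξ : φ ξ = 0
  · simp [hξ]
  · have hξ' : ξ ∈ Metric.closedBall (0 : E m) δ := mem_closedBall_zero_iff.2 (K.supp ξ hξ)
    rw [indicator_of_mem hξ', ← ofReal_norm, norm_mul, Real.norm_eq_abs, Real.norm_eq_abs,
      abs_of_nonneg (K.nn ξ), ENNReal.ofReal_mul (K.nn ξ), ENNReal.ofReal_mul hL, mul_assoc]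
    exact mul_le_mul' (ENNReal.ofReal_le_ofReal (K.bd ξ))
      (est2 h K hδ hS hf hσ hρ hg (K.supp ξ hξ))

end

end Pool.Agent.H33.CD
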