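import Pool.Agent.H33.CD.Ret
import Pool.Graph.R_seed8.Y604.SY.Pull

/-!
# Forms on an embedded manifold and forms on a neighbourhood
-/

set_option autoImplicit false
set_option linter.unusedSectionVars false

open Set Filter Topology MeasureTheory Function
open scoped Manifold ContDiff RealInnerProductSpace

noncomputable section

namespace Pool.Agent.H33.CD

open Pool.Agent.Y501.SY Pool.Agent.Y455.SY

variable {d m : ℕ} {X : Type} [TopologicalSpace X] [ChartedSpace (E d) X]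

/-- the pull-back of a form by a map from a Euclidean space -/
def PB {k : ℕ} (P : E m → X) (σ : Form d X k) (w : E m) : (E m) [⋀^Fin k]→L[ℝ] ℝ :=
  (σ (P w)).compContinuousLinearMap (mfderiv (𝓡 m) (𝓡 d) P w)

/-- the restriction of a form on the Euclidean space -/
def FS {k : ℕ} (F : X → E m) (Θ : E m → (E m) [⋀^Fin k]→L[ℝ] ℝ) : Form d X k :=
  fun x => (Θ (F x)).compContinuousLinearMap (mfderiv (𝓡 d) (𝓡 m) F x)

/-- the tube around the manifold -/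
def tube (F : X → E m) (r : ℝ) : Set (E m) := {w | ∃ x, ‖w - F x‖ < r}

omit [TopologicalSpace X] [ChartedSpace (E d) X] in
theorem tube_open (F : X → E m) (r : ℝ) : IsOpen (tube F r) := by
  have h : tube F r = ⋃ x, Metric.ball (F x) r := by
    ext w
    simp only [mem_iUnion, Metric.mem_ball, dist_eq_norm]
    rfl
  rw [h]
  exact isOpen_iUnion fun x => Metric.isOpen_ball

theorem contDiffAt_pull {V V' : Type} [NormedAddCommGroup V] [NormedSpace ℝ V]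
    [NormedAddCommGroup V'] [NormedSpace ℝ V'] {k : ℕ} {w : V' → V' [⋀^Fin k]→L[ℝ] ℝ}
    {ψ : V → V'} {p : V} (h1 : ContDiffAt ℝ ∞ w (ψ p)) (h2 : ContDiffAt ℝ ∞ ψ p) :
    ContDiffAt ℝ ∞ (fun p => (w (ψ p)).compContinuousLinearMap (fderiv ℝ ψ p)) p := by
  have h3 : ContDiffAt ℝ ∞ (fun p => (w (ψ p), fderiv ℝ ψ p)) p :=
    (h1.comp p h2).prodMk (h2.fderiv_right (by simp))
  exact Pool.Agent.Y604.SY.contDiff_pull.contDiffAt.comp p h3

variable [IsManifold (𝓡 d) ∞ X]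

theorem Ret.on {F : X → E m} {P : E m → X} {r : ℝ} (h : Ret (d := d) F P r) :
    ContMDiffOn (𝓡 m) (𝓡 d) ∞ P (tube F r) :=
  fun w hw => by
    obtain ⟨x, hx⟩ := hw
    exact (h.smooth x w hx).contMDiffWithinAt

/-- the pull-back in a chart -/
theorem PB_loc {F : X → E m} {P : E m → X} {r : ℝ} (h : Ret (d := d) F P r) {w₀ : E m}
    (hw₀ : w₀ ∈ tube F r) :
    ContDiffAt ℝ ∞ (chartAt (E d) (P w₀) ∘ P) w₀ ∧ ∀ᶠ w in 𝓝 w₀, ∀ (k : ℕ) (σ : Form d X k),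
      P w ∈ (chartAt (E d) (P w₀)).source ∧
      PB P σ w = (pb (chartAt (E d) (P w₀)).symm σ
        ((chartAt (E d) (P w₀) ∘ P) w)).compContinuousLinearMap
          (fderiv ℝ (chartAt (E d) (P w₀) ∘ P) w) := by
  obtain ⟨c, hc⟩ : ∃ c, c = chartAt (E d) (P w₀) := ⟨_, rfl⟩
  rw [← hc]
  have hP := h.on
  have hU' : IsOpen (tube F r ∩ P ⁻¹' c.source) :=
    hP.continuousOn.isOpen_inter_preimage (tube_open F r) c.open_source
  have hp₀ : w₀ ∈ tube F r ∩ P ⁻¹' c.source := by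
    refine ⟨hw₀, ?_⟩
    rw [hc]
    exact mem_chart_source (E d) (P w₀)
  have hcs : ContMDiffOn (𝓡 d) (𝓡 d) ∞ c c.source := by
    rw [hc]
    exact contMDiffOn_chart
  have hct : ContMDiffOn (𝓡 d) (𝓡 d) ∞ c.symm c.target := by
    rw [hc]
    exact contMDiffOn_chart_symm
  have hψm : ContMDiffOn (𝓡 m) (𝓡 d) ∞ (c ∘ P) (tube F r ∩ P ⁻¹' c.source) :=
    hcs.comp (hP.mono inter_subset_left) fun p hp => hp.2
  have hψ : ContDiffOn ℝ ∞ (c ∘ P) (tube F r ∩ P ⁻¹' c.source) :=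
    contMDiffOn_iff_contDiffOn.1 hψm
  refine ⟨hψ.contDiffAt (hU'.mem_nhds hp₀), ?_⟩
  filter_upwards [hU'.mem_nhds hp₀] with w hw k σ
  refine ⟨hw.2, ?_⟩
  have hψp : MDifferentiableAt (𝓡 m) (𝓡 d) (c ∘ P) w :=
    ((hψm w hw).contMDiffAt (hU'.mem_nhds hw)).mdifferentiableAt (by simp)
  have hcp : MDifferentiableAt (𝓡 d) (𝓡 d) c.symm ((c ∘ P) w) :=
    ((hct _ (c.map_source hw.2)).contMDiffAt
      (c.open_target.mem_nhds (c.map_source hw.2))).mdifferentiableAt (by simp)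
  have h2 : P =ᶠ[𝓝 w] (c.symm ∘ (c ∘ P)) := by
    filter_upwards [hU'.mem_nhds hw] with u hu
    exact (c.left_inv hu.2).symm
  have h3 : (mfderiv (𝓡 m) (𝓡 d) P w : E m →L[ℝ] E d) =
      (mfderiv (𝓡 d) (𝓡 d) c.symm ((c ∘ P) w)).comp (fderiv ℝ (c ∘ P) w) := by
    have h4 : (mfderiv (𝓡 m) (𝓡 d) P w : E m →L[ℝ] E d) =
      mfderiv (𝓡 m) (𝓡 d) (c.symm ∘ (c ∘ P)) w := h2.mfderiv_eq
    rw [h4, mfderiv_comp w hcp hψp, mfderiv_eq_fderiv]
    rfl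
  have h5 : P w = c.symm ((c ∘ P) w) := (c.left_inv hw.2).symm
  unfold PB pb
  ext v
  change (σ (P w) : (E d) [⋀^Fin k]→L[ℝ] ℝ)
      (fun i => (mfderiv (𝓡 m) (𝓡 d) P w : E m →L[ℝ] E d) (v i)) =
    (σ (c.symm ((c ∘ P) w)) : (E d) [⋀^Fin k]→L[ℝ] ℝ)
      (fun i => (mfderiv (𝓡 d) (𝓡 d) c.symm ((c ∘ P) w) : E d →L[ℝ] E d)
        ((fderiv ℝ (c ∘ P) w : E m →L[ℝ] E d) (v i)))
  rw [h3]
  have h6 : (σ (P w) : (E d) [⋀^Fin k]→L[ℝ] ℝ) = σ (c.symm ((c ∘ P) w)) := by rw [← h5]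
  rw [h6]
  rfl

theorem PB_smooth {F : X → E m} {P : E m → X} {r : ℝ} (h : Ret (d := d) F P r) {k : ℕ}
    {σ : Form d X k} (hσ : IsSmooth σ) : ContDiffOn ℝ ∞ (PB P σ) (tube F r) := by
  intro w hw
  obtain ⟨h1, h2⟩ := PB_loc h hw
  obtain ⟨c, hc⟩ : ∃ c, c = chartAt (E d) (P w) := ⟨_, rfl⟩
  rw [← hc] at h1 h2
  have hct : ContMDiffOn (𝓡 d) (𝓡 d) ∞ c.symm c.target := by
    rw [hc]
    exact contMDiffOn_chart_symm
  have h3 : ContDiffAt ℝ ∞ (pb c.symm σ) ((c ∘ P) w) :=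
    (hσ _ _ c.open_target hct).contDiffAt (c.open_target.mem_nhds
      (c.map_source (h2.self_of_nhds k σ).1))
  refine ((contDiffAt_pull h3 h1).congr_of_eventuallyEq ?_).contDiffWithinAt
  filter_upwards [h2] with u hu
  exact (hu k σ).2

theorem PB_D {F : X → E m} {P : E m → X} {r : ℝ} (h : Ret (d := d) F P r) {k : ℕ}
    {σ : Form d X k} (hσ : IsSmooth σ) {ρ : Form d X (k + 1)} (hρ : IsD σ ρ) {w : E m}
    (hw : w ∈ tube F r) : extDeriv (PB P σ) w = PB P ρ w := by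
  obtain ⟨h1, h2⟩ := PB_loc h hw
  obtain ⟨c, hc⟩ : ∃ c, c = chartAt (E d) (P w) := ⟨_, rfl⟩
  rw [← hc] at h1 h2
  have hct : ContMDiffOn (𝓡 d) (𝓡 d) ∞ c.symm c.target := by
    rw [hc]
    exact contMDiffOn_chart_symm
  have hmem : (c ∘ P) w ∈ c.target := c.map_source (h2.self_of_nhds k σ).1
  have h3 : ContDiffAt ℝ ∞ (pb c.symm σ) ((c ∘ P) w) :=
    (hσ _ _ c.open_target hct).contDiffAt (c.open_target.mem_nhds hmem)
  have h4 : PB P σ =ᶠ[𝓝 w] fun u => (pb c.symm σ ((c ∘ P) u)).compContinuousLinearMap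
      (fderiv ℝ (c ∘ P) u) := by
    filter_upwards [h2] with u hu
    exact (hu k σ).2
  rw [h4.extDeriv_eq, extDeriv_pullback (r := ∞) (h3.differentiableAt (by simp)) h1 (by
    rw [minSmoothness_of_isRCLikeNormedField]
    exact WithTop.coe_le_coe.2 le_top), hρ _ _ c.open_target hct _ hmem,
    (h2.self_of_nhds (k + 1) ρ).2]

/-- the restriction in terms of maps from the model space -/
theorem FS_loc {F : X → E m} (hF : ContMDiff (𝓡 d) (𝓡 m) ∞ F) {U : Set (E d)} {φ : E d → X}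
    (hU : IsOpen U) (hφ : ContMDiffOn (𝓡 d) (𝓡 d) ∞ φ U) {p : E d} (hp : p ∈ U) {k : ℕ}
    (Θ : E m → (E m) [⋀^Fin k]→L[ℝ] ℝ) :
    pb φ (FS F Θ) p = (Θ ((F ∘ φ) p)).compContinuousLinearMap (fderiv ℝ (F ∘ φ) p) := by
  have h1 : MDifferentiableAt (𝓡 d) (𝓡 m) F (φ p) := hF.mdifferentiableAt (by simp)
  have h2 : MDifferentiableAt (𝓡 d) (𝓡 d) φ p :=
    ((hφ p hp).contMDiffAt (hU.mem_nhds hp)).mdifferentiableAt (by simp)
  have h3 : (fderiv ℝ (F ∘ φ) p : E d →L[ℝ] E m) =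
      (mfderiv (𝓡 d) (𝓡 m) F (φ p)).comp (mfderiv (𝓡 d) (𝓡 d) φ p) := by
    rw [← mfderiv_comp p h1 h2, mfderiv_eq_fderiv]
  rw [h3]
  rfl

theorem FS_smooth {F : X → E m} (hF : ContMDiff (𝓡 d) (𝓡 m) ∞ F) {k : ℕ}
    {Θ : E m → (E m) [⋀^Fin k]→L[ℝ] ℝ} (hΘ : ContDiff ℝ ∞ Θ) : IsSmooth (FS (d := d) F Θ) := by
  intro U φ hU hφ p hp
  have h1 : ContDiffOn ℝ ∞ (F ∘ φ) U := contMDiffOn_iff_contDiffOn.1 (hF.comp_contMDiffOn hφ)
  have h2 : ContDiffAt ℝ ∞ (F ∘ φ) p := h1.contDiffAt (hU.mem_nhds hp)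
  refine ((contDiffAt_pull (hΘ.contDiffAt) h2).congr_of_eventuallyEq ?_).contDiffWithinAt
  filter_upwards [hU.mem_nhds hp] with q hq
  exact FS_loc hF hU hφ hq Θ

theorem FS_D {F : X → E m} (hF : ContMDiff (𝓡 d) (𝓡 m) ∞ F) {k : ℕ}
    {Θ : E m → (E m) [⋀^Fin k]→L[ℝ] ℝ} (hΘ : ContDiff ℝ ∞ Θ) :
    IsD (FS (d := d) F Θ) (FS F (extDeriv Θ)) := by
  intro U φ hU hφ p hp
  have h1 : ContDiffOn ℝ ∞ (F ∘ φ) U := contMDiffOn_iff_contDiffOn.1 (hF.comp_contMDiffOn hφ)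
  have h2 : ContDiffAt ℝ ∞ (F ∘ φ) p := h1.contDiffAt (hU.mem_nhds hp)
  have h4 : pb φ (FS F Θ) =ᶠ[𝓝 p] fun q => (Θ ((F ∘ φ) q)).compContinuousLinearMap
      (fderiv ℝ (F ∘ φ) q) := by
    filter_upwards [hU.mem_nhds hp] with q hq
    exact FS_loc hF hU hφ hq Θ
  rw [h4.extDeriv_eq, extDeriv_pullback (r := ∞) (hΘ.differentiable (by simp)).differentiableAt
    h2 (by
    rw [minSmoothness_of_isRCLikeNormedField]
    exact WithTop.coe_le_coe.2 le_top), FS_loc hF hU hφ hp]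

end Pool.Agent.H33.CD
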