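import Pool.Agent.H33.CD.Est

/-!
# Taming forms with a small exterior derivative
-/

set_option autoImplicit false
set_option linter.unusedSectionVars false
set_option linter.unusedVariables false

open Set Filter Topology MeasureTheory Function
open scoped Manifold ContDiff RealInnerProductSpace Convolution ENNReal NNReal

noncomputable section

namespace Pool.Agent.H33.CD

open Pool.Agent.Y501.SY Pool.Agent.Y455.SY Pool.Agent.H33.TM Pool.Agent.Q235.SZ

section

variable {d m : ℕ} {X : Type} [TopologicalSpace X] [ChartedSpace (E d) X]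
  [IsManifold (𝓡 d) ∞ X] [CompactSpace X]
  {F : X → E m} {P : E m → X} {r : ℝ} {χ : E m → ℝ} {B : ℝ} {φ : E m → ℝ} {δ L : ℝ}

/-- the lower bound -/
theorem low_est [T2Space X] [MeasurableSpace X] [BorelSpace X] (h : Dat (d := d) F P r χ B)
    (hFd : ∀ x, Function.Injective (mfderiv (𝓡 d) (𝓡 m) F x)) {J : End d X}
    (hJ : IsAlmostComplex J) {ν : Measure X} {T : C(X, Aw m) →L[ℝ] ℝ} {b : ℝ}
    (hS : SMeas h J ν T b) {D : ℝ} (hD : 0 ≤ D) (hdens : Dens F ν D) {f : C(X, Aw m)}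
    {σ : Form d X 2} (hσ : IsSmooth σ) (hf : Rep F P f σ) {ι : Type} {x : ι → X} {r B : ι → ℝ}
    (hr : ∀ i, 0 < r i) (hB : ∀ i, 0 ≤ B i) {ε : ℝ}
    (hsum : ∀ s : Finset ι, ∑ i ∈ s, (1 + B i) * r i ^ 2 ≤ ε)
    (hpos : ∀ y, (∀ v : TangentSpace (𝓡 d) y, nm F y v ^ 2 ≤ σ y ![v, J y v]) ∨
      ∃ i, ‖F y - F (x i)‖ < r i ∧
        ∀ v : TangentSpace (𝓡 d) y, -B i * nm F y v ^ 2 ≤ σ y ![v, J y v]) :
    (ν univ).toReal * (1 / 2 - D * ε) ≤ T f := by
  classical
  have hF := h.sm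
  have hfin := hS.fin
  obtain ⟨U, hU⟩ : ∃ U : Option ι → Set X, U = fun o => Option.casesOn o {y | Gt F J σ (1 / 2) y}
      (fun i => {y | ‖F y - F (x i)‖ < r i} ∩ {y | Gt F J σ (-(B i + 1 / 2)) y}) := ⟨_, rfl⟩
  have hU0 : U none = {y | Gt F J σ (1 / 2) y} := by rw [hU]
  have hU1 : ∀ i, U (some i) = {y | ‖F y - F (x i)‖ < r i} ∩
      {y | Gt F J σ (-(B i + 1 / 2)) y} := fun i => by rw [hU]
  have hUo : ∀ o, IsOpen (U o) := by
    rintro (_ | i)
    · rw [hU0]
      exact open_gt hF hJ hσ _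
    · rw [hU1]
      refine IsOpen.inter ?_ (open_gt hF hJ hσ _)
      exact isOpen_lt ((hF.continuous.sub continuous_const).norm) continuous_const
  have hcov : (univ : Set X) ⊆ ⋃ o, U o := by
    intro y _
    rcases hpos y with h | ⟨i, h1, h2⟩
    · refine mem_iUnion.2 ⟨none, ?_⟩
      rw [hU0]
      intro v hv
      have h3 := nm_pos hFd hv
      refine lt_of_lt_of_le ?_ (h v)
      have : 0 < nm F y v ^ 2 := by positivity
      linarith
    · refine mem_iUnion.2 ⟨some i, ?_⟩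
      rw [hU1]
      refine ⟨h1, fun v hv => ?_⟩
      have h3 := nm_pos hFd hv
      refine lt_of_lt_of_le ?_ (h2 v)
      have : 0 < nm F y v ^ 2 := by positivity
      linarith
  obtain ⟨t, ht⟩ := isCompact_univ.elim_finite_subcover U hUo hcov
  obtain ⟨s, hs⟩ : ∃ s, s = t.eraseNone := ⟨_, rfl⟩
  have hms : ∀ i, MeasurableSet (FB F (x i) (r i)) := fun i =>
    (FB_closed hF.continuous _ _).measurableSet
  obtain ⟨κ, hκ⟩ : ∃ κ : X → ℝ, κ = fun y =>
    1 / 2 - ∑ i ∈ s, (FB F (x i) (r i)).indicator (fun _ => 1 + B i) y := ⟨_, rfl⟩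
  have hii : ∀ i ∈ s, Integrable ((FB F (x i) (r i)).indicator fun _ => 1 + B i) ν := fun i _ =>
    (integrable_const _).indicator (hms i)
  have hκi : Integrable κ ν := by
    rw [hκ]
    exact (integrable_const _).sub (integrable_finsetSum s hii)
  have hnn : ∀ i y, 0 ≤ (FB F (x i) (r i)).indicator (fun _ => 1 + B i) y := fun i y =>
    indicator_nonneg (fun _ _ => by linarith [hB i]) y
  have hlow : ∀ (y : X) (v : TangentSpace (𝓡 d) y), κ y * nm F y v ^ 2 ≤ σ y ![v, J y v] := by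
    intro y v
    rcases eq_or_ne v 0 with rfl | hv
    · have e1 : nm F y (0 : TangentSpace (𝓡 d) y) = 0 := by
        unfold nm
        rw [map_zero]
        exact norm_zero
      have e2 : σ y ![(0 : TangentSpace (𝓡 d) y), J y 0] = 0 :=
        (σ y).map_coord_zero (0 : Fin 2) rfl
      rw [e1, e2]
      simp
    · have hy := ht (mem_univ y)
      rw [mem_iUnion₂] at hy
      obtain ⟨o, ho, hyo⟩ := hy
      have hn2 : 0 ≤ nm F y v ^ 2 := sq_nonneg _
      rcases o with _ | i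
      · rw [hU0] at hyo
        refine le_trans (mul_le_mul_of_nonneg_right ?_ hn2) (hyo v hv).le
        rw [hκ]
        have := Finset.sum_nonneg fun i (_ : i ∈ s) => hnn i y
        dsimp only
        linarith
      · rw [hU1] at hyo
        refine le_trans (mul_le_mul_of_nonneg_right ?_ hn2) (hyo.2 v hv).le
        have his : i ∈ s := by
          rw [hs, Finset.mem_eraseNone]
          exact ho
        have h1 := Finset.single_le_sum (f := fun i =>
          (FB F (x i) (r i)).indicator (fun _ => 1 + B i) y) (fun j _ => hnn j y) his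
        have hyb : y ∈ FB F (x i) (r i) := by
          have h0 : ‖F y - F (x i)‖ < r i := hyo.1
          exact h0.le
        have h2 : (FB F (x i) (r i)).indicator (fun _ => 1 + B i) y = 1 + B i :=
          indicator_of_mem hyb _
        rw [hκ]
        dsimp only at h1 ⊢
        rw [h2] at h1
        linarith
  refine le_trans ?_ (hS.low f σ κ hf hκi hlow)
  rw [hκ, integral_sub (integrable_const _) (integrable_finsetSum s hii),
    integral_finsetSum s hii, integral_const]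
  have hNreal : ν.real univ = (ν univ).toReal := rfl
  obtain ⟨N, hN⟩ : ∃ N, N = (ν univ).toReal := ⟨_, rfl⟩
  have hN0 : 0 ≤ N := by rw [hN]; exact ENNReal.toReal_nonneg
  rw [hNreal, ← hN, smul_eq_mul]
  have hterm : ∀ i ∈ s, ∫ y, (FB F (x i) (r i)).indicator (fun _ => 1 + B i) y ∂ν ≤
      D * N * ((1 + B i) * r i ^ 2) := by
    intro i _
    rw [integral_indicator (hms i), setIntegral_const, smul_eq_mul]
    have h1 := hdens (x i) (r i) (hr i)
    have h2 : ν.real (FB F (x i) (r i)) ≤ D * r i ^ 2 * N := by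
      have h3 := ENNReal.toReal_mono (ENNReal.mul_ne_top ENNReal.ofReal_ne_top
        (measure_ne_top ν univ)) h1
      rw [ENNReal.toReal_mul, ENNReal.toReal_ofReal (by positivity), ← hN] at h3
      exact h3
    have h4 : 0 ≤ 1 + B i := by linarith [hB i]
    calc _ ≤ D * r i ^ 2 * N * (1 + B i) := mul_le_mul_of_nonneg_right h2 h4
      _ = _ := by ring
  have h5 := Finset.sum_le_sum hterm
  rw [← Finset.mul_sum] at h5
  have h6 : D * N * ∑ i ∈ s, (1 + B i) * r i ^ 2 ≤ D * N * ε :=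
    mul_le_mul_of_nonneg_left (hsum s) (by positivity)
  nlinarith

theorem main_defect (hd : 4 ≤ d) [T2Space X] [MeasurableSpace X] [BorelSpace X]
    (hF : ContMDiff (𝓡 d) (𝓡 m) ∞ F) (hFi : Function.Injective F)
    (hFd : ∀ x, Function.Injective (mfderiv (𝓡 d) (𝓡 m) F x)) {J : End d X}
    (hJ : IsAlmostComplex J) (hol : LocHol J) {p : ℝ} (hp : (d : ℝ) - 2 < p) :
    ∃ ε : ℝ, 0 < ε ∧ ∀ (σ : Form d X 2) (ρ : Form d X 3) (g : X → ℝ), IsSmooth σ → IsD σ ρ →
      Measurable g → Bd3 F ρ g →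
      ∫⁻ x, ENNReal.ofReal (g x) ^ p ∂(area d F) ≤ ENNReal.ofReal ε →
      ∀ (ι : Type) (x : ι → X) (r B : ι → ℝ), (∀ i, 0 < r i) → (∀ i, 0 ≤ B i) →
      (∀ s : Finset ι, ∑ i ∈ s, (1 + B i) * r i ^ 2 ≤ ε) →
      (∀ y, (∀ v : TangentSpace (𝓡 d) y, nm F y v ^ 2 ≤ σ y ![v, J y v]) ∨
        ∃ i, ‖F y - F (x i)‖ < r i ∧
          ∀ v : TangentSpace (𝓡 d) y, -B i * nm F y v ^ 2 ≤ σ y ![v, J y v]) →
      ∃ τ : Form d X 2, IsSmooth τ ∧ IsClosedForm τ ∧ ∀ y, TamesAt τ J y := by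
  by_cases hun : ∃ σ : Form d X 2, IsSmooth σ ∧ IsClosedForm σ ∧ ∀ y, TamesAt σ J y
  · exact ⟨1, one_pos, fun _ _ _ _ _ _ _ _ _ _ _ _ _ _ _ _ => hun⟩
  rcases isEmpty_or_nonempty X with hX | hX
  · exact absurd ⟨0, IsSmooth.zero, IsD.zero, fun y => hX.elim y⟩ hun
  have hd' : (4 : ℝ) ≤ d := by exact_mod_cast hd
  have hp1 : 1 < p := by linarith
  have hp0 : 0 < p := by linarith
  have hsc := sec_count hF.continuous hFi
  obtain ⟨P, R, hret, hPm⟩ := exists_ret_meas hF hFi hFd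
  obtain ⟨χ, B, h⟩ := exists_dat hret hF
  obtain ⟨ν, T, b, hS⟩ := exists_SM h hFi hFd hJ hun
  obtain ⟨D, hD, hdens⟩ := SM_dens h hFi hFd hJ hol hS
  obtain ⟨Ccr, hCcr, hcr⟩ := closed_range h
  have hfin := hS.fin
  obtain ⟨t, rr, hat⟩ := exists_atl hF hFi hFd
  have hareafin : IsFiniteMeasure (area d F) := ⟨area_finite hF.continuous hFi hat⟩
  obtain ⟨ρ₀, A, hρ₀, hA, harea⟩ := area_unif hF.continuous hFi hat
  obtain ⟨C, s₀, hs₀, hC, hpot1, hpot1'⟩ := pot1 hret hF hFi hFd hPm hρ₀ hA.le harea hp1 hD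
  obtain ⟨δ, hδ⟩ : ∃ δ, δ = min s₀ (R / 4) := ⟨_, rfl⟩
  have hRpos := hret.pos
  have hδ0 : 0 < δ := by rw [hδ]; exact lt_min hs₀ (by linarith)
  have hδs : δ ≤ s₀ := by rw [hδ]; exact min_le_left _ _
  have hδR : δ < R / 2 := by
    have : δ ≤ R / 4 := by rw [hδ]; exact min_le_right _ _
    linarith
  obtain ⟨φ, L, K⟩ := exists_kern m hδ0
  obtain ⟨C₂, hC₂, hpot2⟩ := pot2 hret hF hPm hC hp hp1 hpot1 hδ0 hδs
  obtain ⟨C₁, hC₁, hpot3⟩ := hpot1' δ hδ0 hδs
  have hL := kern_L K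
  have hB := h.B1
  have hb := hS.b0
  obtain ⟨N, hN⟩ : ∃ N, N = (ν univ).toReal := ⟨_, rfl⟩
  have hN0 : 0 < N := by
    rw [hN]
    exact ENNReal.toReal_pos hS.ne (measure_ne_top _ _)
  have hNe : ν univ = ENNReal.ofReal N := by
    rw [hN, ENNReal.ofReal_toReal (measure_ne_top ν univ)]
  obtain ⟨Q, hQ⟩ : ∃ Q, Q = ‖T‖ * (Ccr * (B ^ 3 * (L * B ^ 3 * C₁))) +
    L * (b * (B ^ 2 * (B ^ 3 * δ))) * (C₂ * N) := ⟨_, rfl⟩
  have hQ0 : 0 ≤ Q := by rw [hQ]; positivity
  obtain ⟨η, hη⟩ : ∃ η, η = N / (8 * (Q + 1)) := ⟨_, rfl⟩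
  have hη0 : 0 < η := by rw [hη]; positivity
  refine ⟨min (η ^ p) (1 / (4 * (D + 1))), lt_min (Real.rpow_pos_of_pos hη0 _) (by positivity), ?_⟩
  intro σ ρ g hσ hρ hgm hg hgint ι x r' B' hr hB' hsum hpos
  exfalso
  obtain ⟨f, hf⟩ : ∃ f, f = mk hret hF hσ := ⟨_, rfl⟩
  have hrep : Rep F P f σ := by
    rw [hf]
    exact mk_rep hret hF hσ
  obtain ⟨G, hG⟩ : ∃ G, G = (∫⁻ y, ENNReal.ofReal (g y) ^ p ∂(area d F)) ^ (1 / p) := ⟨_, rfl⟩
  have hGη : G ≤ ENNReal.ofReal η := by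
    rw [hG]
    refine (ENNReal.rpow_le_rpow (hgint.trans (ENNReal.ofReal_le_ofReal (min_le_left _ _)))
      (by positivity)).trans (le_of_eq ?_)
    rw [ENNReal.ofReal_rpow_of_nonneg (by positivity) (by positivity), ← Real.rpow_mul hη0.le,
      mul_one_div_cancel hp0.ne', Real.rpow_one]
  have hgm' : Measurable fun y => ENNReal.ofReal (g y) := hgm.ennreal_ofReal
  -- first estimate
  have h1 := est1 h K hδR hCcr hcr T hS.kill hrep hσ hρ hg (M := C₁ * η) (by positivity) fun x => by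
    refine (hpot3 _ hgm' x).trans ?_
    rw [ENNReal.ofReal_mul hC₁, ← hG]
    exact mul_le_mul_right hGη _
  -- second estimate
  have h2 := est3 h K hδR hS hrep hσ hρ hg
  have h3 := h2.trans (mul_le_mul_right (hpot2 ν hdens _ hgm') _)
  rw [← hG, hNe] at h3
  have h4 : ENNReal.ofReal |T (Sm h K f) - T f| ≤
      ENNReal.ofReal (L * (b * (B ^ 2 * (B ^ 3 * δ))) * (C₂ * (η * N))) := by
    refine h3.trans ?_
    rw [ENNReal.ofReal_mul (q := C₂ * (η * N)) (by positivity),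
      ENNReal.ofReal_mul (q := η * N) hC₂, ENNReal.ofReal_mul (q := N) hη0.le]
    exact mul_le_mul_right (mul_le_mul_right (mul_le_mul_left hGη _) _) _
  have h5 : |T (Sm h K f) - T f| ≤ L * (b * (B ^ 2 * (B ^ 3 * δ))) * (C₂ * (η * N)) :=
    (ENNReal.ofReal_le_ofReal_iff (by positivity)).1 h4
  have h6 : |T f| ≤ Q * η := by
    have h7 : |T f| ≤ |T (Sm h K f)| + |T (Sm h K f) - T f| := by
      have := abs_sub (T (Sm h K f)) (T (Sm h K f) - T f)
      rwa [sub_sub_cancel] at this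
    refine (h7.trans (add_le_add h1 h5)).trans (le_of_eq ?_)
    rw [hQ]
    ring
  have h8 : Q * η < N / 4 := by
    rw [hη, mul_div_assoc', div_lt_div_iff₀ (by positivity) (by norm_num)]
    nlinarith
  have h9 := low_est h hFd hJ hS hD hdens hσ hrep hr hB' hsum hpos
  rw [← hN] at h9
  have h10 : D * min (η ^ p) (1 / (4 * (D + 1))) ≤ 1 / 4 := by
    refine (mul_le_mul_of_nonneg_left (min_le_right _ _) hD).trans ?_
    rw [mul_one_div, div_le_div_iff₀ (by positivity) (by norm_num)]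
    linarith
  have h11 := le_abs_self (T f)
  nlinarith

end

end Pool.Agent.H33.CD
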