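import Mathlib

/-!
# Distance to a subspace, and averages of curves
-/

set_option autoImplicit false
set_option linter.unusedSectionVars false

open Set Filter Topology MeasureTheory Function

noncomputable section

namespace Pool.Agent.H33.CD

section

variable {V : Type} [NormedAddCommGroup V] [NormedSpace ℝ V]

/-- the distance to a subspace -/
def qn (Z : Submodule ℝ V) (v : V) : ℝ := Metric.infDist v (Z : Set V)

theorem Zne (Z : Submodule ℝ V) : (Z : Set V).Nonempty := ⟨0, Z.zero_mem⟩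

theorem qn_nonneg (Z : Submodule ℝ V) (v : V) : 0 ≤ qn Z v := Metric.infDist_nonneg

theorem qn_le (Z : Submodule ℝ V) (v : V) {z : V} (hz : z ∈ Z) : qn Z v ≤ ‖v - z‖ := by
  rw [← dist_eq_norm]
  exact Metric.infDist_le_dist_of_mem hz

theorem qn_norm (Z : Submodule ℝ V) (v : V) : qn Z v ≤ ‖v‖ := by
  have := qn_le Z v Z.zero_mem
  rwa [sub_zero] at this

theorem qn_lt (Z : Submodule ℝ V) (v : V) {ε : ℝ} (hε : 0 < ε) :
    ∃ z ∈ Z, ‖v - z‖ < qn Z v + ε := by
  obtain ⟨z, hz, h⟩ := (Metric.infDist_lt_iff (Zne Z)).1 (lt_add_of_pos_right (qn Z v) hε)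
  exact ⟨z, hz, by rwa [← dist_eq_norm]⟩

theorem qn_zero (Z : Submodule ℝ V) {z : V} (hz : z ∈ Z) : qn Z z = 0 := by
  refine le_antisymm ?_ (qn_nonneg _ _)
  have := qn_le Z z hz
  rwa [sub_self, norm_zero] at this

theorem qn_add (Z : Submodule ℝ V) (u v : V) : qn Z (u + v) ≤ qn Z u + qn Z v := by
  refine le_of_forall_pos_le_add fun ε hε => ?_
  obtain ⟨y, hy, h1⟩ := qn_lt Z u (half_pos hε)
  obtain ⟨z, hz, h2⟩ := qn_lt Z v (half_pos hε)
  have h3 := qn_le Z (u + v) (Z.add_mem hy hz)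
  have h4 : u + v - (y + z) = (u - y) + (v - z) := by abel
  rw [h4] at h3
  have h5 := norm_add_le (u - y) (v - z)
  linarith

theorem qn_smul_le (Z : Submodule ℝ V) (c : ℝ) (v : V) : qn Z (c • v) ≤ |c| * qn Z v := by
  refine le_of_forall_pos_le_add fun ε hε => ?_
  obtain ⟨z, hz, h2⟩ := qn_lt Z v (ε := ε / (|c| + 1)) (by positivity)
  have h3 := qn_le Z (c • v) (Z.smul_mem c hz)
  rw [← smul_sub, norm_smul, Real.norm_eq_abs] at h3
  have h4 : |c| * ‖v - z‖ ≤ |c| * (qn Z v + ε / (|c| + 1)) :=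
    mul_le_mul_of_nonneg_left h2.le (abs_nonneg c)
  have h5 : |c| * (ε / (|c| + 1)) ≤ ε := by
    rw [mul_div_assoc', div_le_iff₀ (by positivity)]
    nlinarith [abs_nonneg c]
  linarith

theorem qn_smul (Z : Submodule ℝ V) (c : ℝ) (v : V) : qn Z (c • v) = |c| * qn Z v := by
  refine le_antisymm (qn_smul_le Z c v) ?_
  rcases eq_or_ne c 0 with rfl | hc
  · rw [abs_zero, zero_mul]
    exact qn_nonneg _ _
  · have h := qn_smul_le Z c⁻¹ (c • v)
    rw [smul_smul, inv_mul_cancel₀ hc, one_smul, abs_inv] at h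
    have h0 : 0 < |c| := abs_pos.2 hc
    calc |c| * qn Z v ≤ |c| * (|c|⁻¹ * qn Z (c • v)) := mul_le_mul_of_nonneg_left h h0.le
      _ = qn Z (c • v) := by rw [← mul_assoc, mul_inv_cancel₀ h0.ne', one_mul]

theorem qn_neg (Z : Submodule ℝ V) (v : V) : qn Z (-v) = qn Z v := by
  have h := qn_smul Z (-1) v
  rwa [neg_one_smul, abs_neg, abs_one, one_mul] at h

theorem qn_congr (Z : Submodule ℝ V) {u v : V} (h : u - v ∈ Z) : qn Z u = qn Z v := by
  refine le_antisymm ?_ ?_
  · have h1 := qn_add Z (u - v) v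
    rw [sub_add_cancel, qn_zero Z h] at h1
    linarith
  · have h2 : v - u ∈ Z := by
      have := Z.neg_mem h
      rwa [neg_sub] at this
    have h1 := qn_add Z (v - u) u
    rw [sub_add_cancel, qn_zero Z h2] at h1
    linarith

theorem qn_cont (Z : Submodule ℝ V) : Continuous (qn Z) := Metric.continuous_infDist_pt _

theorem T_le_qn (Z : Submodule ℝ V) (T : V →L[ℝ] ℝ) (hT : ∀ z ∈ Z, T z = 0) (v : V) :
    |T v| ≤ ‖T‖ * qn Z v := by
  refine le_of_forall_pos_le_add fun ε hε => ?_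
  obtain ⟨z, hz, h1⟩ := qn_lt Z v (ε := ε / (‖T‖ + 1)) (by positivity)
  have h2 : T v = T (v - z) := by rw [map_sub, hT z hz, sub_zero]
  have h3 := T.le_opNorm (v - z)
  rw [Real.norm_eq_abs, ← h2] at h3
  have h4 : ‖T‖ * ‖v - z‖ ≤ ‖T‖ * (qn Z v + ε / (‖T‖ + 1)) :=
    mul_le_mul_of_nonneg_left h1.le (norm_nonneg T)
  have h5 : ‖T‖ * (ε / (‖T‖ + 1)) ≤ ε := by
    rw [mul_div_assoc', div_le_iff₀ (by positivity)]
    nlinarith [norm_nonneg T]
  linarith

/-- averages with respect to a probability measure -/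
theorem qn_integral [CompleteSpace V] (Z : Submodule ℝ V) {α : Type} [MeasurableSpace α]
    {ν : Measure α} [IsProbabilityMeasure ν] {c : α → V} (hc : Integrable c ν) {M : ℝ}
    (h : ∀ᵐ a ∂ν, qn Z (c a) ≤ M) : qn Z (∫ a, c a ∂ν) ≤ M := by
  have h1 : Convex ℝ {v | qn Z v ≤ M} := by
    intro u hu v hv a b ha hb hab
    have h2 := qn_add Z (a • u) (b • v)
    rw [qn_smul, qn_smul, abs_of_nonneg ha, abs_of_nonneg hb] at h2
    have hu' : qn Z u ≤ M := hu
    have hv' : qn Z v ≤ M := hv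
    change qn Z (a • u + b • v) ≤ M
    have h3 := mul_le_mul_of_nonneg_left hu' ha
    have h4 := mul_le_mul_of_nonneg_left hv' hb
    have h5 : a * M + b * M = M := by rw [← add_mul, hab, one_mul]
    linarith
  have h2 : IsClosed {v | qn Z v ≤ M} := isClosed_le (qn_cont Z) continuous_const
  exact h1.integral_mem h2 h hc

end

section

variable {X W : Type} [TopologicalSpace X] [CompactSpace X] [NormedAddCommGroup W]
  [NormedSpace ℝ W] [CompleteSpace W]

/-- the difference of the ends of a curve of continuous functions -/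
theorem gen_curve (c : C(ℝ, C(X, W))) (a : ℝ → X → W) (u v : C(X, W))
    (h : ∀ x s, HasDerivAt (fun s => a s x) (-(c s x)) s) (hu : ∀ x, u x = a 1 x)
    (hv : ∀ x, v x = a 0 x) : u - v = -∫ s in (0 : ℝ)..1, c s := by
  have hci : IntervalIntegrable (fun s => c s) volume 0 1 := c.continuous.intervalIntegrable 0 1
  ext1 x
  have h1 : (∫ s in (0 : ℝ)..1, c s) x = ∫ s in (0 : ℝ)..1, c s x :=
    ((ContinuousMap.evalCLM ℝ x).intervalIntegral_comp_comm hci).symm
  rw [ContinuousMap.sub_apply, ContinuousMap.neg_apply, h1]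
  have h3 := intervalIntegral.integral_eq_sub_of_hasDerivAt (a := (0 : ℝ)) (b := 1)
    (fun s _ => h x s) (by
      refine Continuous.intervalIntegrable ?_ 0 1
      exact ((ContinuousMap.evalCLM ℝ x).continuous.comp c.continuous).neg)
  rw [intervalIntegral.integral_neg] at h3
  rw [h3, hu, hv]

theorem curve_T (c : C(ℝ, C(X, W))) (a : ℝ → X → W) (u v : C(X, W))
    (h : ∀ x s, HasDerivAt (fun s => a s x) (-(c s x)) s) (hu : ∀ x, u x = a 1 x)
    (hv : ∀ x, v x = a 0 x) (T : C(X, W) →L[ℝ] ℝ) :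
    T u - T v = -∫ s in (0 : ℝ)..1, T (c s) := by
  have hci : IntervalIntegrable (fun s => c s) volume 0 1 := c.continuous.intervalIntegrable 0 1
  rw [← map_sub, gen_curve c a u v h hu hv, map_neg, T.intervalIntegral_comp_comm hci]

theorem curve_qn (c : C(ℝ, C(X, W))) (a : ℝ → X → W) (u v : C(X, W))
    (h : ∀ x s, HasDerivAt (fun s => a s x) (-(c s x)) s) (hu : ∀ x, u x = a 1 x)
    (hv : ∀ x, v x = a 0 x) (Z : Submodule ℝ C(X, W)) {M : ℝ}
    (hM : ∀ s ∈ Ioc (0 : ℝ) 1, qn Z (c s) ≤ M) : qn Z (u - v) ≤ M := by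
  rw [gen_curve c a u v h hu hv, qn_neg, intervalIntegral.integral_of_le zero_le_one]
  have hp : IsProbabilityMeasure ((volume : Measure ℝ).restrict (Ioc 0 1)) := by
    constructor
    rw [Measure.restrict_apply_univ, Real.volume_Ioc, sub_zero, ENNReal.ofReal_one]
  refine qn_integral Z ?_ ?_
  · exact (c.continuous.intervalIntegrable 0 1).1
  · filter_upwards [ae_restrict_mem measurableSet_Ioc] with s hs
    exact hM s hs

/-- averages over a kernel -/
theorem avg_int {Y : Type} [TopologicalSpace Y] [MeasurableSpace Y] [BorelSpace Y]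
    {μ : Measure Y} [IsFiniteMeasureOnCompacts μ] [SecondCountableTopology Y]
    {φ : Y → ℝ} (hφ : Continuous φ) (hφc : HasCompactSupport φ)
    (c : C(Y, C(X, W))) : Integrable (fun y => φ y • c y) μ :=
  (hφ.smul c.continuous).integrable_of_hasCompactSupport hφc.smul_right

theorem avg_eq {Y : Type} [TopologicalSpace Y] [MeasurableSpace Y] [BorelSpace Y]
    {μ : Measure Y} [IsFiniteMeasureOnCompacts μ] [SecondCountableTopology Y]
    {φ : Y → ℝ} (hφ : Continuous φ) (hφc : HasCompactSupport φ)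
    (c : C(Y, C(X, W))) (S : C(X, W)) (hS : ∀ x, S x = ∫ y, φ y • c y x ∂μ) :
    S = ∫ y, φ y • c y ∂μ := by
  ext1 x
  rw [hS]
  exact (ContinuousMap.evalCLM ℝ x).integral_comp_comm (avg_int (μ := μ) hφ hφc c)

theorem avg_T {Y : Type} [TopologicalSpace Y] [MeasurableSpace Y] [BorelSpace Y]
    {μ : Measure Y} [IsFiniteMeasureOnCompacts μ] [SecondCountableTopology Y]
    {φ : Y → ℝ} (hφ : Continuous φ) (hφc : HasCompactSupport φ)
    (c : C(Y, C(X, W))) (S : C(X, W)) (hS : ∀ x, S x = ∫ y, φ y • c y x ∂μ)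
    (T : C(X, W) →L[ℝ] ℝ) : T S = ∫ y, φ y * T (c y) ∂μ := by
  rw [avg_eq hφ hφc c S hS, ← T.integral_comp_comm (avg_int hφ hφc c)]
  refine integral_congr_ae (Eventually.of_forall fun y => ?_)
  simp only [map_smul, smul_eq_mul]

theorem avg_qn {Y : Type} [TopologicalSpace Y] [MeasurableSpace Y] [BorelSpace Y]
    {μ : Measure Y} [IsFiniteMeasureOnCompacts μ] [SecondCountableTopology Y]
    {φ : Y → ℝ} (hφ : Continuous φ) (hφc : HasCompactSupport φ) (hφ0 : ∀ y, 0 ≤ φ y)
    (hφ1 : ∫ y, φ y ∂μ = 1)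
    (c : C(Y, C(X, W))) (S : C(X, W)) (hS : ∀ x, S x = ∫ y, φ y • c y x ∂μ)
    (Z : Submodule ℝ C(X, W)) (f : C(X, W)) {M : ℝ}
    (hM : ∀ y, φ y ≠ 0 → qn Z (c y - f) ≤ M) : qn Z (S - f) ≤ M := by
  obtain ⟨ν, hν⟩ : ∃ ν : Measure Y, ν = μ.withDensity fun y => ENNReal.ofReal (φ y) := ⟨_, rfl⟩
  have hφi : Integrable φ μ := hφ.integrable_of_hasCompactSupport hφc
  have hm : Measurable φ := hφ.measurable
  have hp : IsProbabilityMeasure ν := by
    constructor
    rw [hν, withDensity_apply _ MeasurableSet.univ, Measure.restrict_univ,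
      ← ofReal_integral_eq_lintegral_ofReal hφi (Eventually.of_forall hφ0), hφ1,
      ENNReal.ofReal_one]
  have hfin : ∀ᵐ y ∂μ, ENNReal.ofReal (φ y) < ⊤ := Eventually.of_forall fun y =>
    ENNReal.ofReal_lt_top
  have hsm : ∀ g : Y → C(X, W), (fun y => (ENNReal.ofReal (φ y)).toReal • g y) =
      fun y => φ y • g y := fun g => by
    funext y
    rw [ENNReal.toReal_ofReal (hφ0 y)]
  have hce : ∫ y, φ y • c y ∂μ = ∫ y, c y ∂ν := by
    rw [hν, integral_withDensity_eq_integral_toReal_smul hm.ennreal_ofReal hfin, hsm]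
  have hci : Integrable (fun y => c y) ν := by
    rw [hν, integrable_withDensity_iff_integrable_smul' hm.ennreal_ofReal hfin, hsm]
    exact avg_int hφ hφc c
  have h1 : S - f = ∫ y, (c y - f) ∂ν := by
    rw [avg_eq hφ hφc c S hS, hce, integral_sub hci (integrable_const f), integral_const,
      probReal_univ, one_smul]
  rw [h1]
  refine qn_integral Z (hci.sub (integrable_const f)) ?_
  have hne : ∀ᵐ y ∂ν, φ y ≠ 0 := by
    rw [hν]
    refine (ae_withDensity_iff hm.ennreal_ofReal).2 (Eventually.of_forall fun y hy h0 => hy ?_)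
    rw [h0, ENNReal.ofReal_zero]
  filter_upwards [hne] with y hy
  exact hM y hy

end

end Pool.Agent.H33.CD
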