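import Pool.Agent.H33.CD.Smo
import Pool.Agent.H33.CD.Quo

/-!
# The restriction operator, closed forms and translations
-/

set_option autoImplicit false
set_option linter.unusedSectionVars false

open Set Filter Topology MeasureTheory Function
open scoped Manifold ContDiff RealInnerProductSpace Convolution

noncomputable section

namespace Pool.Agent.H33.CD

open Pool.Agent.Y501.SY Pool.Agent.Y455.SY

section

variable {d m : ℕ} {X : Type} [TopologicalSpace X] [ChartedSpace (E d) X]
  [IsManifold (𝓡 d) ∞ X] [CompactSpace X]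
  {F : X → E m} {P : E m → X} {r : ℝ} {χ : E m → ℝ} {B : ℝ}

theorem Dat.DQF (h : Dat (d := d) F P r χ B) : Continuous fun x => fderiv ℝ (F ∘ P) (F x) :=
  continuousOn_univ.1 (((DQ_cont h.ret h.sm).comp h.sm.continuous.continuousOn
    fun x _ => mem_tube h.ret.pos x))

theorem Dat.DQ_le (h : Dat (d := d) F P r χ B) (x : X) : ‖fderiv ℝ (F ∘ P) (F x)‖ ≤ B := by
  refine h.bd _ (subset_tsupport _ ?_)
  rw [mem_support, h.one _ (mem_tube (half_pos h.ret.pos) x)]
  exact one_ne_zero

/-- the restriction of a continuous field of forms -/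
def rs (h : Dat (d := d) F P r χ B) (G : E m → Al m 2) (hG : Continuous G) : C(X, Aw m) :=
  ⟨fun x => wr ((G (F x)).compContinuousLinearMap (fderiv ℝ (F ∘ P) (F x))),
    wr_cont.comp (continuousOn_univ.1 (comp_cont (hG.comp h.sm.continuous).continuousOn
      h.DQF.continuousOn))⟩

theorem rs_apply (h : Dat (d := d) F P r χ B) (G : E m → Al m 2) (hG : Continuous G) (x : X) :
    un (rs h G hG x) = (G (F x)).compContinuousLinearMap (fderiv ℝ (F ∘ P) (F x)) := rfl

theorem un_inj {a b : Aw m} (h : un a = un b) : a = b := h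

theorem comp_le (h : Dat (d := d) F P r χ B) (a : Al m 2) (x : X) :
    ‖a.compContinuousLinearMap (fderiv ℝ (F ∘ P) (F x))‖ ≤ B ^ 2 * ‖a‖ := by
  refine (comp_norm _ _).trans ?_
  rw [mul_comm]
  exact mul_le_mul_of_nonneg_right (pow_le_pow_left₀ (norm_nonneg _) (h.DQ_le x) 2)
    (norm_nonneg _)

theorem rs_norm (h : Dat (d := d) F P r χ B) {G : E m → Al m 2} (hG : Continuous G) {M : ℝ}
    (hM0 : 0 ≤ M) (hM : ∀ x, ‖G (F x)‖ ≤ M) : ‖rs h G hG‖ ≤ B ^ 2 * M := by
  refine (ContinuousMap.norm_le _ (by positivity)).2 fun x => ?_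
  exact (comp_le h _ x).trans (mul_le_mul_of_nonneg_left (hM x) (by positivity))

theorem rs_rep (h : Dat (d := d) F P r χ B) {G : E m → Al m 2} (hG : Continuous G) :
    Rep F P (rs h G hG) (FS (d := d) F G) := fun x => (PB_FS h.ret h.sm G x).symm

theorem rs_ext (h : Dat (d := d) F P r χ B) {f : C(X, Aw m)} {σ : Form d X 2}
    (hf : Rep F P f σ) : rs h (ext F P χ f) (ext_cont h f) = f := by
  ext1 x
  refine un_inj ?_
  rw [rs_apply, ext_inner h hf (mem_tube (half_pos h.ret.pos) x), hf x]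
  have h1 := PB_eq h.ret h.sm σ (mem_tube h.ret.pos x)
  rw [h.ret.inv] at h1
  exact h1.symm

/-- the space of the closed forms -/
def Zs (h : Dat (d := d) F P r χ B) : Submodule ℝ C(X, Aw m) where
  carrier := {f | ∃ σ : Form d X 2, IsSmooth σ ∧ IsClosedForm σ ∧ Rep F P f σ}
  add_mem' := by
    rintro f g ⟨σ, h1, h2, h3⟩ ⟨τ, h4, h5, h6⟩
    refine ⟨σ + τ, h1.add h4, ?_, fun x => ?_⟩
    · have h7 : IsD (σ + τ) (0 + 0) := h2.add h5 h1 h4
      rwa [add_zero] at h7
    · have e : un ((f + g) x) = un (f x) + un (g x) := rfl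
      rw [e, h3 x, h6 x]
      rfl
  zero_mem' := ⟨0, IsSmooth.zero, IsD.zero, fun x => rfl⟩
  smul_mem' := by
    rintro c f ⟨σ, h1, h2, h3⟩
    refine ⟨c • σ, h1.smul c, ?_, fun x => ?_⟩
    · have h7 : IsD (c • σ) (c • (0 : Form d X 3)) := h2.smul c
      rwa [smul_zero] at h7
    · have e : un ((c • f) x) = c • un (f x) := rfl
      rw [e, h3 x]
      rfl

theorem shift_cont {k : ℕ} {G : E m → Al m k} (hG : Continuous G) (η : E m) :
    Continuous fun w => G (w - η) := hG.comp (continuous_id.sub continuous_const)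

theorem extDeriv_smooth {k : ℕ} {β : E m → Al m k} (hβ : ContDiff ℝ ∞ β) :
    ContDiff ℝ ∞ (extDeriv β) := by
  have h1 : ContDiff ℝ ∞ (fderiv ℝ β) := hβ.fderiv_right (by simp)
  exact (ContinuousAlternatingMap.alternatizeUncurryFinCLM ℝ (E m) ℝ (n := k)).contDiff.comp h1

/-- the restriction of an exact form is closed -/
theorem exact_mem (h : Dat (d := d) F P r χ B) {α : E m → Al m 1} (hα : ContDiff ℝ ∞ α)
    (η : E m) (hc : Continuous fun w => extDeriv α (w - η)) :
    rs h (fun w => extDeriv α (w - η)) hc ∈ Zs h := by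
  obtain ⟨β, hβ⟩ : ∃ β : E m → Al m 1, β = fun w => α (w - η) := ⟨_, rfl⟩
  have hβs : ContDiff ℝ ∞ β := by
    rw [hβ]
    exact hα.comp (contDiff_id.sub contDiff_const)
  have hβd : extDeriv β = fun w => extDeriv α (w - η) := by
    funext w
    unfold extDeriv
    congr 1
    rw [hβ]
    exact fderiv_comp_sub (f := α) (x := w) η
  have hs : ContDiff ℝ ∞ (extDeriv β) := extDeriv_smooth hβs
  have hdd : extDeriv (extDeriv β) = 0 := extDeriv_extDeriv hβs (by
    rw [minSmoothness_of_isRCLikeNormedField]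
    exact WithTop.coe_le_coe.2 le_top)
  refine ⟨FS F (fun w => extDeriv α (w - η)), ?_, ?_, rs_rep h hc⟩
  · rw [← hβd]
    exact FS_smooth h.sm hs
  · rw [← hβd]
    have h1 := FS_D (d := d) h.sm hs
    rw [hdd] at h1
    exact h1

/-- the family of the translates of a field of forms -/
def fam (h : Dat (d := d) F P r χ B) {Y : Type} [TopologicalSpace Y] (G : Y → E m → Al m 2)
    (hG : Continuous fun q : Y × E m => G q.1 q.2) : C(Y, C(X, Aw m)) :=
  ContinuousMap.curry ⟨fun q : Y × X => wr ((G q.1 (F q.2)).compContinuousLinearMap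
      (fderiv ℝ (F ∘ P) (F q.2))), wr_cont.comp (continuousOn_univ.1 (comp_cont
        (hG.comp (continuous_fst.prodMk (h.sm.continuous.comp continuous_snd))).continuousOn
        (h.DQF.comp continuous_snd).continuousOn))⟩

theorem fam_apply (h : Dat (d := d) F P r χ B) {Y : Type} [TopologicalSpace Y]
    (G : Y → E m → Al m 2) (hG : Continuous fun q : Y × E m => G q.1 q.2) (y : Y) :
    fam h G hG y = rs h (G y) (hG.comp (continuous_const.prodMk continuous_id)) := rfl

theorem fderiv_cont {G : E m → Al m 2} (hG : ContDiff ℝ ∞ G) (ξ : E m) :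
    Continuous fun q : ℝ × E m => fderiv ℝ G (q.2 - q.1 • ξ) ξ := by
  have h1 : Continuous (fderiv ℝ G) := hG.continuous_fderiv (by simp)
  exact (h1.comp (continuous_snd.sub (continuous_fst.smul continuous_const))).clm_apply
    continuous_const

theorem comp_add' {k : ℕ} (a b : Al m k) (g : E m →L[ℝ] E m) :
    (a + b).compContinuousLinearMap g =
      a.compContinuousLinearMap g + b.compContinuousLinearMap g := rfl

/-- the curve of the translates -/
def crv (F : X → E m) (P : E m → X) (G : E m → Al m 2) (ξ : E m) (s : ℝ) (x : X) : Aw m :=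
  wr ((G (F x - s • ξ)).compContinuousLinearMap (fderiv ℝ (F ∘ P) (F x)))

theorem crv_der (h : Dat (d := d) F P r χ B) {G : E m → Al m 2} (hG : ContDiff ℝ ∞ G) (ξ : E m)
    (x : X) (s : ℝ) : HasDerivAt (fun s => crv F P G ξ s x)
      (-(fam h (fun (s : ℝ) w => fderiv ℝ G (w - s • ξ) ξ) (fderiv_cont hG ξ) s x)) s := by
  obtain ⟨D, hD⟩ : ∃ D, D = fderiv ℝ (F ∘ P) (F x) := ⟨_, rfl⟩
  have e1 : HasDerivAt (fun s : ℝ => F x - s • ξ) (-ξ) s := by
    have := ((hasDerivAt_id s).smul_const ξ).const_sub (F x)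
    rwa [one_smul] at this
  have e2 : HasDerivAt (fun s : ℝ => G (F x - s • ξ)) (fderiv ℝ G (F x - s • ξ) (-ξ)) s :=
    ((hG.differentiable (by simp)).differentiableAt.hasFDerivAt).comp_hasDerivAt s e1
  have e3 := (ContinuousAlternatingMap.compContinuousLinearMapCLM D :
    Al m 2 →L[ℝ] Al m 2).hasFDerivAt.comp_hasDerivAt s e2
  have e4 : -(fam h (fun (s : ℝ) w => fderiv ℝ G (w - s • ξ) ξ) (fderiv_cont hG ξ) s x) =
      wr ((fderiv ℝ G (F x - s • ξ) (-ξ)).compContinuousLinearMap D) := by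
    rw [map_neg, hD]
    rfl
  rw [e4]
  unfold crv
  rw [← hD]
  exact e3

/-- Cartan's formula for the velocity of the curve -/
theorem curve_split (h : Dat (d := d) F P r χ B) {G : E m → Al m 2} (hG : ContDiff ℝ ∞ G)
    (ξ : E m) (s : ℝ)
    (hc : Continuous fun w => ctr 2 ξ (extDeriv G (w - s • ξ))) :
    fam h (fun (s : ℝ) w => fderiv ℝ G (w - s • ξ) ξ) (fderiv_cont hG ξ) s -
      rs h (fun w => ctr 2 ξ (extDeriv G (w - s • ξ))) hc ∈ Zs h := by
  have hα : ContDiff ℝ ∞ fun w => ctr 1 ξ (G w) := (ctr 1 ξ).contDiff.comp hG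
  have hαc : Continuous fun w => extDeriv (fun w => ctr 1 ξ (G w)) (w - s • ξ) :=
    shift_cont (extDeriv_smooth hα).continuous _
  have h3 := exact_mem h hα (s • ξ) hαc
  have h4 : fam h (fun (s : ℝ) w => fderiv ℝ G (w - s • ξ) ξ) (fderiv_cont hG ξ) s -
      rs h (fun w => ctr 2 ξ (extDeriv G (w - s • ξ))) hc =
      rs h (fun w => extDeriv (fun w => ctr 1 ξ (G w)) (w - s • ξ)) hαc := by
    ext1 x
    refine un_inj ?_
    have e : un ((fam h (fun (s : ℝ) w => fderiv ℝ G (w - s • ξ) ξ) (fderiv_cont hG ξ) s -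
      rs h (fun w => ctr 2 ξ (extDeriv G (w - s • ξ))) hc) x) =
      (fderiv ℝ G (F x - s • ξ) ξ).compContinuousLinearMap (fderiv ℝ (F ∘ P) (F x)) -
      (ctr 2 ξ (extDeriv G (F x - s • ξ))).compContinuousLinearMap
        (fderiv ℝ (F ∘ P) (F x)) := rfl
    rw [e, rs_apply, cartan (hG.differentiable (by simp)).differentiableAt ξ, comp_add',
      add_sub_cancel_right]
  rw [h4]
  exact h3

end

end Pool.Agent.H33.CD
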