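import Pool.Agent.H33.CD.CR2
import Pool.Agent.H33.TM.Core

/-!
# The distribution of the translates of a point
-/

set_option autoImplicit false
set_option linter.unusedSectionVars false
set_option linter.unusedVariables false

open Set Filter Topology MeasureTheory Function
open scoped Manifold ContDiff RealInnerProductSpace Convolution ENNReal NNReal

noncomputable section

namespace Pool.Agent.H33.CD

open Pool.Agent.Y501.SY Pool.Agent.Y455.SY Pool.Agent.H33.TM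

section

variable {d m : ℕ} {X : Type} [TopologicalSpace X] [ChartedSpace (E d) X]
  [IsManifold (𝓡 d) ∞ X] [CompactSpace X] [MeasurableSpace X] [BorelSpace X]
  {F : X → E m} {P : E m → X} {r : ℝ} {χ : E m → ℝ} {B : ℝ}

theorem DQ_DF (h : Ret (d := d) F P r) (hF : ContMDiff (𝓡 d) (𝓡 m) ∞ F) (x : X) (v : E d) :
    fderiv ℝ (F ∘ P) (F x) ((mfderiv (𝓡 d) (𝓡 m) F x : E d →L[ℝ] E m) v) =
      (mfderiv (𝓡 d) (𝓡 m) F x : E d →L[ℝ] E m) v := by
  refine (DQ_eq h hF (mem_tube h.pos x) _).trans ?_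
  have e1 := DP_DF h hF x v
  have e2 : ((mfderiv (𝓡 d) (𝓡 m) F (P (F x)) : E d →L[ℝ] E m)
      ((mfderiv (𝓡 m) (𝓡 d) P (F x) : E m →L[ℝ] E d)
        ((mfderiv (𝓡 d) (𝓡 m) F x : E d →L[ℝ] E m) v)) : E m) =
      (mfderiv (𝓡 d) (𝓡 m) F (P (F x)) : E d →L[ℝ] E m) v := by rw [e1]
  refine e2.trans ?_
  have e3 : (mfderiv (𝓡 d) (𝓡 m) F (P (F x)) : E d →L[ℝ] E m) = mfderiv (𝓡 d) (𝓡 m) F x := by
    rw [h.inv x]
  rw [e3]
  rfl

omit [ChartedSpace (E d) X] [IsManifold (𝓡 d) ∞ X] in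
/-- integrals over subsets on which a map is anti-Lipschitz -/
theorem push_anti (hF : Continuous F) (hFi : Function.Injective F) {S : Set (E d)}
    (hS : MeasurableSet S) {f : E d → X} (hf : Measurable f) {K : ℝ} (hK : 0 ≤ K)
    (hanti : ∀ a ∈ S, ∀ b ∈ S, ‖a - b‖ ≤ K * ‖F (f a) - F (f b)‖) {T : Set X}
    (hTm : MeasurableSet T) (hT : ∀ a ∈ S, f a ∈ T) {g : X → ℝ≥0∞} (hg : Measurable g) :
    ∫⁻ a in S, g (f a) ∂μH[(d : ℝ)] ≤ ENNReal.ofReal (K ^ d) * ∫⁻ y in T, g y ∂(area d F) := by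
  have hle : Measure.map f ((μH[(d : ℝ)] : Measure (E d)).restrict S) ≤
      (ENNReal.ofReal (K ^ d)) • (area d F).restrict T := by
    rw [Measure.le_iff]
    intro A hA
    rw [Measure.map_apply hf hA, Measure.restrict_apply (hf hA), Measure.smul_apply,
      smul_eq_mul, Measure.restrict_apply hA, area_apply hF hFi]
    have h1 := haus_anti (f := fun a => F (f a)) (S := f ⁻¹' A ∩ S) (K := Real.toNNReal K) (by
      intro a ha b hb
      rw [dist_eq_norm, dist_eq_norm, Real.coe_toNNReal _ hK]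
      exact hanti a ha.2 b hb.2) (d : ℝ) (Nat.cast_nonneg d)
    have h2 : ((Real.toNNReal K : ℝ≥0) : ℝ≥0∞) ^ (d : ℝ) = ENNReal.ofReal (K ^ d) := by
      rw [ENNReal.rpow_natCast, ← ENNReal.ofReal, ENNReal.ofReal_pow hK]
    rw [h2] at h1
    refine h1.trans (mul_le_mul_right (measure_mono ?_) _)
    rintro _ ⟨a, ha, rfl⟩
    exact ⟨f a, ⟨ha.1, hT a ha.2⟩, rfl⟩
  calc _ = ∫⁻ y, g y ∂(Measure.map f ((μH[(d : ℝ)] : Measure (E d)).restrict S)) :=
        (lintegral_map hg hf).symm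
    _ ≤ ∫⁻ y, g y ∂((ENNReal.ofReal (K ^ d)) • (area d F).restrict T) :=
        lintegral_mono' hle le_rfl
    _ = _ := by rw [lintegral_smul_measure, smul_eq_mul]

/-- coordinates adapted to the tangent space -/
theorem exists_split (h : Ret (d := d) F P r) (hF : ContMDiff (𝓡 d) (𝓡 m) ∞ F)
    (hFd : ∀ x, Function.Injective (mfderiv (𝓡 d) (𝓡 m) F x)) (x₀ : X) :
    ∃ (k : ℕ) (Λ : (E d × E k) ≃L[ℝ] E m), d + k = m ∧
      ∀ a b : E d, ∀ u : E k, fderiv ℝ (F ∘ P) (F x₀) (Λ (a, u) - Λ (b, u)) =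
        Λ (a, u) - Λ (b, u) := by
  obtain ⟨A, hA⟩ : ∃ A : E d →L[ℝ] E m, A = mfderiv (𝓡 d) (𝓡 m) F x₀ := ⟨_, rfl⟩
  obtain ⟨D, hD⟩ : ∃ D : E m →L[ℝ] E m, D = fderiv ℝ (F ∘ P) (F x₀) := ⟨_, rfl⟩
  have hAi : Function.Injective A := by rw [hA]; exact hFd x₀
  have hDA : ∀ v, D (A v) = A v := fun v => by rw [hD, hA]; exact DQ_DF h hF x₀ v
  have hDr : ∀ w, ∃ v, D w = A v := fun w => by
    refine ⟨(mfderiv (𝓡 m) (𝓡 d) P (F x₀) : E m →L[ℝ] E d) w, ?_⟩
    rw [hD, hA]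
    refine (DQ_eq h hF (mem_tube h.pos x₀) w).trans ?_
    have e3 : (mfderiv (𝓡 d) (𝓡 m) F (P (F x₀)) : E d →L[ℝ] E m) =
        mfderiv (𝓡 d) (𝓡 m) F x₀ := by rw [h.inv x₀]
    change (mfderiv (𝓡 d) (𝓡 m) F (P (F x₀)) : E d →L[ℝ] E m)
      ((mfderiv (𝓡 m) (𝓡 d) P (F x₀) : E m →L[ℝ] E d) w) = _
    rw [e3]
    rfl
  rw [← hD]
  obtain ⟨N, hN⟩ : ∃ N : Submodule ℝ (E m), N = LinearMap.ker (D : E m →ₗ[ℝ] E m) := ⟨_, rfl⟩
  have hNm : ∀ w, w ∈ N ↔ D w = 0 := fun w => by rw [hN]; exact Iff.rfl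
  clear hN
  obtain ⟨e⟩ : Nonempty (E (Module.finrank ℝ N) ≃L[ℝ] N) :=
    ⟨ContinuousLinearEquiv.ofFinrankEq (by rw [finrank_euclideanSpace_fin])⟩
  obtain ⟨k, hk⟩ : ∃ k, k = Module.finrank ℝ N := ⟨_, rfl⟩
  rw [← hk] at e
  have heN : ∀ u, D (e u) = 0 := fun u => (hNm _).1 (e u).2
  obtain ⟨L, hL⟩ : ∃ L : (E d × E k) →ₗ[ℝ] E m, ∀ q, L q = A q.1 + e q.2 :=
    ⟨{ toFun := fun q => A q.1 + e q.2
       map_add' := fun p q => by
        simp only [Prod.fst_add, Prod.snd_add, map_add, Submodule.coe_add]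
        abel
       map_smul' := fun c q => by
        simp only [Prod.smul_fst, Prod.smul_snd, map_smul, Submodule.coe_smul,
          RingHom.id_apply, smul_add] }, fun q => rfl⟩
  have hLi : Function.Injective L := by
    rw [injective_iff_map_eq_zero]
    rintro ⟨a, u⟩ hq
    rw [hL] at hq
    have h1 := congrArg D hq
    rw [map_add, hDA, heN, add_zero, map_zero] at h1
    have ha : a = 0 := by
      apply hAi
      rw [h1, map_zero]
    subst ha
    rw [map_zero, zero_add] at hq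
    have h2 : e u = 0 := Subtype.ext hq
    have h3 : u = 0 := by
      apply e.injective
      rw [h2, map_zero]
    rw [h3]
    rfl
  have hLs : Function.Surjective L := by
    intro w
    obtain ⟨v, hv⟩ := hDr w
    have h1 : w - D w ∈ N := by
      rw [hNm, map_sub, hv, hDA, sub_self]
    refine ⟨(v, e.symm ⟨w - D w, h1⟩), ?_⟩
    rw [hL]
    simp only [ContinuousLinearEquiv.apply_symm_apply]
    rw [hv]
    abel
  obtain ⟨Λ, hΛ⟩ : ∃ Λ : (E d × E k) ≃L[ℝ] E m, ∀ q, Λ q = A q.1 + e q.2 :=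
    ⟨(LinearEquiv.ofBijective L ⟨hLi, hLs⟩).toContinuousLinearEquiv, fun q => hL q⟩
  refine ⟨k, Λ, ?_, ?_⟩
  · have h1 := Λ.toLinearEquiv.finrank_eq
    rw [Module.finrank_prod, finrank_euclideanSpace_fin, finrank_euclideanSpace_fin,
      finrank_euclideanSpace_fin] at h1
    exact h1
  · intro a b u
    rw [hΛ, hΛ]
    have e1 : A (a, u).1 + (e (a, u).2 : E m) - (A (b, u).1 + (e (b, u).2 : E m)) =
        A (a - b) := by
      rw [map_sub]
      abel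
    rw [e1, hDA]

end

end Pool.Agent.H33.CD
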