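import Pool.Agent.H33.CD.PE

/-!
# The distribution of the translates of a point, continued
-/

set_option autoImplicit false
set_option linter.unusedSectionVars false
set_option linter.unusedVariables false

open Set Filter Topology MeasureTheory Function
open scoped Manifold ContDiff RealInnerProductSpace Convolution ENNReal NNReal

noncomputable section

namespace Pool.Agent.H33.CD

open Pool.Agent.Y501.SY Pool.Agent.Y455.SY Pool.Agent.H33.TM

section

variable {d m : ℕ} {X : Type} [TopologicalSpace X] [ChartedSpace (E d) X]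
  [IsManifold (𝓡 d) ∞ X] [CompactSpace X] [MeasurableSpace X] [BorelSpace X]
  {F : X → E m} {P : E m → X} {r : ℝ} {χ : E m → ℝ} {B : ℝ}

theorem push_loc (h : Ret (d := d) F P r) (hF : ContMDiff (𝓡 d) (𝓡 m) ∞ F)
    (hFi : Function.Injective F)
    (hFd : ∀ x, Function.Injective (mfderiv (𝓡 d) (𝓡 m) F x)) (hPm : Measurable P) (x₀ : X) :
    ∃ C s₀ ρ : ℝ, 0 < C ∧ 0 < s₀ ∧ 0 < ρ ∧ ∀ x : X, ‖F x - F x₀‖ < ρ → ∀ s : ℝ, 0 < s → s ≤ s₀ →
      ∀ g : X → ℝ≥0∞, Measurable g →
      ENNReal.ofReal (s ^ d) * ∫⁻ ξ in Metric.closedBall (0 : E m) s, g (P (F x - ξ)) ≤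
        ENNReal.ofReal (C * s ^ m) * ∫⁻ y in FB F x (C * s), g y ∂(area d F) := by
  obtain ⟨k, Λ, hdk, hΛ⟩ := exists_split h hF hFd x₀
  obtain ⟨D, hD⟩ : ∃ D : E m →L[ℝ] E m, D = fderiv ℝ (F ∘ P) (F x₀) := ⟨_, rfl⟩
  rw [← hD] at hΛ
  -- strict differentiability
  have hstr : HasStrictFDerivAt (F ∘ P) D (F x₀) := by
    have h1 := (Q_smooth h hF).contDiffAt ((tube_open F r).mem_nhds (mem_tube h.pos x₀))
    rw [hD]
    exact h1.hasStrictFDerivAt (by simp)
  have hlit := hstr.isLittleO.def (show (0 : ℝ) < 1 / 2 by norm_num)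
  rw [Metric.eventually_nhds_iff] at hlit
  obtain ⟨ρ, hρ, hlit⟩ := hlit
  have hQ : ∀ w w' : E m, ‖w - F x₀‖ < ρ → ‖w' - F x₀‖ < ρ →
      ‖F (P w) - F (P w') - D (w - w')‖ ≤ 1 / 2 * ‖w - w'‖ := by
    intro w w' hw hw'
    have h1 := hlit (y := (w, w')) (by
      rw [Prod.dist_eq, max_lt_iff, dist_eq_norm, dist_eq_norm]
      exact ⟨hw, hw'⟩)
    exact h1
  -- constants
  obtain ⟨N, hN1, hN2, hN3, hN4⟩ : ∃ N : ℝ, 1 ≤ N ∧ (∀ q, ‖Λ q‖ ≤ N * ‖q‖) ∧
      (∀ w, ‖Λ.symm w‖ ≤ N * ‖w‖) ∧ ∀ w, ‖D w‖ ≤ N * ‖w‖ := by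
    refine ⟨max 1 (max ‖(Λ : (E d × E k) →L[ℝ] E m)‖
      (max ‖(Λ.symm : E m →L[ℝ] (E d × E k))‖ ‖D‖)), le_max_left _ _, fun q => ?_, fun w => ?_,
      fun w => ?_⟩
    · refine ((Λ : (E d × E k) →L[ℝ] E m).le_opNorm q).trans
        (mul_le_mul_of_nonneg_right ?_ (norm_nonneg _))
      exact (le_max_left _ _).trans (le_max_right _ _)
    · refine ((Λ.symm : E m →L[ℝ] (E d × E k)).le_opNorm w).trans
        (mul_le_mul_of_nonneg_right ?_ (norm_nonneg _))
      exact (le_max_left _ _).trans ((le_max_right _ _).trans (le_max_right _ _))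
    · refine (D.le_opNorm w).trans (mul_le_mul_of_nonneg_right ?_ (norm_nonneg _))
      exact (le_max_right _ _).trans ((le_max_right _ _).trans (le_max_right _ _))
  have hN0 : 0 < N := one_pos.trans_le hN1
  -- Haar measure
  obtain ⟨ν, hν⟩ : ∃ ν : Measure (E d × E k), ν = (μH[(d : ℝ)] : Measure (E d)).prod volume :=
    ⟨_, rfl⟩
  have hνH : ν.IsAddHaarMeasure := by rw [hν]; infer_instance
  have hmapH : (ν.map Λ).IsAddHaarMeasure := Λ.isAddHaarMeasure_map ν
  obtain ⟨c, hct, hc⟩ : ∃ c : ℝ≥0∞, c ≠ ⊤ ∧ (volume : Measure (E m)) = c • ν.map Λ :=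
    ⟨_, ENNReal.coe_ne_top,
      Measure.isAddLeftInvariant_eq_smul (volume : Measure (E m)) (ν.map Λ)⟩
  obtain ⟨V, hV⟩ : ∃ V : ℝ≥0∞, V = volume (Metric.ball (0 : E k) 1) := ⟨_, rfl⟩
  have hVt : V ≠ ⊤ := by rw [hV]; exact measure_ball_lt_top.ne
  obtain ⟨C, hCdef⟩ : ∃ C : ℝ, C = max ((N + 1) * N ^ 2) (c.toReal * (2 * N) ^ d * N ^ k *
      (V.toReal + 1) + 1) := ⟨_, rfl⟩
  have hC1 : (N + 1) * N ^ 2 ≤ C := by rw [hCdef]; exact le_max_left _ _
  have hC2 : c.toReal * (2 * N) ^ d * N ^ k * (V.toReal + 1) ≤ C := by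
    rw [hCdef]
    refine le_trans ?_ (le_max_right _ _)
    linarith
  have hC0 : 0 < C := lt_of_lt_of_le (by positivity) hC1
  refine ⟨C, ρ / (4 * N ^ 2), ρ / 2, hC0, by positivity, by linarith, ?_⟩
  intro x hx s hs hss g hg
  have hsN : N ^ 2 * s ≤ ρ / 4 := by
    rw [le_div_iff₀ (by positivity)] at hss
    linarith
  have hsmall : ∀ q : E d × E k, ‖q‖ ≤ N * s → ‖Λ q‖ ≤ N ^ 2 * s := fun q hq => by
    refine (hN2 q).trans ?_
    calc N * ‖q‖ ≤ N * (N * s) := mul_le_mul_of_nonneg_left hq hN0.le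
      _ = _ := by ring
  have hnear : ∀ q : E d × E k, ‖q‖ ≤ N * s → ‖F x - Λ q - F x₀‖ < ρ := fun q hq => by
    have h1 := hsmall q hq
    have h2 : F x - Λ q - F x₀ = (F x - F x₀) - Λ q := by abel
    rw [h2]
    have := norm_sub_le (F x - F x₀) (Λ q)
    linarith
  obtain ⟨S, hS⟩ : ∃ S, S = Metric.closedBall (0 : E d) (N * s) := ⟨_, rfl⟩
  obtain ⟨S', hS'⟩ : ∃ S', S' = Metric.closedBall (0 : E k) (N * s) := ⟨_, rfl⟩
  have hSm : MeasurableSet S := by rw [hS]; exact Metric.isClosed_closedBall.measurableSet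
  have hS'm : MeasurableSet S' := by rw [hS']; exact Metric.isClosed_closedBall.measurableSet
  have hmemS : ∀ a ∈ S, ‖a‖ ≤ N * s := fun a ha => by
    rw [hS, mem_closedBall_zero_iff] at ha
    exact ha
  have hmemS' : ∀ a ∈ S', ‖a‖ ≤ N * s := fun a ha => by
    rw [hS', mem_closedBall_zero_iff] at ha
    exact ha
  have hq : ∀ a ∈ S, ∀ u ∈ S', ‖((a, u) : E d × E k)‖ ≤ N * s := fun a ha u hu =>
    max_le (hmemS a ha) (hmemS' u hu)
  obtain ⟨I, hI⟩ : ∃ I, I = ∫⁻ y in FB F x (C * s), g y ∂(area d F) := ⟨_, rfl⟩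
  rw [← hI]
  obtain ⟨G, hG⟩ : ∃ G : E m → ℝ≥0∞, G = fun ξ => g (P (F x - ξ)) := ⟨_, rfl⟩
  have hGm : Measurable G := by
    rw [hG]
    exact hg.comp (hPm.comp (measurable_const.sub measurable_id))
  -- the inner integral
  have hin : ∀ u ∈ S', ∫⁻ a in S, G (Λ (a, u)) ∂μH[(d : ℝ)] ≤
      ENNReal.ofReal ((2 * N) ^ d) * I := by
    intro u hu
    have hfm : Measurable fun a : E d => P (F x - Λ (a, u)) := by
      refine hPm.comp (measurable_const.sub ?_)
      exact (Λ.continuous.comp (continuous_id.prodMk continuous_const)).measurable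
    have h1 := push_anti (d := d) hF.continuous hFi hSm (f := fun a => P (F x - Λ (a, u))) hfm
      (K := 2 * N) (by positivity) (fun a ha b hb => ?_) (T := FB F x (C * s))
      (FB_closed hF.continuous x _).measurableSet (fun a ha => ?_) hg
    · rw [hG, hI]
      exact h1
    · have e1 := hQ _ _ (hnear _ (hq a ha u hu)) (hnear _ (hq b hb u hu))
      have e2 : F x - Λ (a, u) - (F x - Λ (b, u)) = -(Λ (a, u) - Λ (b, u)) := by abel
      rw [e2, map_neg, hΛ, norm_neg] at e1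
      have e3 : ‖Λ (a, u) - Λ (b, u)‖ ≤ 2 * ‖F (P (F x - Λ (a, u))) - F (P (F x - Λ (b, u)))‖ := by
        have e4 := norm_sub_le (F (P (F x - Λ (a, u))) - F (P (F x - Λ (b, u))) -
          -(Λ (a, u) - Λ (b, u))) (F (P (F x - Λ (a, u))) - F (P (F x - Λ (b, u))))
        have e5 : F (P (F x - Λ (a, u))) - F (P (F x - Λ (b, u))) -
          -(Λ (a, u) - Λ (b, u)) - (F (P (F x - Λ (a, u))) - F (P (F x - Λ (b, u)))) =
          Λ (a, u) - Λ (b, u) := by abel
        rw [e5] at e4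
        linarith
      have e6 : ‖a - b‖ ≤ N * ‖Λ (a, u) - Λ (b, u)‖ := by
        have e7 := hN3 (Λ (a, u) - Λ (b, u))
        rw [map_sub, ContinuousLinearEquiv.symm_apply_apply,
          ContinuousLinearEquiv.symm_apply_apply] at e7
        have e8 : ‖a - b‖ ≤ ‖((a, u) : E d × E k) - (b, u)‖ := le_max_left _ _
        exact e8.trans e7
      calc ‖a - b‖ ≤ N * ‖Λ (a, u) - Λ (b, u)‖ := e6
        _ ≤ N * (2 * ‖F (P (F x - Λ (a, u))) - F (P (F x - Λ (b, u)))‖) :=
            mul_le_mul_of_nonneg_left e3 hN0.le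
        _ = _ := by ring
    · change ‖F (P (F x - Λ (a, u))) - F x‖ ≤ C * s
      have e0 : ‖F x - F x₀‖ < ρ := by linarith
      have e1 := hQ _ _ (hnear _ (hq a ha u hu)) e0
      rw [h.inv] at e1
      have e2 : F x - Λ (a, u) - F x = -Λ (a, u) := by abel
      rw [e2, norm_neg] at e1
      have e3 := hN4 (-Λ (a, u))
      rw [norm_neg] at e3
      have e4 := hsmall _ (hq a ha u hu)
      have e5 := norm_add_le (F (P (F x - Λ (a, u))) - F x - D (-Λ (a, u))) (D (-Λ (a, u)))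
      rw [sub_add_cancel] at e5
      have e6 : N * ‖Λ (a, u)‖ ≤ N * (N ^ 2 * s) := mul_le_mul_of_nonneg_left e4 hN0.le
      have e7 : (N + 1) * N ^ 2 * s ≤ C * s := mul_le_mul_of_nonneg_right hC1 hs.le
      nlinarith
  -- the whole integral
  have hball : ∀ q : E d × E k, Λ q ∈ Metric.closedBall (0 : E m) s → q ∈ S ×ˢ S' := by
    intro q hq
    rw [mem_closedBall_zero_iff] at hq
    have h1 := hN3 (Λ q)
    rw [ContinuousLinearEquiv.symm_apply_apply] at h1
    have h2 : ‖q‖ ≤ N * s := h1.trans (mul_le_mul_of_nonneg_left hq hN0.le)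
    refine ⟨?_, ?_⟩
    · rw [hS, mem_closedBall_zero_iff]
      exact (norm_fst_le q).trans h2
    · rw [hS', mem_closedBall_zero_iff]
      exact (norm_snd_le q).trans h2
  have hGΛ : Measurable fun q => G (Λ q) := hGm.comp Λ.continuous.measurable
  have htot : ∫⁻ ξ in Metric.closedBall (0 : E m) s, G ξ ≤
      c * (ENNReal.ofReal ((2 * N) ^ d) * I * (ENNReal.ofReal ((N * s) ^ k) * V)) := by
    calc ∫⁻ ξ in Metric.closedBall (0 : E m) s, G ξ
        = ∫⁻ ξ, (Metric.closedBall (0 : E m) s).indicator G ξ :=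
          (lintegral_indicator Metric.isClosed_closedBall.measurableSet _).symm
      _ = c * ∫⁻ ξ, (Metric.closedBall (0 : E m) s).indicator G ξ ∂(ν.map Λ) := by
          rw [hc, lintegral_smul_measure, smul_eq_mul]
      _ = c * ∫⁻ q, (Metric.closedBall (0 : E m) s).indicator G (Λ q) ∂ν := by
          rw [lintegral_map (hGm.indicator Metric.isClosed_closedBall.measurableSet)
            Λ.continuous.measurable]
      _ ≤ c * ∫⁻ q in S ×ˢ S', G (Λ q) ∂ν := by
          refine mul_le_mul_right ?_ _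
          rw [← lintegral_indicator (hSm.prod hS'm)]
          refine lintegral_mono fun q => ?_
          by_cases hq : Λ q ∈ Metric.closedBall (0 : E m) s
          · rw [indicator_of_mem hq, indicator_of_mem (hball q hq)]
          · rw [indicator_of_notMem hq]
            exact bot_le
      _ = c * ∫⁻ u in S', ∫⁻ a in S, G (Λ (a, u)) ∂μH[(d : ℝ)] := by
          rw [hν, ← Measure.prod_restrict, lintegral_prod_symm _ hGΛ.aemeasurable]
      _ ≤ c * ∫⁻ u in S', ENNReal.ofReal ((2 * N) ^ d) * I := by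
          refine mul_le_mul_right (lintegral_mono_ae ?_) _
          filter_upwards [ae_restrict_mem hS'm] with u hu
          exact hin u hu
      _ = c * (ENNReal.ofReal ((2 * N) ^ d) * I * volume S') := by rw [setLIntegral_const]
      _ = _ := by
          rw [hS', Measure.addHaar_closedBall _ _ (by positivity), finrank_euclideanSpace_fin, hV]
  have hcof : c = ENNReal.ofReal c.toReal := (ENNReal.ofReal_toReal hct).symm
  have hVof : V ≤ ENNReal.ofReal (V.toReal + 1) :=
    (ENNReal.le_ofReal_iff_toReal_le hVt (by positivity)).2 (by linarith)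
  have hgoal : ENNReal.ofReal (s ^ d) * (c * (ENNReal.ofReal ((2 * N) ^ d) * I *
      (ENNReal.ofReal ((N * s) ^ k) * V))) ≤ ENNReal.ofReal (C * s ^ m) * I := by
    calc _ ≤ ENNReal.ofReal (s ^ d) * (ENNReal.ofReal c.toReal * (ENNReal.ofReal ((2 * N) ^ d) *
          I * (ENNReal.ofReal ((N * s) ^ k) * ENNReal.ofReal (V.toReal + 1)))) := by
          rw [← hcof]
          gcongr
      _ = ENNReal.ofReal (s ^ d * (c.toReal * ((2 * N) ^ d * ((N * s) ^ k *
            (V.toReal + 1))))) * I := by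
          rw [ENNReal.ofReal_mul (by positivity), ENNReal.ofReal_mul (by positivity),
            ENNReal.ofReal_mul (by positivity), ENNReal.ofReal_mul (by positivity)]
          ring
      _ ≤ _ := by
          refine mul_le_mul_left (ENNReal.ofReal_le_ofReal ?_) _
          have e1 : s ^ d * (c.toReal * ((2 * N) ^ d * ((N * s) ^ k * (V.toReal + 1)))) =
              (c.toReal * (2 * N) ^ d * N ^ k * (V.toReal + 1)) * s ^ m := by
            rw [← hdk, pow_add, mul_pow]
            ring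
          rw [e1]
          exact mul_le_mul_of_nonneg_right hC2 (by positivity)
  rw [hG] at htot
  exact (mul_le_mul_right htot _).trans hgoal

end

end Pool.Agent.H33.CD
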