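import Pool.Agent.H33.CD.PE2

/-!
# The distribution of the translates of a point, uniformly
-/

set_option autoImplicit false
set_option linter.unusedSectionVars false
set_option linter.unusedVariables false

open Set Filter Topology MeasureTheory Function
open scoped Manifold ContDiff RealInnerProductSpace Convolution ENNReal NNReal

noncomputable section

namespace Pool.Agent.H33.CD

open Pool.Agent.Y501.SY Pool.Agent.Y455.SY Pool.Agent.H33.TM

section

variable {d m : ℕ} {X : Type} [TopologicalSpace X] [ChartedSpace (E d) X]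
  [IsManifold (𝓡 d) ∞ X] [CompactSpace X] [MeasurableSpace X] [BorelSpace X]
  {F : X → E m} {P : E m → X} {r : ℝ} {χ : E m → ℝ} {B : ℝ}

theorem FB_mono' (F : X → E m) {x : X} {s t : ℝ} (h : s ≤ t) : FB F x s ⊆ FB F x t :=
  fun _ hy => le_trans hy h

theorem push_est (h : Ret (d := d) F P r) (hF : ContMDiff (𝓡 d) (𝓡 m) ∞ F)
    (hFi : Function.Injective F)
    (hFd : ∀ x, Function.Injective (mfderiv (𝓡 d) (𝓡 m) F x)) (hPm : Measurable P) :
    ∃ C s₀ : ℝ, 0 < C ∧ 0 < s₀ ∧ ∀ (x : X) (s : ℝ), 0 < s → s ≤ s₀ →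
      ∀ g : X → ℝ≥0∞, Measurable g →
      ENNReal.ofReal (s ^ d) * ∫⁻ ξ in Metric.closedBall (0 : E m) s, g (P (F x - ξ)) ≤
        ENNReal.ofReal (C * s ^ m) * ∫⁻ y in FB F x (C * s), g y ∂(area d F) := by
  have key := (isCompact_univ (X := X)).induction_on (p := fun S => ∃ C s₀ : ℝ, 0 < C ∧ 0 < s₀ ∧
    ∀ x ∈ S, ∀ s : ℝ, 0 < s → s ≤ s₀ → ∀ g : X → ℝ≥0∞, Measurable g →
      ENNReal.ofReal (s ^ d) * ∫⁻ ξ in Metric.closedBall (0 : E m) s, g (P (F x - ξ)) ≤
        ENNReal.ofReal (C * s ^ m) * ∫⁻ y in FB F x (C * s), g y ∂(area d F))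
    ⟨1, 1, one_pos, one_pos, fun x hx => absurd hx (notMem_empty x)⟩ ?_ ?_ ?_
  · obtain ⟨C, s₀, h1, h2, h3⟩ := key
    exact ⟨C, s₀, h1, h2, fun x => h3 x (mem_univ x)⟩
  · rintro S T hST ⟨C, s₀, h1, h2, h3⟩
    exact ⟨C, s₀, h1, h2, fun x hx => h3 x (hST hx)⟩
  · rintro S T ⟨C, s₀, h1, h2, h3⟩ ⟨C', s₀', h1', h2', h3'⟩
    refine ⟨max C C', min s₀ s₀', lt_max_of_lt_left h1, lt_min h2 h2', ?_⟩
    rintro x (hx | hx) s hs hss g hg
    · refine (h3 x hx s hs (hss.trans (min_le_left _ _)) g hg).trans ?_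
      exact mul_le_mul' (ENNReal.ofReal_le_ofReal (mul_le_mul_of_nonneg_right (le_max_left _ _)
        (by positivity))) (lintegral_mono_set (FB_mono' F (mul_le_mul_of_nonneg_right
          (le_max_left _ _) hs.le)))
    · refine (h3' x hx s hs (hss.trans (min_le_right _ _)) g hg).trans ?_
      exact mul_le_mul' (ENNReal.ofReal_le_ofReal (mul_le_mul_of_nonneg_right (le_max_right _ _)
        (by positivity))) (lintegral_mono_set (FB_mono' F (mul_le_mul_of_nonneg_right
          (le_max_right _ _) hs.le)))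
  · intro x₀ _
    obtain ⟨C, s₀, ρ, h1, h2, h3, h4⟩ := push_loc h hF hFi hFd hPm x₀
    refine ⟨{x | ‖F x - F x₀‖ < ρ}, mem_nhdsWithin_of_mem_nhds ?_, C, s₀, h1, h2,
      fun x hx => h4 x hx⟩
    have hc : Continuous fun x => ‖F x - F x₀‖ := (hF.continuous.sub continuous_const).norm
    exact (isOpen_lt hc continuous_const).mem_nhds (by
      change ‖F x₀ - F x₀‖ < ρ
      rw [sub_self, norm_zero]
      exact h3)

/-- a measurable retraction -/
theorem exists_ret_meas [T2Space X] [Nonempty X] (hF : ContMDiff (𝓡 d) (𝓡 m) ∞ F)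
    (hFi : Function.Injective F)
    (hFd : ∀ x, Function.Injective (mfderiv (𝓡 d) (𝓡 m) F x)) :
    ∃ (P : E m → X) (r : ℝ), Ret (d := d) F P r ∧ Measurable P := by
  classical
  obtain ⟨P, r, h⟩ := exists_ret hF hFi hFd
  obtain ⟨x₀⟩ := ‹Nonempty X›
  refine ⟨(tube F r).piecewise P fun _ => x₀, r, ⟨h.pos, fun x => ?_, fun x w hw => ?_⟩, ?_⟩
  · rw [piecewise_eq_of_mem _ _ _ (mem_tube h.pos x)]
    exact h.inv x
  · refine (h.smooth x w hw).congr_of_eventuallyEq ?_
    filter_upwards [(tube_open F r).mem_nhds ⟨x, hw⟩] with u hu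
    exact piecewise_eq_of_mem _ _ _ hu
  · exact ContinuousOn.measurable_piecewise h.on.continuousOn continuousOn_const
      (tube_open F r).measurableSet

end

end Pool.Agent.H33.CD
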