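import Pool.Agent.H33.CD.PE3
import Pool.Agent.H33.TM.Fin

/-!
# Potentials of measures with quadratic density bounds
-/

set_option autoImplicit false
set_option linter.unusedSectionVars false
set_option linter.unusedVariables false

open Set Filter Topology MeasureTheory Function
open scoped Manifold ContDiff RealInnerProductSpace Convolution ENNReal NNReal

noncomputable section

namespace Pool.Agent.H33.CD

open Pool.Agent.Y501.SY Pool.Agent.Y455.SY Pool.Agent.H33.TM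

section

variable {d m : ℕ} {X : Type} [TopologicalSpace X] [ChartedSpace (E d) X]
  [IsManifold (𝓡 d) ∞ X] [CompactSpace X] [MeasurableSpace X] [BorelSpace X]
  {F : X → E m} {P : E m → X} {r : ℝ} {χ : E m → ℝ} {B : ℝ}

/-- the density bound -/
def Dens (F : X → E m) (ν : Measure X) (D : ℝ) : Prop :=
  ∀ (y : X) (t : ℝ), 0 < t → ν (FB F y t) ≤ ENNReal.ofReal (D * t ^ 2) * ν univ

theorem FB_symm (F : X → E m) {x y : X} {t : ℝ} : y ∈ FB F x t ↔ x ∈ FB F y t := by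
  unfold FB
  rw [mem_ofPred_eq, mem_ofPred_eq, norm_sub_rev]

theorem FBrel_closed (hF : Continuous F) (t : ℝ) : IsClosed {q : X × X | q.2 ∈ FB F q.1 t} :=
  isClosed_le (((hF.comp continuous_snd).sub (hF.comp continuous_fst)).norm) continuous_const

/-- Tonelli for balls -/
theorem tonelli_FB [SecondCountableTopology X] (hF : Continuous F) (ν μ : Measure X)
    [IsFiniteMeasure ν] [IsFiniteMeasure μ] (t : ℝ) {g : X → ℝ≥0∞} (hg : Measurable g) :
    ∫⁻ x, ∫⁻ y in FB F x t, g y ∂μ ∂ν = ∫⁻ y, g y * ν (FB F y t) ∂μ := by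
  have h1 : ∀ x, ∫⁻ y in FB F x t, g y ∂μ =
      ∫⁻ y, (({q : X × X | q.2 ∈ FB F q.1 t}).indicator (fun q => g q.2) (x, y)) ∂μ := by
    intro x
    rw [← lintegral_indicator (FB_closed hF x t).measurableSet]
    rfl
  simp only [h1]
  rw [lintegral_lintegral_swap]
  · refine lintegral_congr fun y => ?_
    have h2 : (fun x => ({q : X × X | q.2 ∈ FB F q.1 t}).indicator (fun q => g q.2) (x, y)) =
        (FB F y t).indicator fun _ => g y := by
      funext x
      by_cases hx : x ∈ FB F y t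
      · rw [indicator_of_mem hx, indicator_of_mem (s := {q : X × X | q.2 ∈ FB F q.1 t})
          (show (x, y) ∈ {q : X × X | q.2 ∈ FB F q.1 t} from (FB_symm F).1 hx)]
      · rw [indicator_of_notMem hx, indicator_of_notMem (s := {q : X × X | q.2 ∈ FB F q.1 t})
          (show (x, y) ∉ {q : X × X | q.2 ∈ FB F q.1 t} from fun h => hx ((FB_symm F).1 h))]
    rw [h2, lintegral_indicator (FB_closed hF y t).measurableSet, setLIntegral_const]
  · exact ((hg.comp measurable_snd).indicator (FBrel_closed hF t).measurableSet).aemeasurable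

theorem holder_pot [SecondCountableTopology X] (hF : Continuous F) (ν μ : Measure X)
    [IsFiniteMeasure ν] [IsFiniteMeasure μ] {p : ℝ} (hp : 1 < p) {D A t : ℝ} (ht : 0 < t)
    (hD : 0 ≤ D) (hA0 : 0 ≤ A)
    (hν : Dens F ν D) (hμ : ∀ x, μ (FB F x t) ≤ ENNReal.ofReal (A * t ^ d)) {g : X → ℝ≥0∞}
    (hg : Measurable g) :
    ∫⁻ x, ∫⁻ y in FB F x t, g y ∂μ ∂ν ≤
      (∫⁻ y, g y ^ p ∂μ) ^ (1 / p) *
        (ENNReal.ofReal ((D * t ^ 2) ^ (1 / p) * (A * t ^ d) ^ (1 - 1 / p)) * ν univ) := by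
  obtain ⟨q, hpq⟩ : ∃ q, p.HolderConjugate q := ⟨_, Real.HolderConjugate.conjExponent hp⟩
  have hq1 : 1 < q := hpq.symm.lt
  have hp0 : 0 < p := by linarith
  have hq0 : 0 < q := by linarith
  have hinv : 1 / q = 1 - 1 / p := by
    have := hpq.inv_add_inv_eq_one
    rw [one_div, one_div]
    linarith
  have hνm : Measurable fun y => ν (FB F y t) := by
    have h3 := measurable_measure_prodMk_left (ν := ν)
      (FBrel_closed (F := F) hF t).measurableSet
    exact h3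
  rw [tonelli_FB hF ν μ t hg]
  refine (ENNReal.lintegral_mul_le_Lp_mul_Lq μ hpq hg.aemeasurable hνm.aemeasurable).trans ?_
  refine mul_le_mul_right ?_ _
  -- the second factor
  obtain ⟨N, hN⟩ : ∃ N, N = ν univ := ⟨_, rfl⟩
  have hNtop : N ≠ ⊤ := by rw [hN]; exact measure_ne_top ν univ
  have h1 : ∫⁻ y, ν (FB F y t) ^ q ∂μ ≤
      (ENNReal.ofReal (D * t ^ 2) * N) ^ (q - 1) * (ENNReal.ofReal (A * t ^ d) * N) := by
    calc ∫⁻ y, ν (FB F y t) ^ q ∂μ
        ≤ ∫⁻ y, (ENNReal.ofReal (D * t ^ 2) * N) ^ (q - 1) * ν (FB F y t) ∂μ := by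
          refine lintegral_mono fun y => ?_
          have e : ν (FB F y t) ^ q = ν (FB F y t) ^ (q - 1) * ν (FB F y t) := by
            conv_lhs => rw [show q = (q - 1) + 1 by ring]
            rw [ENNReal.rpow_add_of_nonneg _ _ (by linarith) zero_le_one, ENNReal.rpow_one]
          dsimp only
          rw [e]
          refine mul_le_mul_left (ENNReal.rpow_le_rpow ?_ (by linarith)) _
          rw [hN]
          exact hν y t ht
      _ = (ENNReal.ofReal (D * t ^ 2) * N) ^ (q - 1) * ∫⁻ y, ν (FB F y t) ∂μ :=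
          lintegral_const_mul _ hνm
      _ ≤ _ := by
          refine mul_le_mul_right ?_ _
          have h2 := tonelli_FB hF ν μ t (g := fun _ => 1) measurable_const
          simp only [one_mul] at h2
          rw [← h2]
          calc ∫⁻ x, ∫⁻ y in FB F x t, 1 ∂μ ∂ν ≤ ∫⁻ x, ENNReal.ofReal (A * t ^ d) ∂ν := by
                refine lintegral_mono fun x => ?_
                rw [setLIntegral_const, one_mul]
                exact hμ x
            _ = _ := by rw [lintegral_const, hN]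
  refine (ENNReal.rpow_le_rpow h1 (by positivity)).trans (le_of_eq ?_)
  have hDt : 0 ≤ D * t ^ 2 := by positivity
  have hAt : 0 ≤ A * t ^ d := by positivity
  have hinv' : (q - 1) * (1 / q) = 1 / p := by
    have h4 : (q - 1) * (1 / q) = 1 - 1 / q := by field_simp
    rw [h4, hinv]
    ring
  rw [ENNReal.mul_rpow_of_nonneg _ _ (by positivity), ← ENNReal.rpow_mul, hinv',
    ENNReal.mul_rpow_of_nonneg _ _ (by positivity),
    ENNReal.mul_rpow_of_nonneg (ENNReal.ofReal (A * t ^ d)) _ (by positivity),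
    ENNReal.ofReal_mul (p := (D * t ^ 2) ^ (1 / p)) (by positivity), hinv,
    ← ENNReal.ofReal_rpow_of_nonneg hDt (by positivity),
    ← ENNReal.ofReal_rpow_of_nonneg hAt (by
      rw [sub_nonneg, div_le_one hp0]
      exact hp.le)]
  have h5 : N ^ (1 / p) * N ^ (1 - 1 / p) = N := by
    rw [← ENNReal.rpow_add_of_nonneg _ _ (by positivity) (by
      rw [sub_nonneg, div_le_one hp0]
      exact hp.le), add_sub_cancel, ENNReal.rpow_one]
  calc ENNReal.ofReal (D * t ^ 2) ^ (1 / p) * N ^ (1 / p) *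
        (ENNReal.ofReal (A * t ^ d) ^ (1 - 1 / p) * N ^ (1 - 1 / p)) =
        ENNReal.ofReal (D * t ^ 2) ^ (1 / p) * ENNReal.ofReal (A * t ^ d) ^ (1 - 1 / p) *
          (N ^ (1 / p) * N ^ (1 - 1 / p)) := by ring
    _ = _ := by rw [h5, hN]

theorem expo {s p D A C : ℝ} (hs : 0 < s) (hp : 0 < p) (hD : 0 ≤ D) (hA : 0 ≤ A) (hC : 0 ≤ C)
    (d m : ℕ) :
    (s ^ d)⁻¹ * (C * s ^ m * ((D * (C * s) ^ 2) ^ (1 / p) * (A * (C * s) ^ d) ^ (1 - 1 / p))) =
      (C * ((D * C ^ 2) ^ (1 / p) * (A * C ^ d) ^ (1 - 1 / p))) *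
        s ^ ((m : ℝ) - ((d : ℝ) - 2) / p) := by
  have h1 : (D * (C * s) ^ 2) ^ (1 / p) = (D * C ^ 2) ^ (1 / p) * s ^ (2 / p) := by
    rw [mul_pow, ← mul_assoc, Real.mul_rpow (by positivity) (by positivity), ← Real.rpow_natCast s,
      ← Real.rpow_mul hs.le]
    congr 2
    push_cast
    ring
  have h2 : (A * (C * s) ^ d) ^ (1 - 1 / p) =
      (A * C ^ d) ^ (1 - 1 / p) * s ^ ((d : ℝ) * (1 - 1 / p)) := by
    rw [mul_pow, ← mul_assoc, Real.mul_rpow (by positivity) (by positivity), ← Real.rpow_natCast s,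
      ← Real.rpow_mul hs.le]
  have h3 : s ^ ((m : ℝ) - ((d : ℝ) - 2) / p) =
      (s ^ d)⁻¹ * s ^ m * s ^ (2 / p) * s ^ ((d : ℝ) * (1 - 1 / p)) := by
    rw [← Real.rpow_natCast s, ← Real.rpow_natCast s, ← Real.rpow_neg hs.le, ← Real.rpow_add hs,
      ← Real.rpow_add hs, ← Real.rpow_add hs]
    congr 1
    field_simp
    ring
  rw [h1, h2, h3]
  ring

theorem pot1 [SecondCountableTopology X] (h : Ret (d := d) F P r)
    (hF : ContMDiff (𝓡 d) (𝓡 m) ∞ F) (hFi : Function.Injective F)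
    (hFd : ∀ x, Function.Injective (mfderiv (𝓡 d) (𝓡 m) F x)) (hPm : Measurable P)
    [IsFiniteMeasure (area d F)] {A ρ : ℝ} (hρ : 0 < ρ) (hA : 0 ≤ A)
    (hμ : ∀ t : ℝ, 0 ≤ t → t < ρ → ∀ x, area d F (FB F x t) ≤ ENNReal.ofReal (A * t ^ d))
    {p D : ℝ} (hp : 1 < p) (hD : 0 ≤ D) :
    ∃ C s₀ : ℝ, 0 < s₀ ∧ 0 ≤ C ∧ (∀ s : ℝ, 0 < s → s ≤ s₀ → ∀ (ν : Measure X) [IsFiniteMeasure ν],
      Dens F ν D → ∀ g : X → ℝ≥0∞, Measurable g →
      ∫⁻ x, (∫⁻ ξ in Metric.closedBall (0 : E m) s, g (P (F x - ξ))) ∂ν ≤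
        ENNReal.ofReal (C * s ^ ((m : ℝ) - ((d : ℝ) - 2) / p)) *
          ((∫⁻ y, g y ^ p ∂(area d F)) ^ (1 / p) * ν univ)) ∧
      ∀ s : ℝ, 0 < s → s ≤ s₀ → ∃ C' : ℝ, 0 ≤ C' ∧ ∀ g : X → ℝ≥0∞, Measurable g →
        ∀ x, ∫⁻ ξ in Metric.closedBall (0 : E m) s, g (P (F x - ξ)) ≤
          ENNReal.ofReal C' * (∫⁻ y, g y ^ p ∂(area d F)) ^ (1 / p) := by
  obtain ⟨C, s₀, hC, hs₀, hpush⟩ := push_est h hF hFi hFd hPm
  refine ⟨C * ((D * C ^ 2) ^ (1 / p) * (A * C ^ d) ^ (1 - 1 / p)), min s₀ (ρ / (2 * C)),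
    lt_min hs₀ (by positivity), by positivity, ?_, ?_⟩
  · intro s hs hss ν _ hν g hg
    have hs1 : s ≤ s₀ := hss.trans (min_le_left _ _)
    have hs2 : C * s < ρ := by
      have h1 := hss.trans (min_le_right _ _)
      rw [le_div_iff₀ (by positivity)] at h1
      nlinarith
    have h2 : ENNReal.ofReal (s ^ d) *
        ∫⁻ x, (∫⁻ ξ in Metric.closedBall (0 : E m) s, g (P (F x - ξ))) ∂ν ≤
        ENNReal.ofReal (C * s ^ m) * ((∫⁻ y, g y ^ p ∂(area d F)) ^ (1 / p) *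
        (ENNReal.ofReal ((D * (C * s) ^ 2) ^ (1 / p) * (A * (C * s) ^ d) ^ (1 - 1 / p)) *
          ν univ)) := by
      calc ENNReal.ofReal (s ^ d) *
          ∫⁻ x, (∫⁻ ξ in Metric.closedBall (0 : E m) s, g (P (F x - ξ))) ∂ν
          = ∫⁻ x, (ENNReal.ofReal (s ^ d) *
              ∫⁻ ξ in Metric.closedBall (0 : E m) s, g (P (F x - ξ))) ∂ν :=
            (lintegral_const_mul' _ _ ENNReal.ofReal_ne_top).symm
        _ ≤ ∫⁻ x, ENNReal.ofReal (C * s ^ m) * ∫⁻ y in FB F x (C * s), g y ∂(area d F) ∂ν :=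
            lintegral_mono fun x => hpush x s hs hs1 g hg
        _ = ENNReal.ofReal (C * s ^ m) * ∫⁻ x, ∫⁻ y in FB F x (C * s), g y ∂(area d F) ∂ν :=
            lintegral_const_mul' _ _ ENNReal.ofReal_ne_top
        _ ≤ _ := by
            refine mul_le_mul_right ?_ _
            exact holder_pot hF.continuous ν (area d F) hp (by positivity) hD hA hν
              (hμ (C * s) (by positivity) hs2) hg
    have h3 : ENNReal.ofReal ((s ^ d)⁻¹) * ENNReal.ofReal (s ^ d) = 1 := by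
      rw [← ENNReal.ofReal_mul (by positivity), inv_mul_cancel₀ (by positivity),
        ENNReal.ofReal_one]
    calc ∫⁻ x, (∫⁻ ξ in Metric.closedBall (0 : E m) s, g (P (F x - ξ))) ∂ν
        = ENNReal.ofReal ((s ^ d)⁻¹) * (ENNReal.ofReal (s ^ d) *
          ∫⁻ x, (∫⁻ ξ in Metric.closedBall (0 : E m) s, g (P (F x - ξ))) ∂ν) := by
          rw [← mul_assoc, h3, one_mul]
      _ ≤ ENNReal.ofReal ((s ^ d)⁻¹) * (ENNReal.ofReal (C * s ^ m) *
          ((∫⁻ y, g y ^ p ∂(area d F)) ^ (1 / p) *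
          (ENNReal.ofReal ((D * (C * s) ^ 2) ^ (1 / p) * (A * (C * s) ^ d) ^ (1 - 1 / p)) *
          ν univ))) := mul_le_mul_right h2 _
      _ = (ENNReal.ofReal ((s ^ d)⁻¹) * (ENNReal.ofReal (C * s ^ m) *
          ENNReal.ofReal ((D * (C * s) ^ 2) ^ (1 / p) * (A * (C * s) ^ d) ^ (1 - 1 / p)))) *
          ((∫⁻ y, g y ^ p ∂(area d F)) ^ (1 / p) * ν univ) := by ring
      _ = _ := by
          rw [← ENNReal.ofReal_mul (by positivity), ← ENNReal.ofReal_mul (by positivity),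
            expo hs (by linarith) hD hA hC.le]
  · intro s hs hss
    have hs1 : s ≤ s₀ := hss.trans (min_le_left _ _)
    obtain ⟨q, hpq⟩ : ∃ q, p.HolderConjugate q := ⟨_, Real.HolderConjugate.conjExponent hp⟩
    have hq0 : 0 < q := hpq.symm.pos
    obtain ⟨a, ha⟩ : ∃ a : ℝ≥0∞, a = (area d F univ) ^ (1 / q) := ⟨_, rfl⟩
    have hatop : a ≠ ⊤ := by
      rw [ha]
      exact ENNReal.rpow_ne_top_of_nonneg (by positivity) (measure_ne_top _ _)
    refine ⟨(s ^ d)⁻¹ * (C * s ^ m) * a.toReal, by positivity, fun g hg x => ?_⟩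
    have h1 : ∫⁻ y in FB F x (C * s), g y ∂(area d F) ≤
        (∫⁻ y, g y ^ p ∂(area d F)) ^ (1 / p) * a := by
      calc ∫⁻ y in FB F x (C * s), g y ∂(area d F) ≤ ∫⁻ y, g y ∂(area d F) :=
            setLIntegral_le_lintegral _ _
        _ = ∫⁻ y, (g * (1 : X → ℝ≥0∞)) y ∂(area d F) := by simp
        _ ≤ (∫⁻ y, g y ^ p ∂(area d F)) ^ (1 / p) *
              (∫⁻ y, (1 : X → ℝ≥0∞) y ^ q ∂(area d F)) ^ (1 / q) :=
            ENNReal.lintegral_mul_le_Lp_mul_Lq _ hpq hg.aemeasurable aemeasurable_one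
        _ = _ := by simp [ha]
    have h3 : ENNReal.ofReal ((s ^ d)⁻¹) * ENNReal.ofReal (s ^ d) = 1 := by
      rw [← ENNReal.ofReal_mul (by positivity), inv_mul_cancel₀ (by positivity),
        ENNReal.ofReal_one]
    calc ∫⁻ ξ in Metric.closedBall (0 : E m) s, g (P (F x - ξ))
        = ENNReal.ofReal ((s ^ d)⁻¹) * (ENNReal.ofReal (s ^ d) *
          ∫⁻ ξ in Metric.closedBall (0 : E m) s, g (P (F x - ξ))) := by
          rw [← mul_assoc, h3, one_mul]
      _ ≤ ENNReal.ofReal ((s ^ d)⁻¹) * (ENNReal.ofReal (C * s ^ m) *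
          ((∫⁻ y, g y ^ p ∂(area d F)) ^ (1 / p) * a)) :=
          mul_le_mul_right ((hpush x s hs hs1 g hg).trans (mul_le_mul_right h1 _)) _
      _ = (ENNReal.ofReal ((s ^ d)⁻¹) * (ENNReal.ofReal (C * s ^ m) * a)) *
          (∫⁻ y, g y ^ p ∂(area d F)) ^ (1 / p) := by ring
      _ = _ := by
          rw [ENNReal.ofReal_mul (q := a.toReal) (by positivity), ENNReal.ofReal_toReal hatop,
            ENNReal.ofReal_mul (q := C * s ^ m) (by positivity)]
          ring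

/-- scaling -/
theorem scale_ball {g : E m → ℝ≥0∞} (hg : Measurable g) {s δ : ℝ} (hs : 0 < s) :
    ∫⁻ ξ in Metric.closedBall (0 : E m) δ, g (s • ξ) =
      ENNReal.ofReal ((s ^ m)⁻¹) * ∫⁻ η in Metric.closedBall (0 : E m) (s * δ), g η := by
  obtain ⟨H, hH⟩ : ∃ H, H = (Metric.closedBall (0 : E m) (s * δ)).indicator g := ⟨_, rfl⟩
  have hHm : Measurable H := by
    rw [hH]
    exact hg.indicator Metric.isClosed_closedBall.measurableSet
  have h1 : ∫⁻ ξ in Metric.closedBall (0 : E m) δ, g (s • ξ) = ∫⁻ ξ : E m, H (s • ξ) := by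
    rw [← lintegral_indicator Metric.isClosed_closedBall.measurableSet, hH]
    refine lintegral_congr fun ξ => ?_
    have h2 : s • ξ ∈ Metric.closedBall (0 : E m) (s * δ) ↔ ξ ∈ Metric.closedBall (0 : E m) δ := by
      rw [mem_closedBall_zero_iff, mem_closedBall_zero_iff, norm_smul, Real.norm_eq_abs,
        abs_of_pos hs, mul_le_mul_iff_right₀ hs]
    by_cases hξ : ξ ∈ Metric.closedBall (0 : E m) δ
    · rw [indicator_of_mem hξ, indicator_of_mem (h2.2 hξ)]
    · rw [indicator_of_notMem hξ, indicator_of_notMem fun h => hξ (h2.1 h)]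
  have h3 : ∫⁻ ξ : E m, H (s • ξ) = ∫⁻ η, H η ∂(Measure.map (fun ξ : E m => s • ξ) volume) :=
    (lintegral_map hHm (measurable_const_smul s)).symm
  rw [h1, h3, Measure.map_addHaar_smul volume hs.ne', lintegral_smul_measure, hH,
    lintegral_indicator Metric.isClosed_closedBall.measurableSet]
  have h4 : |(s ^ Module.finrank ℝ (E m))⁻¹| = (s ^ m)⁻¹ := by
    rw [finrank_euclideanSpace_fin, abs_of_pos (by positivity)]
  rw [h4]
  rfl

theorem pot2 [SecondCountableTopology X] (h : Ret (d := d) F P r)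
    (hF : ContMDiff (𝓡 d) (𝓡 m) ∞ F) (hPm : Measurable P)
    {p D C s₀ : ℝ} (hC : 0 ≤ C) (hp : (d : ℝ) - 2 < p) (hp1 : 1 < p)
    (hpot : ∀ s : ℝ, 0 < s → s ≤ s₀ → ∀ (ν : Measure X) [IsFiniteMeasure ν],
      Dens F ν D → ∀ g : X → ℝ≥0∞, Measurable g →
      ∫⁻ x, (∫⁻ ξ in Metric.closedBall (0 : E m) s, g (P (F x - ξ))) ∂ν ≤
        ENNReal.ofReal (C * s ^ ((m : ℝ) - ((d : ℝ) - 2) / p)) *
          ((∫⁻ y, g y ^ p ∂(area d F)) ^ (1 / p) * ν univ)) {δ : ℝ} (hδ : 0 < δ) (hδs : δ ≤ s₀) :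
    ∃ C' : ℝ, 0 ≤ C' ∧ ∀ (ν : Measure X) [IsFiniteMeasure ν],
      Dens F ν D → ∀ g : X → ℝ≥0∞, Measurable g →
      ∫⁻ ξ in Metric.closedBall (0 : E m) δ, ∫⁻ s in Ioc (0 : ℝ) 1, ∫⁻ x, g (P (F x - s • ξ)) ∂ν ≤
        ENNReal.ofReal C' * ((∫⁻ y, g y ^ p ∂(area d F)) ^ (1 / p) * ν univ) := by
  obtain ⟨β, hβ⟩ : ∃ β, β = ((d : ℝ) - 2) / p := ⟨_, rfl⟩
  have hβ1 : β < 1 := by
    rw [hβ, div_lt_one (by linarith)]
    exact hp
  obtain ⟨e, he⟩ : ∃ e, e = (m : ℝ) - β := ⟨_, rfl⟩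
  obtain ⟨I, hI⟩ : ∃ I : ℝ≥0∞, I = ∫⁻ s in Ioc (0 : ℝ) 1, ENNReal.ofReal (s ^ (-β)) := ⟨_, rfl⟩
  have hItop : I ≠ ⊤ := by
    have h1 : IntervalIntegrable (fun s : ℝ => s ^ (-β)) volume 0 1 :=
      intervalIntegral.intervalIntegrable_rpow' (by linarith)
    rw [hI]
    exact h1.1.lintegral_lt_top.ne
  refine ⟨C * δ ^ e * I.toReal, by positivity, fun ν _ hν g hg => ?_⟩
  obtain ⟨GN, hGN⟩ : ∃ GN, GN = (∫⁻ y, g y ^ p ∂(area d F)) ^ (1 / p) * ν univ := ⟨_, rfl⟩
  rw [← hGN]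
  have hmeas : Measurable fun q : (E m × ℝ) × X => g (P (F q.2 - q.1.2 • q.1.1)) := by
    refine hg.comp (hPm.comp ?_)
    exact ((hF.continuous.comp continuous_snd).sub
      ((continuous_snd.comp continuous_fst).smul (continuous_fst.comp continuous_fst))).measurable
  rw [lintegral_lintegral_swap]
  · have hkey : ∀ s ∈ Ioc (0 : ℝ) 1,
        ∫⁻ ξ in Metric.closedBall (0 : E m) δ, ∫⁻ x, g (P (F x - s • ξ)) ∂ν ≤
        ENNReal.ofReal (s ^ (-β)) * (ENNReal.ofReal (C * δ ^ e) * GN) := by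
      intro s hs
      have hsw : ∫⁻ ξ in Metric.closedBall (0 : E m) δ, ∫⁻ x, g (P (F x - s • ξ)) ∂ν =
          ∫⁻ x, (∫⁻ ξ in Metric.closedBall (0 : E m) δ, g (P (F x - s • ξ))) ∂ν := by
        refine lintegral_lintegral_swap ?_
        refine Measurable.aemeasurable ?_
        refine hg.comp (hPm.comp ?_)
        have hc : Continuous fun q : E m × X => F q.2 - s • q.1 :=
          (hF.continuous.comp continuous_snd).sub (continuous_fst.const_smul s)
        exact hc.measurable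
      have hsc : ∀ x, ∫⁻ ξ in Metric.closedBall (0 : E m) δ, g (P (F x - s • ξ)) =
          ENNReal.ofReal ((s ^ m)⁻¹) *
            ∫⁻ η in Metric.closedBall (0 : E m) (s * δ), g (P (F x - η)) := fun x =>
        scale_ball (g := fun η => g (P (F x - η)))
          (hg.comp (hPm.comp (continuous_const.sub continuous_id).measurable)) hs.1
      have hsδ : s * δ ≤ s₀ := (mul_le_of_le_one_left hδ.le hs.2).trans hδs
      have h1 := hpot (s * δ) (mul_pos hs.1 hδ) hsδ ν hν g hg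
      rw [hsw]
      simp only [hsc]
      rw [lintegral_const_mul' _ _ ENNReal.ofReal_ne_top]
      refine (mul_le_mul_right h1 _).trans (le_of_eq ?_)
      rw [← hGN, ← mul_assoc, ← mul_assoc, ← ENNReal.ofReal_mul (inv_nonneg.2 (pow_nonneg hs.1.le _)),
        ← ENNReal.ofReal_mul (Real.rpow_nonneg hs.1.le _)]
      congr 2
      rw [← hβ, ← he, Real.mul_rpow hs.1.le hδ.le]
      have h2 : (s ^ m)⁻¹ * s ^ e = s ^ (-β) := by
        rw [← Real.rpow_natCast s, ← Real.rpow_neg hs.1.le, ← Real.rpow_add hs.1, he]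
        congr 1
        ring
      rw [← h2]
      ring
    calc ∫⁻ s in Ioc (0 : ℝ) 1,
          ∫⁻ ξ in Metric.closedBall (0 : E m) δ, ∫⁻ x, g (P (F x - s • ξ)) ∂ν
        ≤ ∫⁻ s in Ioc (0 : ℝ) 1, ENNReal.ofReal (s ^ (-β)) * (ENNReal.ofReal (C * δ ^ e) * GN) :=
          setLIntegral_mono' measurableSet_Ioc hkey
      _ = I * (ENNReal.ofReal (C * δ ^ e) * GN) := by
          rw [lintegral_mul_const, hI]
          exact (measurable_id.pow_const _).ennreal_ofReal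
      _ = _ := by
          rw [ENNReal.ofReal_mul (q := I.toReal) (by positivity), ENNReal.ofReal_toReal hItop]
          ring
  · refine Measurable.aemeasurable ?_
    exact hmeas.lintegral_prod_right'

end

end Pool.Agent.H33.CD
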