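import Pool.Agent.H33.CD.Alt
import Pool.Agent.H33.TM.Geo
import Pool.Graph.R_pool_sql_team_seeded_1acbe0a2.Y391.NA.Tub

/-!
# Smooth retractions onto an embedded closed manifold
-/

set_option autoImplicit false

open Set Filter Topology MeasureTheory Function
open scoped Manifold ContDiff RealInnerProductSpace

noncomputable section

namespace Pool.Agent.H33.CD

open Pool.Agent.Y501.SY Pool.Agent.Y455.SY

variable {d m : ℕ} {X : Type} [TopologicalSpace X] [ChartedSpace (E d) X]
  [IsManifold (𝓡 d) ∞ X]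

/-- a smooth retraction of the neighbourhood of radius `r` -/
structure Ret (F : X → E m) (P : E m → X) (r : ℝ) : Prop where
  pos : 0 < r
  inv : ∀ x, P (F x) = x
  smooth : ∀ (x : X) (w : E m), ‖w - F x‖ < r → ContMDiffAt (𝓡 m) (𝓡 d) ∞ P w

theorem exists_ret [CompactSpace X] [T2Space X] [Nonempty X] {F : X → E m}
    (hF : ContMDiff (𝓡 d) (𝓡 m) ∞ F) (hFi : Function.Injective F)
    (hFd : ∀ x, Function.Injective (mfderiv (𝓡 d) (𝓡 m) F x)) :
    ∃ (P : E m → X) (r : ℝ), Ret (d := d) F P r := by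
  have hmin : ∀ w : E m, ∃ y : X, ∀ y', ‖w - F y‖ ≤ ‖w - F y'‖ := by
    intro w
    obtain ⟨y, -, hy⟩ := isCompact_univ.exists_isMinOn (univ_nonempty (α := X))
      (f := fun y => ‖w - F y‖) (continuous_const.sub hF.continuous).norm.continuousOn
    exact ⟨y, fun y' => hy (mem_univ y')⟩
  choose π hπ using hmin
  have hinv : ∀ y, π (F y) = y := by
    intro y
    have h1 := hπ (F y) y
    rw [sub_self, norm_zero] at h1
    have h2 : F y - F (π (F y)) = 0 := norm_le_zero_iff.1 h1
    exact hFi (sub_eq_zero.1 h2).symm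
  have hemb : IsEmbedding F := (hF.continuous.isClosedEmbedding hFi).isEmbedding
  have hcont : ∀ y, Tendsto π (𝓝 (F y)) (𝓝 y) := by
    intro y
    rw [hemb.isInducing.nhds_eq_comap y, tendsto_comap_iff]
    rw [tendsto_iff_norm_sub_tendsto_zero]
    have h1 : Tendsto (fun w : E m => 2 * ‖w - F y‖) (𝓝 (F y)) (𝓝 0) := by
      have h2 : Continuous fun w : E m => 2 * ‖w - F y‖ := by fun_prop
      have h3 := h2.tendsto (F y)
      simpa using h3
    refine squeeze_zero (fun w => norm_nonneg _) (fun w => ?_) h1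
    have h2 := hπ w y
    have h3 : (F ∘ π) w - F y = (w - F y) - (w - F (π w)) := by
      simp only [comp_apply]
      abel
    rw [h3]
    refine (norm_sub_le _ _).trans ?_
    linarith
  have hret : ∀ y, ∀ᶠ w in 𝓝 (F y), ContMDiffAt (𝓡 m) (𝓡 d) ∞ π w := by
    intro y
    set c := chartAt (E d) y with hc
    have hy : y ∈ c.source := mem_chart_source (E d) y
    have hsymm : ContMDiffOn (𝓡 d) (𝓡 d) ∞ c.symm c.target := contMDiffOn_chart_symm
    have h1 : ContDiffOn ℝ ∞ (fun z => F (c.symm z)) c.target :=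
      contMDiffOn_iff_contDiffOn.1 (hF.comp_contMDiffOn hsymm)
    have hcy : c y ∈ c.target := c.map_source hy
    have h2 : ∀ z ∈ c.target, ContDiffAt ℝ ∞ (fun z => F (c.symm z)) z := fun z hz =>
      h1.contDiffAt (c.open_target.mem_nhds hz)
    have h3 : ∀ᶠ z in 𝓝 (c y), ContDiffAt ℝ ∞ (fun z => F (c.symm z)) z := by
      filter_upwards [c.open_target.mem_nhds hcy] with z hz using h2 z hz
    have h4 : Injective (fderiv ℝ (fun z => F (c.symm z)) (c y)) := by
      have h5 : mfderiv (𝓡 d) (𝓡 m) F y = fderiv ℝ (fun z => F (c.symm z)) (c y) := by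
        have hmd : MDifferentiableAt (𝓡 d) (𝓡 m) F y := hF.mdifferentiableAt (by simp)
        have h6 : fderivWithin ℝ (writtenInExtChartAt (𝓡 d) (𝓡 m) y F) (range (𝓡 d))
            (extChartAt (𝓡 d) y y) = fderiv ℝ (fun z => F (c.symm z)) (c y) := by
          simp only [mfld_simps, writtenInExtChartAt, ← hc, comp_def, fderivWithin_univ] <;> rfl
        exact hmd.mfderiv.trans h6
      rw [← h5]
      exact hFd y
    obtain ⟨k, hk1, hk2⟩ := Pool.Agent.Y391.NA.loc_inv h3 h4
    have hcsy : c.symm (c y) = y := c.left_inv hy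
    simp only [hcsy] at hk1 hk2
    have h5 : Tendsto (fun w => ((w, c (π w)) : E m × E d)) (𝓝 (F y)) (𝓝 (F y, c y)) := by
      refine Tendsto.prodMk_nhds tendsto_id ?_
      exact (c.continuousAt hy).tendsto.comp (hcont y)
    have h6 : ∀ᶠ w in 𝓝 (F y), π w ∈ c.source ∧ c (π w) = k w := by
      filter_upwards [h5.eventually hk2, (hcont y).eventually (c.open_source.mem_nhds hy)]
        with w hw hws
      refine ⟨hws, hw ?_⟩
      have h7 : c.symm (c (π w)) = π w := c.left_inv hws
      have h8 := fun v => Pool.Agent.Y391.NA.orth (h := fun z => F (c.symm z)) (z := c (π w))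
        (w := w) ((h2 _ (c.map_source hws)).differentiableAt (by simp)) (fun z' => by
          simp only [h7]
          exact hπ w _) v
      exact h8
    filter_upwards [h6.eventually_nhds, hk1] with w hw hkw
    have hw0 := hw.self_of_nhds
    have h7 : π =ᶠ[𝓝 w] fun w' => c.symm (k w') := by
      filter_upwards [hw] with w' hw'
      rw [← hw'.2, c.left_inv hw'.1]
    refine ContMDiffAt.congr_of_eventuallyEq ?_ h7
    have h8 : ContMDiffAt (𝓡 d) (𝓡 d) ∞ c.symm (k w) := by
      refine hsymm.contMDiffAt (c.open_target.mem_nhds ?_)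
      rw [← hw0.2]
      exact c.map_source hw0.1
    exact h8.comp w hkw.contMDiffAt
  obtain ⟨O, hO⟩ : ∃ O, O = {w : E m | ∀ᶠ w' in 𝓝 w, ContMDiffAt (𝓡 m) (𝓡 d) ∞ π w'} :=
    ⟨_, rfl⟩
  have hOo : IsOpen O := by
    rw [hO]
    exact isOpen_setOfPred_eventually_nhds
  have hsub : range F ⊆ O := by
    rintro _ ⟨y, rfl⟩
    rw [hO]
    exact hret y
  obtain ⟨r, hr, h⟩ := (isCompact_range hF.continuous).exists_thickening_subset_open hOo hsub
  refine ⟨π, r, hr, hinv, fun x w hw => ?_⟩
  have h1 : w ∈ Metric.thickening r (range F) := by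
    rw [Metric.mem_thickening_iff]
    exact ⟨F x, mem_range_self x, by rw [dist_eq_norm]; exact hw⟩
  have h2 := h h1
  rw [hO] at h2
  exact h2.self_of_nhds

end Pool.Agent.H33.CD
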