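import Pool.Agent.H33.CD.Dat

/-!
# Convolution of forms
-/

set_option autoImplicit false
set_option linter.unusedSectionVars false

open Set Filter Topology MeasureTheory Function
open scoped Manifold ContDiff RealInnerProductSpace Convolution

noncomputable section

namespace Pool.Agent.H33.CD

open Pool.Agent.Y501.SY Pool.Agent.Y455.SY

section

variable {m : ℕ}

/-- smoothing kernels -/
structure Kern (φ : E m → ℝ) (δ L : ℝ) : Prop where
  pos : 0 < δ
  sm : ContDiff ℝ ∞ φ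
  cpt : HasCompactSupport φ
  nn : ∀ ξ, 0 ≤ φ ξ
  supp : ∀ ξ, φ ξ ≠ 0 → ‖ξ‖ ≤ δ
  int : ∫ ξ, φ ξ = 1
  bd : ∀ ξ, φ ξ ≤ L
  lip : ∫ ξ, ‖fderiv ℝ φ ξ‖ ≤ L

theorem exists_kern (m : ℕ) {δ : ℝ} (hδ : 0 < δ) : ∃ (φ : E m → ℝ) (L : ℝ), Kern φ δ L := by
  obtain ⟨b, hb⟩ : ∃ b : ContDiffBump (0 : E m), b.rOut = δ :=
    ⟨⟨δ / 2, δ, by linarith, by linarith⟩, rfl⟩
  have hc : HasCompactSupport (b.normed volume) := b.hasCompactSupport_normed
  obtain ⟨C, hC⟩ := hc.exists_bound_of_continuous b.continuous_normed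
  refine ⟨b.normed volume, max C (∫ ξ, ‖fderiv ℝ (b.normed volume) ξ‖), hδ, b.contDiff_normed,
    hc, fun ξ => b.nonneg_normed ξ, ?_, b.integral_normed, ?_, le_max_right _ _⟩
  · intro ξ hξ
    have h1 : ξ ∈ Function.support (b.normed volume) := hξ
    rw [b.support_normed_eq, hb] at h1
    exact (mem_ball_zero_iff.1 h1).le
  · intro ξ
    exact (le_abs_self _).trans ((hC ξ).trans (le_max_left _ _))

/-- the convolution of a form with a kernel -/
def conv {k : ℕ} (φ : E m → ℝ) (Θ : E m → Al m k) (w : E m) : Al m k :=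
  ∫ ξ, φ ξ • Θ (w - ξ)

theorem conv_eq {k : ℕ} (φ : E m → ℝ) (Θ : E m → Al m k) :
    conv φ Θ = (φ ⋆[ContinuousLinearMap.lsmul ℝ ℝ, volume] Θ) := rfl

variable {φ : E m → ℝ} {δ L : ℝ}

theorem conv_smooth (h : Kern φ δ L) {k : ℕ} {Θ : E m → Al m k} (hΘ : Continuous Θ) :
    ContDiff ℝ ∞ (conv φ Θ) := by
  rw [conv_eq]
  exact h.cpt.contDiff_convolution_left _ h.sm hΘ.locallyIntegrable

theorem conv_int (h : Kern φ δ L) {k : ℕ} {Θ : E m → Al m k} (hΘ : Continuous Θ) (w : E m) :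
    Integrable fun ξ => φ ξ • Θ (w - ξ) :=
  (h.sm.continuous.smul (hΘ.comp (continuous_const.sub continuous_id))).integrable_of_hasCompactSupport
    h.cpt.smul_right

theorem conv_fderiv_norm (h : Kern φ δ L) {k : ℕ} {Θ : E m → Al m k} (hΘ : Continuous Θ)
    {M : ℝ} (hM : ∀ w, ‖Θ w‖ ≤ M) (w : E m) : ‖fderiv ℝ (conv φ Θ) w‖ ≤ L * M := by
  have hM0 : 0 ≤ M := (norm_nonneg _).trans (hM 0)
  have h1 := h.cpt.hasFDerivAt_convolution_left (μ := volume) (ContinuousLinearMap.lsmul ℝ ℝ)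
    (h.sm.of_le (by simp)) (hΘ.locallyIntegrable (μ := volume)) w
  rw [conv_eq, h1.fderiv, convolution_def]
  have hc : HasCompactSupport (fderiv ℝ φ) := h.cpt.fderiv ℝ
  have hcont : Continuous (fderiv ℝ φ) := h.sm.continuous_fderiv (by simp)
  have hi : Integrable fun t => ‖fderiv ℝ φ t‖ * M :=
    (hcont.norm.integrable_of_hasCompactSupport hc.norm).mul_const M
  refine (norm_integral_le_of_norm_le hi (Eventually.of_forall fun t => ?_)).trans ?_
  · refine ContinuousLinearMap.opNorm_le_bound _ (by positivity) fun v => ?_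
    have e : (((ContinuousLinearMap.lsmul ℝ ℝ : ℝ →L[ℝ] Al m k →L[ℝ] Al m k).precompL (E m))
      (fderiv ℝ φ t) (Θ (w - t))) v = (fderiv ℝ φ t v) • Θ (w - t) := rfl
    rw [e, norm_smul]
    have e1 := (fderiv ℝ φ t).le_opNorm v
    calc _ ≤ (‖fderiv ℝ φ t‖ * ‖v‖) * M := mul_le_mul e1 (hM _) (norm_nonneg _) (by positivity)
      _ = _ := by ring
  · rw [integral_mul_const]
    exact mul_le_mul_of_nonneg_right h.lip hM0

theorem conv_norm (h : Kern φ δ L) {k : ℕ} {Θ : E m → Al m k} {M : ℝ} {w : E m}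
    (hM : ∀ ξ, ‖ξ‖ ≤ δ → ‖Θ (w - ξ)‖ ≤ M) : ‖conv φ Θ w‖ ≤ M := by
  unfold conv
  have hi : Integrable fun ξ => φ ξ * M :=
    (h.sm.continuous.integrable_of_hasCompactSupport h.cpt).mul_const M
  refine (norm_integral_le_of_norm_le hi (Eventually.of_forall fun ξ => ?_)).trans ?_
  · rw [norm_smul, Real.norm_eq_abs, abs_of_nonneg (h.nn ξ)]
    by_cases hξ : φ ξ = 0
    · rw [hξ, zero_mul, zero_mul]
    · exact mul_le_mul_of_nonneg_left (hM ξ (h.supp ξ hξ)) (h.nn ξ)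
  · rw [integral_mul_const, h.int, one_mul]

theorem convW_fderiv (h : Kern φ δ L) {W W' : Type} [NormedAddCommGroup W] [NormedSpace ℝ W]
    [CompleteSpace W] [NormedAddCommGroup W'] [NormedSpace ℝ W'] [CompleteSpace W']
    {Θ : E m → W} (hΘ : ContDiff ℝ ∞ Θ)
    (hc : HasCompactSupport Θ) (A : (E m →L[ℝ] W) →L[ℝ] W') (w : E m) :
    A (fderiv ℝ (fun w => ∫ ξ, φ ξ • Θ (w - ξ)) w) = ∫ ξ, φ ξ • A (fderiv ℝ Θ (w - ξ)) := by
  have h1 := hc.hasFDerivAt_convolution_right (μ := volume) (ContinuousLinearMap.lsmul ℝ ℝ)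
    (h.sm.continuous.locallyIntegrable (μ := volume)) (hΘ.of_le (by simp)) w
  have h0 : (fun w => ∫ ξ, φ ξ • Θ (w - ξ)) =
      (φ ⋆[ContinuousLinearMap.lsmul ℝ ℝ, volume] Θ) := rfl
  rw [h0, h1.fderiv, convolution_def]
  have hcont : Continuous (fderiv ℝ Θ) := hΘ.continuous_fderiv (by simp)
  have hi : Integrable fun t => φ t • fderiv ℝ Θ (w - t) :=
    (h.sm.continuous.smul (hcont.comp (continuous_const.sub continuous_id))).integrable_of_hasCompactSupport
      h.cpt.smul_right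
  have e : (fun t => (((ContinuousLinearMap.lsmul ℝ ℝ : ℝ →L[ℝ] W →L[ℝ] W).precompR
      (E m)) (φ t) (fderiv ℝ Θ (w - t)))) = fun t => φ t • fderiv ℝ Θ (w - t) := by
    funext t
    ext v
    rfl
  rw [e, ← A.integral_comp_comm hi]
  refine integral_congr_ae (Eventually.of_forall fun t => ?_)
  simp only [map_smul]

theorem conv_extDeriv (h : Kern φ δ L) {k : ℕ} {Θ : E m → Al m k} (hΘ : ContDiff ℝ ∞ Θ)
    (hc : HasCompactSupport Θ) (w : E m) :
    extDeriv (conv φ Θ) w = conv φ (extDeriv Θ) w :=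
  convW_fderiv h hΘ hc (ContinuousAlternatingMap.alternatizeUncurryFinCLM ℝ (E m) ℝ (n := k)) w

theorem conv_sub (h : Kern φ δ L) {k : ℕ} {Θ Θ' : E m → Al m k} (hΘ : Continuous Θ)
    (hΘ' : Continuous Θ') (w : E m) :
    conv φ (fun w => Θ w - Θ' w) w = conv φ Θ w - conv φ Θ' w := by
  unfold conv
  rw [← integral_sub (conv_int h hΘ w) (conv_int h hΘ' w)]
  refine integral_congr_ae (Eventually.of_forall fun t => ?_)
  simp only [smul_sub]

end

end Pool.Agent.H33.CD
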