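import Pool.Agent.H33.CD.CR2
import Pool.Agent.H33.CD.Pot
import Pool.Graph.R_seed8.R772.Dual

/-!
# The structure measure of an almost complex structure which is not tamed
-/

set_option autoImplicit false
set_option linter.unusedSectionVars false
set_option linter.unusedVariables false

open Set Filter Topology MeasureTheory Function
open scoped Manifold ContDiff RealInnerProductSpace Convolution ENNReal NNReal

noncomputable section

namespace Pool.Agent.H33.CD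

open Pool.Agent.Y501.SY Pool.Agent.Y455.SY Pool.Agent.H33.TM Pool.Agent.Q235.SZ

section

variable {d m : ℕ} {X : Type} [TopologicalSpace X] [ChartedSpace (E d) X]
  [IsManifold (𝓡 d) ∞ X]
  {F : X → E m} {P : E m → X} {r : ℝ} {χ : E m → ℝ} {B : ℝ}

/-- the differential of the embedding -/
def dF (F : X → E m) (x : X) : E d →L[ℝ] E m := mfderiv (𝓡 d) (𝓡 m) F x

/-- the differential of the retraction -/
def dP (P : E m → X) (w : E m) : E m →L[ℝ] E d := mfderiv (𝓡 m) (𝓡 d) P w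

theorem dP_dF (h : Ret (d := d) F P r) (hF : ContMDiff (𝓡 d) (𝓡 m) ∞ F) (x : X) (v : E d) :
    dP P (F x) (dF F x v) = v := DP_DF h hF x v

/-- the endomorphism of the tangent bundle on the ambient space -/
def JJ (F : X → E m) (P : E m → X) (J : End d X) (x : X) : E m →L[ℝ] E m :=
  (dF F x).comp ((toE J x).comp (dP P (F x)))

theorem JJ_apply (F : X → E m) (P : E m → X) (J : End d X) (x : X) (a : E m) :
    JJ F P J x a = dF F x (toE J x (dP P (F x) a)) := rfl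

theorem JJ_DF (h : Ret (d := d) F P r) (hF : ContMDiff (𝓡 d) (𝓡 m) ∞ F) (J : End d X) (x : X)
    (v : E d) : JJ F P J x (dF F x v) = dF F x (toE J x v) := by
  rw [JJ_apply, dP_dF h hF]

/-- the evaluation of a field of forms -/
def Ev (F : X → E m) (P : E m → X) (J : End d X) (f : C(X, Aw m)) (q : X × E m) : ℝ :=
  un (f q.1) ![q.2, JJ F P J q.1 q.2]

theorem Ev_eq (h : Ret (d := d) F P r) (hF : ContMDiff (𝓡 d) (𝓡 m) ∞ F) {J : End d X}
    {f : C(X, Aw m)} {σ : Form d X 2} (hf : Rep F P f σ) (x : X) (v : E d) :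
    Ev F P J f (x, dF F x v) = (σ x : (E d) [⋀^Fin 2]→L[ℝ] ℝ) ![v, toE J x v] := by
  have h1 : (σ x : (E d) [⋀^Fin 2]→L[ℝ] ℝ) ![v, toE J x v] =
      PB P σ (F x) (fun i => dF F x ((![v, toE J x v] : Fin 2 → E d) i)) := form_eq h hF σ x _
  rw [h1]
  unfold Ev
  rw [hf x]
  dsimp only
  rw [JJ_DF h hF]
  congr 1
  funext i
  fin_cases i <;> rfl

theorem DQ_eq' (h : Ret (d := d) F P r) (hF : ContMDiff (𝓡 d) (𝓡 m) ∞ F) (x : X) (a : E m) :
    fderiv ℝ (F ∘ P) (F x) a = dF (d := d) F x (dP P (F x) a) := by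
  refine (DQ_eq h hF (mem_tube h.pos x) a).trans ?_
  have e3 : (mfderiv (𝓡 d) (𝓡 m) F (P (F x)) : E d →L[ℝ] E m) = mfderiv (𝓡 d) (𝓡 m) F x := by
    rw [h.inv x]
  exact DFunLike.congr_fun e3 _

/-- the derivative of the retraction in a chart -/
theorem mP_loc (h : Ret (d := d) F P r) {w₀ : E m}
    (hw₀ : w₀ ∈ tube F r) :
    ContDiffAt ℝ ∞ (chartAt (E d) (P w₀) ∘ P) w₀ ∧ ∀ᶠ w in 𝓝 w₀,
      P w ∈ (chartAt (E d) (P w₀)).source ∧ ∀ v : E m, dP P w v =
        A (P w₀) (chartAt (E d) (P w₀) (P w)) (fderiv ℝ (chartAt (E d) (P w₀) ∘ P) w v) := by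
  obtain ⟨c, hc⟩ : ∃ c, c = chartAt (E d) (P w₀) := ⟨_, rfl⟩
  have hP := h.on
  have hU' : IsOpen (tube F r ∩ P ⁻¹' c.source) :=
    hP.continuousOn.isOpen_inter_preimage (tube_open F r) c.open_source
  have hp₀ : w₀ ∈ tube F r ∩ P ⁻¹' c.source := by
    refine ⟨hw₀, ?_⟩
    rw [hc]
    exact mem_chart_source (E d) (P w₀)
  have hcs : ContMDiffOn (𝓡 d) (𝓡 d) ∞ c c.source := by
    rw [hc]
    exact contMDiffOn_chart
  have hct : ContMDiffOn (𝓡 d) (𝓡 d) ∞ c.symm c.target := by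
    rw [hc]
    exact contMDiffOn_chart_symm
  have hψm : ContMDiffOn (𝓡 m) (𝓡 d) ∞ (c ∘ P) (tube F r ∩ P ⁻¹' c.source) :=
    hcs.comp (hP.mono inter_subset_left) fun p hp => hp.2
  have hψ : ContDiffOn ℝ ∞ (c ∘ P) (tube F r ∩ P ⁻¹' c.source) :=
    contMDiffOn_iff_contDiffOn.1 hψm
  rw [← hc]
  refine ⟨hψ.contDiffAt (hU'.mem_nhds hp₀), ?_⟩
  filter_upwards [hU'.mem_nhds hp₀] with w hw
  refine ⟨hw.2, fun v => ?_⟩
  have hψp : MDifferentiableAt (𝓡 m) (𝓡 d) (c ∘ P) w :=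
    ((hψm w hw).contMDiffAt (hU'.mem_nhds hw)).mdifferentiableAt (by simp)
  have hcp : MDifferentiableAt (𝓡 d) (𝓡 d) c.symm ((c ∘ P) w) :=
    ((hct _ (c.map_source hw.2)).contMDiffAt
      (c.open_target.mem_nhds (c.map_source hw.2))).mdifferentiableAt (by simp)
  have h2 : P =ᶠ[𝓝 w] (c.symm ∘ (c ∘ P)) := by
    filter_upwards [hU'.mem_nhds hw] with u hu
    exact (c.left_inv hu.2).symm
  have h3 : dP P w =
      (mfderiv (𝓡 d) (𝓡 d) c.symm ((c ∘ P) w)).comp (fderiv ℝ (c ∘ P) w) := by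
    unfold dP
    have h4 : (mfderiv (𝓡 m) (𝓡 d) P w : E m →L[ℝ] E d) =
      mfderiv (𝓡 m) (𝓡 d) (c.symm ∘ (c ∘ P)) w := h2.mfderiv_eq
    rw [h4, mfderiv_comp w hcp hψp, mfderiv_eq_fderiv]
    rfl
  rw [h3]
  unfold A
  rw [hc]
  rfl

theorem DF_A (hF : ContMDiff (𝓡 d) (𝓡 m) ∞ F) (z : X) {p : E d}
    (hp : p ∈ (chartAt (E d) z).target) (v : E d) :
    dF F ((chartAt (E d) z).symm p) (A z p v) = fderiv ℝ (Gz (d := d) F z) p v := by
  have h1 : MDifferentiableAt (𝓡 d) (𝓡 m) F ((chartAt (E d) z).symm p) :=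
    hF.mdifferentiableAt (by simp)
  have h2 : MDifferentiableAt (𝓡 d) (𝓡 d) (chartAt (E d) z).symm p :=
    ((contMDiffOn_chart_symm (n := ∞)).contMDiffAt
      ((chartAt (E d) z).open_target.mem_nhds hp)).mdifferentiableAt (by simp)
  have h3 : mfderiv (𝓡 d) (𝓡 m) (F ∘ (chartAt (E d) z).symm) p =
    (mfderiv (𝓡 d) (𝓡 m) F ((chartAt (E d) z).symm p)).comp
    (mfderiv (𝓡 d) (𝓡 d) (chartAt (E d) z).symm p) := mfderiv_comp p h1 h2
  have h4 : mfderiv (𝓡 d) (𝓡 m) (Gz (d := d) F z) p = fderiv ℝ (Gz (d := d) F z) p :=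
    mfderiv_eq_fderiv
  unfold Gz at h4 ⊢
  rw [← h4, h3]
  rfl

theorem JJ_cont (h : Ret (d := d) F P r) (hF : ContMDiff (𝓡 d) (𝓡 m) ∞ F) {J : End d X}
    (hJ : IsAlmostComplex J) : Continuous (JJ F P J) := by
  rw [continuous_iff_continuousAt]
  intro x₀
  obtain ⟨h1, h2⟩ := mP_loc h (mem_tube h.pos x₀)
  rw [h.inv x₀] at h1 h2
  obtain ⟨c, hc⟩ : ∃ c, c = chartAt (E d) x₀ := ⟨_, rfl⟩
  have hcx : ContinuousAt c x₀ := by
    rw [hc]
    exact (chartAt (E d) x₀).continuousAt (mem_chart_source (E d) x₀)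
  have ht : c.target ∈ 𝓝 (c x₀) := by
    rw [hc]
    exact (chartAt (E d) x₀).open_target.mem_nhds (mem_chart_target (E d) x₀)
  have g1 : ContinuousAt (fun x => fderiv ℝ (Gz (d := d) F x₀) (c x)) x₀ := by
    have g : ContinuousOn (fderiv ℝ (Gz (d := d) F x₀)) (chartAt (E d) x₀).target :=
      (Gz_smooth hF x₀).continuousOn_fderiv_of_isOpen (chartAt (E d) x₀).open_target (by simp)
    rw [hc] at ht ⊢
    exact (g.continuousAt ht).comp (hc ▸ hcx)
  have g2 : ContinuousAt (fun x => inChart J x₀ (c x)) x₀ := by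
    rw [hc] at ht ⊢
    exact ((hJ.cont x₀).continuousAt ht).comp (hc ▸ hcx)
  have g3 : ContinuousAt (fun x => fderiv ℝ (c ∘ P) (F x)) x₀ := by
    rw [hc]
    have g : ContDiffAt ℝ 0 (fderiv ℝ (chartAt (E d) x₀ ∘ P)) (F x₀) := h1.fderiv_right (by simp)
    exact g.continuousAt.comp hF.continuous.continuousAt
  have g4 : ContinuousAt (fun x => (fderiv ℝ (Gz (d := d) F x₀) (c x)).comp
      ((inChart J x₀ (c x)).comp (fderiv ℝ (c ∘ P) (F x)))) x₀ :=
    g1.clm_comp (g2.clm_comp g3)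
  refine g4.congr ?_
  filter_upwards [hF.continuous.continuousAt.eventually h2] with x hx
  obtain ⟨hx1, hx2⟩ := hx
  rw [h.inv x] at hx1 hx2
  refine ContinuousLinearMap.ext fun a => ?_
  rw [JJ_apply, hx2 a]
  obtain ⟨p, hp⟩ : ∃ p, p = chartAt (E d) x₀ x := ⟨_, rfl⟩
  have hpt : p ∈ (chartAt (E d) x₀).target := by
    rw [hp]
    exact (chartAt (E d) x₀).map_source hx1
  have hpx : x = (chartAt (E d) x₀).symm p := by
    rw [hp]
    exact ((chartAt (E d) x₀).left_inv hx1).symm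
  rw [← hp]
  obtain ⟨u, hu⟩ : ∃ u, u = fderiv ℝ (chartAt (E d) x₀ ∘ P) (F x) a := ⟨_, rfl⟩
  have e1 : (fderiv ℝ (Gz (d := d) F x₀) (c x)).comp
      ((inChart J x₀ (c x)).comp (fderiv ℝ (c ∘ P) (F x))) a =
      fderiv ℝ (Gz (d := d) F x₀) p (inChart J x₀ p u) := by
    rw [hu, hp, hc]
    rfl
  rw [e1, ← hu, hpx]
  have e2 : toE J ((chartAt (E d) x₀).symm p) (A x₀ p u) = A x₀ p (inChart J x₀ p u) :=
    J_A J x₀ hpt u
  rw [e2, DF_A hF x₀ hpt]

theorem Ev_cont (h : Ret (d := d) F P r) (hF : ContMDiff (𝓡 d) (𝓡 m) ∞ F) {J : End d X}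
    (hJ : IsAlmostComplex J) (f : C(X, Aw m)) : Continuous (Ev F P J f) := by
  have h1 : Continuous fun q : X × E m => un (f q.1) :=
    un_cont.comp (f.continuous.comp continuous_fst)
  have h2 : Continuous fun q : X × E m => JJ F P J q.1 q.2 :=
    ((JJ_cont h hF hJ).comp continuous_fst).clm_apply continuous_snd
  have h3 : Continuous fun q : X × E m => (![q.2, JJ F P J q.1 q.2] : Fin 2 → E m) := by
    rw [continuous_pi_iff]
    intro i
    fin_cases i
    · exact continuous_snd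
    · exact h2
  exact h1.eval h3

/-- the unit tangent vectors -/
def Kt (F : X → E m) (P : E m → X) : Set (X × E m) :=
  {q | q.2 ∈ Metric.sphere (0 : E m) 1 ∧ fderiv ℝ (F ∘ P) (F q.1) q.2 = q.2}

theorem Kt_mem (h : Ret (d := d) F P r) (hF : ContMDiff (𝓡 d) (𝓡 m) ∞ F) {q : X × E m}
    (hq : q ∈ Kt F P) : ∃ v : E d, q.2 = dF F q.1 v ∧ nm F q.1 v = 1 := by
  refine ⟨dP P (F q.1) q.2, ?_, ?_⟩
  · rw [← DQ_eq' h hF, hq.2]
  · have h1 : nm (d := d) F q.1 (dP (d := d) P (F q.1) q.2) = ‖q.2‖ := by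
      have h2 := DQ_eq' h hF q.1 q.2
      rw [hq.2] at h2
      exact (congrArg norm h2).symm
    rw [h1]
    exact mem_sphere_zero_iff_norm.1 hq.1

theorem Kt_compact [CompactSpace X] (h : Dat (d := d) F P r χ B) : IsCompact (Kt F P) := by
  have h1 : IsCompact ((univ : Set X) ×ˢ Metric.sphere (0 : E m) 1) :=
    isCompact_univ.prod (isCompact_sphere _ _)
  refine h1.of_isClosed_subset ?_ fun q hq => ⟨mem_univ _, hq.1⟩
  have h2 : Continuous fun q : X × E m => fderiv ℝ (F ∘ P) (F q.1) q.2 :=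
    (h.DQF.comp continuous_fst).clm_apply continuous_snd
  exact (Metric.isClosed_sphere.preimage continuous_snd).inter (isClosed_eq h2 continuous_snd)

/-- the representative of a smooth form -/
def mk (h : Ret (d := d) F P r) (hF : ContMDiff (𝓡 d) (𝓡 m) ∞ F) {σ : Form d X 2}
    (hσ : IsSmooth σ) : C(X, Aw m) :=
  ⟨fun x => wr (PB P σ (F x)), wr_cont.comp (continuousOn_univ.1
    ((PB_smooth h hσ).continuousOn.comp hF.continuous.continuousOn fun x _ => mem_tube h.pos x))⟩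

theorem mk_rep (h : Ret (d := d) F P r) (hF : ContMDiff (𝓡 d) (𝓡 m) ∞ F) {σ : Form d X 2}
    (hσ : IsSmooth σ) : Rep F P (mk h hF hσ) σ := fun x => rfl

theorem sec_count [CompactSpace X] (hF : Continuous F) (hFi : Function.Injective F) :
    SecondCountableTopology X := (hF.isClosedEmbedding hFi).isEmbedding.secondCountableTopology

end

end Pool.Agent.H33.CD
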