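import Pool.Agent.H33.CD.Str

/-!
# The structure measure of an almost complex structure which is not tamed, and its density
-/

set_option autoImplicit false
set_option linter.unusedSectionVars false
set_option linter.unusedVariables false

open Set Filter Topology MeasureTheory Function
open scoped Manifold ContDiff RealInnerProductSpace Convolution ENNReal NNReal

noncomputable section

namespace Pool.Agent.H33.CD

open Pool.Agent.Y501.SY Pool.Agent.Y455.SY Pool.Agent.H33.TM Pool.Agent.Q235.SZ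

section

variable {d m : ℕ} {X : Type} [TopologicalSpace X] [ChartedSpace (E d) X]
  [IsManifold (𝓡 d) ∞ X] [CompactSpace X]
  {F : X → E m} {P : E m → X} {r : ℝ} {χ : E m → ℝ} {B : ℝ}

theorem Ev_add (J : End d X) (f g : C(X, Aw m)) (q : X × E m) :
    Ev F P J (f + g) q = Ev F P J f q + Ev F P J g q := rfl

theorem Ev_smul (J : End d X) (c : ℝ) (f : C(X, Aw m)) (q : X × E m) :
    Ev F P J (c • f) q = c * Ev F P J f q := rfl

/-- evaluation as a linear map -/
def EvL (F : X → E m) (P : E m → X) (J : End d X) : C(X, Aw m) →ₗ[ℝ] (X × E m → ℝ) where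
  toFun := Ev F P J
  map_add' := fun f g => funext fun q => Ev_add J f g q
  map_smul' := fun c f => funext fun q => Ev_smul J c f q

theorem exists_b (h : Dat (d := d) F P r χ B) {J : End d X} (hJ : IsAlmostComplex J) :
    ∃ b : ℝ, 0 < b ∧ ∀ x, ‖JJ F P J x‖ ≤ b := by
  have h1 : Continuous fun x => ‖JJ F P J x‖ := (JJ_cont h.ret h.sm hJ).norm
  obtain ⟨b, hb⟩ := (isCompact_univ (X := X)).exists_bound_of_continuousOn h1.continuousOn
  refine ⟨max b 1, lt_max_of_lt_right one_pos, fun x => ?_⟩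
  have := hb x (mem_univ x)
  rw [norm_norm] at this
  exact this.trans (le_max_left _ _)

theorem Ev_le (h : Dat (d := d) F P r χ B) {J : End d X} {b : ℝ}
    (hb : ∀ x, ‖JJ F P J x‖ ≤ b) (f : C(X, Aw m)) {q : X × E m} (hq : q ∈ Kt F P) :
    ‖Ev F P J f q‖ ≤ b * ‖f q.1‖ := by
  unfold Ev
  refine (ContinuousAlternatingMap.le_opNorm _ _).trans ?_
  rw [Fin.prod_univ_two]
  have h1 : ‖q.2‖ = 1 := mem_sphere_zero_iff_norm.1 hq.1
  have h2 : ‖JJ F P J q.1 q.2‖ ≤ b := by
    refine (ContinuousLinearMap.le_opNorm _ _).trans ?_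
    rw [h1, mul_one]
    exact hb _
  change ‖un (f q.1)‖ * (‖q.2‖ * ‖JJ F P J q.1 q.2‖) ≤ _
  rw [h1, one_mul, un_norm, mul_comm]
  exact mul_le_mul_of_nonneg_right h2 (norm_nonneg _)

/-- the properties of the structure measure -/
structure SMeas [MeasurableSpace X] (h : Dat (d := d) F P r χ B) (J : End d X)
    (ν : Measure X) (T : C(X, Aw m) →L[ℝ] ℝ) (b : ℝ) : Prop where
  fin : IsFiniteMeasure ν
  ne : ν univ ≠ 0
  b0 : 0 ≤ b
  kill : ∀ z ∈ Zs h, T z = 0
  bd : ∀ f, ENNReal.ofReal |T f| ≤ ENNReal.ofReal b * ∫⁻ x, ENNReal.ofReal ‖f x‖ ∂ν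
  low : ∀ (f : C(X, Aw m)) (σ : Form d X 2) (κ : X → ℝ), Rep F P f σ → Integrable κ ν →
    (∀ (x : X) (v : TangentSpace (𝓡 d) x), κ x * nm F x v ^ 2 ≤ σ x ![v, J x v]) →
    ∫ x, κ x ∂ν ≤ T f

theorem exists_SM [T2Space X] [MeasurableSpace X] [BorelSpace X]
    (h : Dat (d := d) F P r χ B) (hFi : Function.Injective F) {J : End d X}
    (hFd : ∀ x, Function.Injective (mfderiv (𝓡 d) (𝓡 m) F x))
    (hJ : IsAlmostComplex J)
    (hun : ¬ ∃ σ : Form d X 2, IsSmooth σ ∧ IsClosedForm σ ∧ ∀ y, TamesAt σ J y) :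
    ∃ (ν : Measure X) (T : C(X, Aw m) →L[ℝ] ℝ) (b : ℝ), SMeas h J ν T b := by
  have hsc := sec_count h.sm.continuous hFi
  obtain ⟨b, hb0, hb⟩ := exists_b h hJ
  have hK := Kt_compact h
  obtain ⟨μ, hμfin, hμ0, hμK, hμS, -⟩ := Pool.Agent.R772.sep_measure hK
    ((Zs h).map (EvL F P J)) (by
      rintro _ ⟨f, _, rfl⟩
      exact Ev_cont h.ret h.sm hJ f) (fun _ => 0) continuous_const (by
      rintro _ ⟨f, ⟨σ, s1, s2, s3⟩, rfl⟩ hpos
      refine hun ⟨σ, s1, s2, fun y v hv => ?_⟩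
      obtain ⟨v', hv'⟩ : ∃ v' : E d, v' = v := ⟨_, rfl⟩
      have hn : 0 < nm F y v := nm_pos hFd hv
      obtain ⟨n, hn'⟩ : ∃ n, n = nm F y v := ⟨_, rfl⟩
      rw [← hn'] at hn
      have hnv : ‖dF F y v'‖ = n := by rw [hn', hv']; rfl
      have hq : (y, dF F y (n⁻¹ • v')) ∈ Kt F P := by
        refine ⟨?_, DQ_DF h.ret h.sm y _⟩
        rw [mem_sphere_zero_iff_norm]
        dsimp only
        rw [map_smul, norm_smul, hnv, Real.norm_eq_abs, abs_of_pos (inv_pos.2 hn),
          inv_mul_cancel₀ hn.ne']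
      have h1 := hpos _ hq
      rw [zero_add] at h1
      obtain ⟨s, hs⟩ : ∃ s : (E d) [⋀^Fin 2]→L[ℝ] ℝ, s = σ y := ⟨_, rfl⟩
      have h2 : EvL F P J f (y, dF F y (n⁻¹ • v')) = s ![n⁻¹ • v', toE J y (n⁻¹ • v')] := by
        rw [hs]
        exact Ev_eq h.ret h.sm s3 y _
      rw [h2] at h1
      have h3 : (![n⁻¹ • v', toE J y (n⁻¹ • v')] : Fin 2 → E d) =
          fun i => (fun _ : Fin 2 => n⁻¹) i • (![v', toE J y v'] : Fin 2 → E d) i := by
        funext i
        fin_cases i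
        · rfl
        · exact map_smul (toE J y) _ _
      rw [h3, ContinuousAlternatingMap.map_smul_univ] at h1
      have h4 : (0 : ℝ) < ∏ i : Fin 2, (fun _ : Fin 2 => n⁻¹) i := by
        rw [Fin.prod_univ_two]
        positivity
      rw [smul_eq_mul, mul_pos_iff_of_pos_left h4, hs, hv'] at h1
      exact h1)
  have haeK : ∀ᵐ q ∂μ, q ∈ Kt F P := by
    rw [ae_iff]
    exact hμK
  have hres : μ.restrict (Kt F P) = μ := Measure.restrict_eq_self_of_ae_mem haeK
  have hint : ∀ f : C(X, Aw m), Integrable (Ev F P J f) μ := by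
    intro f
    have := (Ev_cont h.ret h.sm hJ f).continuousOn.integrableOn_compact (μ := μ) hK
    rwa [IntegrableOn, hres] at this
  obtain ⟨ν, hν⟩ : ∃ ν : Measure X, ν = μ.map Prod.fst := ⟨_, rfl⟩
  have hνfin : IsFiniteMeasure ν := by
    rw [hν]
    exact Measure.isFiniteMeasure_map μ _
  have hbd : ∀ f : C(X, Aw m), ENNReal.ofReal |∫ q, Ev F P J f q ∂μ| ≤
      ENNReal.ofReal b * ∫⁻ x, ENNReal.ofReal ‖f x‖ ∂ν := by
    intro f
    have hfm : Measurable fun x => ENNReal.ofReal ‖f x‖ :=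
      f.continuous.norm.measurable.ennreal_ofReal
    calc ENNReal.ofReal |∫ q, Ev F P J f q ∂μ| = ‖∫ q, Ev F P J f q ∂μ‖ₑ := by
          rw [Real.enorm_eq_ofReal_abs]
      _ ≤ ∫⁻ q, ‖Ev F P J f q‖ₑ ∂μ := enorm_integral_le_lintegral_enorm _
      _ ≤ ∫⁻ q, ENNReal.ofReal b * ENNReal.ofReal ‖f q.1‖ ∂μ := by
          refine lintegral_mono_ae ?_
          filter_upwards [haeK] with q hq
          rw [← ofReal_norm, ← ENNReal.ofReal_mul hb0.le]
          exact ENNReal.ofReal_le_ofReal (Ev_le h hb f hq)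
      _ = ENNReal.ofReal b * ∫⁻ q, ENNReal.ofReal ‖f q.1‖ ∂μ :=
          lintegral_const_mul _ (hfm.comp measurable_fst)
      _ = _ := by rw [hν, lintegral_map hfm measurable_fst]
  obtain ⟨T, hT⟩ : ∃ T : C(X, Aw m) →L[ℝ] ℝ, ∀ f, T f = ∫ q, Ev F P J f q ∂μ := by
    refine ⟨LinearMap.mkContinuous
      { toFun := fun f => ∫ q, Ev F P J f q ∂μ
        map_add' := fun f g => ?_
        map_smul' := fun c f => ?_ } (b * (μ univ).toReal) fun f => ?_, fun f => rfl⟩
    · rw [← integral_add (hint f) (hint g)]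
      rfl
    · rw [RingHom.id_apply, smul_eq_mul, ← integral_const_mul]
      rfl
    · have h1 : ‖∫ q, Ev F P J f q ∂μ‖ ≤ b * ‖f‖ * (μ univ).toReal := by
        refine norm_integral_le_of_norm_le_const ?_
        filter_upwards [haeK] with q hq
        exact (Ev_le h hb f hq).trans (mul_le_mul_of_nonneg_left (f.norm_coe_le_norm _) hb0.le)
      refine h1.trans (le_of_eq ?_)
      ring
  refine ⟨ν, T, b, hνfin, ?_, hb0.le, ?_, ?_, ?_⟩
  · rw [hν, Measure.map_apply measurable_fst MeasurableSet.univ, preimage_univ]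
    exact fun h0 => hμ0 (Measure.measure_univ_eq_zero.1 h0)
  · intro z hz
    rw [hT]
    exact hμS _ ⟨z, hz, rfl⟩
  · intro f
    rw [hT]
    exact hbd f
  · intro f σ κ hf hκ hlow
    have h1 : Integrable (fun q : X × E m => κ q.1) μ := by
      rw [hν] at hκ
      exact (integrable_map_measure hκ.aestronglyMeasurable measurable_fst.aemeasurable).1 hκ
    have h2 : ∫ x, κ x ∂ν = ∫ q, κ q.1 ∂μ := by
      rw [hν]
      rw [hν] at hκ
      exact integral_map measurable_fst.aemeasurable hκ.aestronglyMeasurable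
    rw [h2, hT]
    refine integral_mono_ae h1 (hint f) ?_
    filter_upwards [haeK] with q hq
    obtain ⟨v, hv1, hv2⟩ := Kt_mem h.ret h.sm hq
    have h3 := hlow q.1 v
    rw [hv2, one_pow, mul_one] at h3
    refine h3.trans (le_of_eq ?_)
    have h4 := Ev_eq h.ret h.sm (J := J) hf q.1 v
    rw [← hv1] at h4
    exact h4.symm

theorem SM_dens [T2Space X] [MeasurableSpace X] [BorelSpace X]
    (h : Dat (d := d) F P r χ B) (hFi : Function.Injective F) {J : End d X}
    (hFd : ∀ x, Function.Injective (mfderiv (𝓡 d) (𝓡 m) F x))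
    (hJ : IsAlmostComplex J) (hol : LocHol J) {ν : Measure X} {T : C(X, Aw m) →L[ℝ] ℝ} {b : ℝ}
    (hS : SMeas h J ν T b) : ∃ D : ℝ, 0 ≤ D ∧ Dens F ν D := by
  obtain ⟨ρ, c, C, hρ, hc, hC, hL⟩ := globL h.sm hFi hFd hJ hol
  have hfin := hS.fin
  refine ⟨C / c + 1 / ρ ^ 2, by positivity, fun y t ht => ?_⟩
  obtain ⟨N, hN⟩ : ∃ N, N = (ν univ).toReal := ⟨_, rfl⟩
  have hN0 : 0 ≤ N := by rw [hN]; exact ENNReal.toReal_nonneg
  have hNe : ν univ = ENNReal.ofReal N := by
    rw [hN, ENNReal.ofReal_toReal (measure_ne_top ν univ)]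
  rcases lt_or_ge t ρ with htρ | htρ
  · obtain ⟨α, η, hex, hin, hall⟩ := hL y t ht htρ
    obtain ⟨a, ha⟩ : ∃ a, a = (ν (FB F y t)).toReal := ⟨_, rfl⟩
    have ha0 : 0 ≤ a := by rw [ha]; exact ENNReal.toReal_nonneg
    have hae : ν (FB F y t) = ENNReal.ofReal a := by
      rw [ha, ENNReal.ofReal_toReal (measure_ne_top ν _)]
    have hms : MeasurableSet (FB F y t) := (FB_closed h.sm.continuous y t).measurableSet
    have h0 : T (mk h.ret h.sm hex.s2) = 0 :=
      hS.kill _ ⟨η, hex.s2, hex.closed, mk_rep h.ret h.sm hex.s2⟩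
    obtain ⟨κ, hκ⟩ : ∃ κ : X → ℝ, κ = fun x =>
      (FB F y t).indicator (fun _ => c + C * t ^ 2) x - C * t ^ 2 := ⟨_, rfl⟩
    have hκi : Integrable κ ν := by
      rw [hκ]
      exact ((integrable_const _).indicator hms).sub (integrable_const _)
    have h1 := hS.low _ η κ (mk_rep h.ret h.sm hex.s2) hκi (fun x v => by
      rw [hκ]
      dsimp only
      by_cases hx : x ∈ FB F y t
      · rw [indicator_of_mem hx]
        have := hin x hx v
        rwa [add_sub_cancel_right]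
      · rw [indicator_of_notMem hx, zero_sub]
        exact hall x v)
    have h2 : ∫ x, κ x ∂ν = a * (c + C * t ^ 2) - N * (C * t ^ 2) := by
      rw [hκ, integral_sub ((integrable_const _).indicator hms) (integrable_const _),
        integral_indicator hms, setIntegral_const, integral_const, ha, hN]
      rfl
    rw [h2, h0] at h1
    rw [hae, hNe, ← ENNReal.ofReal_mul (by positivity)]
    refine ENNReal.ofReal_le_ofReal ?_
    have h3 : a * c ≤ N * (C * t ^ 2) := by
      have : 0 ≤ a * (C * t ^ 2) := by positivity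
      nlinarith
    have h4 : a ≤ C / c * t ^ 2 * N := by
      rw [div_mul_eq_mul_div, div_mul_eq_mul_div, le_div_iff₀ hc]
      linarith
    have h5 : 0 ≤ 1 / ρ ^ 2 * t ^ 2 * N := by positivity
    nlinarith
  · refine (measure_mono (subset_univ _)).trans ?_
    rw [hNe, ← ENNReal.ofReal_mul (by positivity)]
    refine ENNReal.ofReal_le_ofReal ?_
    have h1 : 1 ≤ 1 / ρ ^ 2 * t ^ 2 := by
      rw [div_mul_eq_mul_div, one_mul, le_div_iff₀ (by positivity), one_mul]
      exact pow_le_pow_left₀ hρ.le htρ 2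
    have h2 : 0 ≤ C / c * t ^ 2 := by positivity
    nlinarith

end

end Pool.Agent.H33.CD
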